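import Pool.Agent.H50.REL.CloR
import Pool.Agent.H50.REL.Clo

/-!
# The inhomogeneous equation

A vector of the context which satisfies the equations with right sides polynomial in the time, on
an event: either it is polynomial in the time with coefficients functions of the line, on cells, or
there is a relation, jointly with the event.
-/

set_option autoImplicit false

namespace Pool.REL

open Finset Polynomial
open Pool.Agent.H49.Ent Pool.Agent.H32.Dense Pool.STK Pool.BFL Pool.GLB Pool.CLU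
open Pool.K2S (cpn)
open Pool.MIC30 (All)

section

variable {h m c : ℕ} {NN : Finset (Fin h →₀ ℕ)}

/-- **The closing step, general form.** -/
theorem cloG (h m c n : ℕ) (hn : 1 ≤ n) (NN : Finset (Fin h →₀ ℕ))
    (a : Fin c → {γ // γ ∈ NN} → Fin m → ℝ[X]) (C₀ : ℝ) (hC₀ : 1 ≤ C₀) : ∃ N : ℕ,
    ∀ (S : Finset (Fin m)) (j : ℕ),
    ∃ (C : ℝ) (A₂ : ℕ), 1 ≤ C ∧ ∀ q : ℕ, ∃ A K₂ : ℕ,
    ∀ (B : Bd h m c) (hB : B.Ok) (θ : ℝ) (D : Ctx B θ) (s : D.G → Fin m → ℝ)
      (g : B.Λ → Fin c → ℝ[X]) (E : D.W → Prop) (Λ τ ρ e₀ : ℝ),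
      VecR Λ S s → (∀ x k, (g x k).degree < n) → C ≤ Λ → 0 < τ → τ * Λ ^ A ≤ 1 → 0 < ρ →
      (∀ w, 0 < D.q w → E w → |B.th (D.pr w)| ≤ 1 ∧ (∀ i, |B.β (B.L (D.pr w)) i| ≤ C₀) ∧
        ∀ k, |B.ev a (D.pr w) (s (D.x w)) k -
          (g (B.L (D.pr w)) k).eval (B.th (D.pr w))| ≤ τ) →
      ρ ≤ Pb D.q E →
      P2 B.p B.L (fun ω ω' => |B.th ω - B.th ω'| * Λ < 1) ≤ e₀ →
      8 * (N + 1) ^ 2 * e₀ ≤ ρ ^ (N + 1) →
      (∃ F : B.Λ → ℤ → Fin m → ℝ[X], (∀ l z α, (F l z α).natDegree ≤ K₂) ∧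
        (∀ l z, ∀ α ∉ S, F l z α = 0) ∧
        ρ ^ (N + 1) / 2 ≤ Pb D.q (fun w => E w ∧
          ∀ α, |s (D.x w) α - (F (B.L (D.pr w)) ⌊B.th (D.pr w) * Λ ^ A₂⌋ α).eval
            (B.th (D.pr w))| * Λ ^ q ≤ 1)) ∨
      ∃ (i : Fin (N + 1)) (d : (Fin (N + 1) → D.G) → Fin m → ℝ), VecR 1 S d ∧
        ρ ^ (N + 1) / 8 ≤ Pb (D.ms hB N i).q (fun w : Fin (N + 1) → D.W => E (w i) ∧
          (∃ β, |d ((D.ms hB N i).x w) β| = 1) ∧
          ∀ l, |B.ev a ((D.ms hB N i).pr w) (d ((D.ms hB N i).x w)) l| ≤ 1 / Λ ^ j) := by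
  classical
  obtain ⟨e, he⟩ : ∃ e, e = n - 1 := ⟨_, rfl⟩
  have hne : e + 1 = n := by omega
  obtain ⟨R, hR⟩ : ∃ R : ℕ, R = 8 * NN.card + 1 := ⟨_, rfl⟩
  obtain ⟨N, hN⟩ : ∃ N : ℕ, N = R + e := ⟨_, rfl⟩
  refine ⟨N, fun S j => ?_⟩
  obtain ⟨C, A₂, hC, H⟩ := Pool.GLB.glb_or h S.card c (e + 1) NN
    (ra S a) C₀ hC₀ j
  refine ⟨C, A₂, hC, fun q => ?_⟩
  obtain ⟨A, K₂, H1⟩ := H q
  refine ⟨A, K₂, ?_⟩
  intro B hB θ D s g E Λ τ ρ e₀ hs hg hCΛ hτ hτA hρ hEE hPE hsep he₀
  have n0 := D.isLaw.nonneg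
  have hΛ1 : 1 ≤ Λ := hC.trans hCΛ
  have hΛ0 : 0 < Λ := by linarith only [hC, hCΛ]
  obtain ⟨l, hl⟩ : ∃ l : D.W → B.Λ, l = fun w => B.L (D.pr w) := ⟨_, rfl⟩
  obtain ⟨κ, hκ⟩ : ∃ κ, κ = cpn D.q l N := ⟨_, rfl⟩
  have κlaw : IsLaw κ := by
    rw [hκ]
    exact cpn_law D.isLaw l N
  have κ0 := κlaw.nonneg
  have hAll : ρ ^ (N + 1) ≤ Pb κ (All E N) := by
    rw [hκ]
    exact (pow_le_pow_left₀ hρ.le hPE _).trans (Pool.MIC30.all_ge D.isLaw l _ N)
  have hρN : 0 < ρ ^ (N + 1) := pow_pos hρ _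
  have hAll0 : 0 < Pb κ (All E N) := lt_of_lt_of_le hρN hAll
  obtain ⟨pc, hpc⟩ : ∃ pc, pc = cond κ (All E N) True := ⟨_, rfl⟩
  have pclaw : IsLaw pc := by
    rw [hpc]
    exact Pool.MIC.isLaw_ev κlaw _ hAll0
  exact by
   have pc0 := pclaw.nonneg
   have pcpos : ∀ w, 0 < pc w → 0 < κ w ∧ All E N w := by
     intro w hw
     rw [hpc] at hw
     exact Pool.MIC.ev_pos κ0 _ hw
   have κpos : ∀ w, 0 < κ w → (∀ i, 0 < D.q (w i)) ∧ ∀ i, l (w i) = l (w 0) := by
     intro w hw
     rw [hκ] at hw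
     exact cpn_pos n0 l N w hw
   -- the indices
   have hRN : ∀ {r : ℕ}, r < R → r < N + 1 := fun hr => by omega
   have hni : ∀ i : Fin (e + 1), R + (i : ℕ) < N + 1 := fun i => by
     have := i.2
     omega
   obtain ⟨ni, hnid⟩ : ∃ ni : Fin (e + 1) → Fin (N + 1), ni = fun i => ⟨R + i, hni i⟩ :=
     ⟨_, rfl⟩
   -- the functions of the context
   obtain ⟨t, ht⟩ : ∃ t : ℕ → (Fin (N + 1) → D.G) → ℝ, ∀ r (hr : r < N + 1) y,
       t r y = D.tt (y ⟨r, hr⟩) := by
     refine ⟨fun r y => if hr : r < N + 1 then D.tt (y ⟨r, hr⟩) else 0, fun r hr y => ?_⟩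
     simp only
     rw [dif_pos hr]
   obtain ⟨sf, hsf⟩ : ∃ sf : ℕ → (Fin (N + 1) → D.G) → Fin S.card → ℝ,
       ∀ r (hr : r < N + 1) y, sf r y = fun k => s (y ⟨r, hr⟩) (em S k) := by
     refine ⟨fun r y => if hr : r < N + 1 then fun k => s (y ⟨r, hr⟩) (em S k)
       else 0, fun r hr y => ?_⟩
     simp only
     rw [dif_pos hr]
   obtain ⟨v, hv⟩ : ∃ v : (Fin (N + 1) → D.G) → Fin (e + 1) → ℝ,
       v = fun y i => D.tt (y (ni i)) := ⟨_, rfl⟩
   exact by
    obtain ⟨sn, hsn⟩ : ∃ sn : (Fin (N + 1) → D.G) → Fin (e + 1) → Fin S.card → ℝ,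
        sn = fun y i k => s (y (ni i)) (em S k) := ⟨_, rfl⟩
    obtain ⟨x, hx⟩ : ∃ x : (Fin (N + 1) → D.W) → (Fin (N + 1) → D.G),
        x = fun w i => D.x (w i) := ⟨_, rfl⟩
    obtain ⟨β, hβ⟩ : ∃ β : (Fin (N + 1) → D.W) → Fin h → ℝ, β = fun w => B.β (l (w 0)) :=
      ⟨_, rfl⟩
    obtain ⟨Sp, hSp⟩ : ∃ Sp : (Fin (N + 1) → D.W) → Prop, Sp = fun w =>
      ∀ i i', i ≠ i' → 1 ≤ Λ * |B.th (D.pr (w (ni i))) - B.th (D.pr (w (ni i')))| := ⟨_, rfl⟩
    obtain ⟨Gd, hGd⟩ : ∃ Gd : (Fin (N + 1) → D.W) → Prop, Gd = fun w =>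
      0 < κ w ∧ All E N w ∧ Sp w := ⟨_, rfl⟩
    -- the nodes are separated
    have hsepc : Pb pc (fun w => ¬ Sp w) ≤ 1 / 8 := by
      have h1 : Pb κ (fun w => ¬ Sp w) ≤ (N + 1) ^ 2 * e₀ := by
        have h2 : Pb κ (fun w => ¬ Sp w) ≤ ∑ i : Fin (N + 1) × Fin (N + 1),
            Pb κ (fun w => i.1 ≠ i.2 ∧ |B.th (D.pr (w i.1)) - B.th (D.pr (w i.2))| * Λ < 1) := by
          refine le_trans ?_ (Pool.MIC.Pb_exists_le κ0 _)
          refine Pool.MIC.Pb_le_of_imp κ0 fun w _ hw => ?_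
          rw [hSp] at hw
          push Not at hw
          obtain ⟨i, i', hii, h3⟩ := hw
          refine ⟨(ni i, ni i'), ?_, ?_⟩
          · intro h4
            apply hii
            rw [hnid] at h4
            simp only [Fin.mk.injEq] at h4
            exact Fin.ext (by omega)
          · rw [mul_comm]
            exact h3
        refine h2.trans ?_
        have he0 : 0 ≤ e₀ := by
          refine le_trans ?_ hsep
          unfold P2
          refine Finset.sum_nonneg fun ω _ => Finset.sum_nonneg fun ω' _ => ?_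
          split_ifs
          · exact div_nonneg (mul_nonneg (hB.isLaw.nonneg _) (hB.isLaw.nonneg _))
              (law_nonneg hB.isLaw.nonneg _ _)
          · exact le_rfl
        have h3 : ∀ i ∈ (univ : Finset (Fin (N + 1) × Fin (N + 1))),
            Pb κ (fun w => i.1 ≠ i.2 ∧
              |B.th (D.pr (w i.1)) - B.th (D.pr (w i.2))| * Λ < 1) ≤ e₀ := by
          intro i _
          by_cases h4 : i.1 = i.2
          · refine le_trans (le_of_eq ?_) he0
            unfold Pb
            refine Finset.sum_eq_zero fun w _ => ?_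
            rw [if_neg fun hh => hh.1 h4]
          · refine le_trans (Pool.MIC.Pb_le_of_imp κ0 fun w _ hw => hw.2) ?_
            rw [hκ, Pool.X31.Pb_cpn_pair n0 l h4
              (fun w w' => |B.th (D.pr w) - B.th (D.pr w')| * Λ < 1)]
            refine le_trans (le_of_eq ?_) hsep
            rw [hl]
            exact P2_marg D.mg B.L (fun ω ω' => |B.th ω - B.th ω'| * Λ < 1)
        refine (Finset.sum_le_sum h3).trans (le_of_eq ?_)
        rw [Finset.sum_const, Finset.card_univ, Fintype.card_prod, Fintype.card_fin,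
          nsmul_eq_mul]
        push_cast
        ring
      rw [hpc]
      refine (Pool.MIC.Pb_cond_le κ0 _ _ hAll0).trans ?_
      rw [div_le_iff₀ hAll0]
      linarith only [he₀, hAll, h1]
    -- the hypotheses
    exact by
     have hyp : ∀ w, Gd w → (∀ i, |β w i| ≤ C₀) ∧ (∀ r < R, |t r (x w)| ≤ 1) ∧
           (∀ i, |v (x w) i| ≤ 1) ∧ (∀ i i', i ≠ i' → 1 ≤ Λ * |v (x w) i - v (x w) i'|) ∧
           (∀ k, (g (l (w 0)) k).degree < ((e + 1 : ℕ) : WithBot ℕ)) ∧
           (∀ r < R, ∀ α, |sf r (x w) α| ≤ Λ) ∧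
           (∀ i α, |sn (x w) i α| ≤ Λ) ∧
           (∀ r < R, ∀ k, |Pool.GLB.ev (ra S a) (β w) (t r (x w)) (sf r (x w)) k -
             (g (l (w 0)) k).eval (t r (x w))| ≤ τ) ∧
           (∀ i k, |Pool.GLB.ev (ra S a) (β w) (v (x w) i) (sn (x w) i) k -
             (g (l (w 0)) k).eval (v (x w) i)| ≤ τ) := by
       intro w hw
       rw [hGd] at hw
       obtain ⟨g1, g2, g3⟩ := hw
       obtain ⟨g4, g5⟩ := κpos w g1
       have hG := fun i => hEE (w i) (g4 i) (g2 i)
       have htt : ∀ i, D.tt (x w i) = B.th (D.pr (w i)) := by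
         intro i
         rw [hx]
         exact D.tt_eq (g4 i)
       have hβi : ∀ i, β w = B.β (B.L (D.pr (w i))) := by
         intro i
         have h2 := g5 i
         rw [hβ]
         simp only
         rw [← h2, hl]
       have hT : ∀ i, |D.tt (x w i)| ≤ 1 := by
         intro i
         rw [htt i]
         exact (hG i).1
       have hEq : ∀ i k, |Pool.GLB.ev (ra S a) (β w) (D.tt (x w i))
           (fun r => s (x w i) (em S r)) k -
             (g (l (w 0)) k).eval (D.tt (x w i))| ≤ τ := by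
         intro i k
         have h3 : x w i = D.x (w i) := by rw [hx]
         have h4 : ext S (fun r => s (D.x (w i)) (em S r)) = s (D.x (w i)) := by
           rw [ext_res]
           funext α
           by_cases h5 : α ∈ S
           · rw [if_pos h5]
           · rw [if_neg h5, hs.2 _ _ h5]
         have h5 := (hG i).2.2 k
         rw [ev_ext, htt i, hβi i, h3, h4, ← g5 i, hl]
         exact h5
       refine ⟨?_, ?_, ?_, ?_, ?_, ?_, ?_, ?_, ?_⟩
       · intro i
         rw [hβi 0]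
         exact (hG 0).2.1 i
       · intro r hr
         rw [ht r (hRN hr)]
         exact hT _
       · intro i
         rw [hv]
         exact hT _
       · intro i i' hii
         rw [hv]
         simp only
         rw [htt, htt]
         rw [hSp] at g3
         exact g3 i i' hii
       · intro k
         rw [hne]
         exact hg _ k
       · intro r hr α
         rw [hsf r (hRN hr)]
         exact hs.1 _ _
       · intro i α
         rw [hsn]
         exact hs.1 _ _
       · intro r hr k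
         rw [ht r (hRN hr), hsf r (hRN hr)]
         exact hEq _ k
       · intro i k
         rw [hv, hsn]
         exact hEq _ k
     exact by
      have hR0 : 0 < R := by omega
      have hcR : (NN.card : ℝ) / R + 1 / 8 ≤ 1 / 4 := by
        have h1 : (NN.card : ℝ) / R ≤ 1 / 8 := by
          rw [div_le_iff₀ (by exact_mod_cast hR0), hR]
          push_cast
          linarith only
        linarith only [h1]
      -- the dichotomy
      rcases H1 R (Fin (N + 1) → D.W) (Fin (N + 1) → D.G) pc x β t v sf sn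
        (fun w => g (l (w 0))) Gd Λ τ (1 / 8) hR0 pclaw hτ hCΛ hτA hyp with hA | hA
      · obtain ⟨r, hr, F, hF, hP⟩ := hA
        left
        have hP' := hP.trans hcR
        obtain ⟨Ap, hAp⟩ : ∃ Ap : (Fin (N + 1) → D.W) → Prop, Ap = fun ω =>
          ∀ α, |sf r (x ω) α - (F (v (x ω)) (sn (x ω))
              (fun i : Fin r => (t i (x ω), sf i (x ω))) ⌊t r (x ω) * Λ ^ A₂⌋ α).eval
                (t r (x ω))| * Λ ^ q ≤ 1 := ⟨_, rfl⟩
        have hP1 : Pb pc (fun w => Gd w ∧ ¬ Ap w) ≤ 1 / 4 := by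
          rw [hAp]
          exact hP'
        have hP2 : 1 / 2 ≤ Pb pc (fun w => Gd w ∧ Ap w) := by
          have h1 : Pb pc (fun _ => True) = 1 := by
            unfold Pb
            simpa using pclaw.sum_one
          have h2 : Pb pc (fun _ => True) ≤
              Pb pc (fun w => (Gd w ∧ Ap w) ∨ ((Gd w ∧ ¬ Ap w) ∨ ¬ Sp w)) := by
            refine Pool.MIC.Pb_le_of_imp pc0 fun w hw _ => ?_
            by_cases h3 : Sp w
            · have h4 : Gd w := by
                rw [hGd]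
                exact ⟨(pcpos w hw).1, (pcpos w hw).2, h3⟩
              by_cases h5 : Ap w
              · exact Or.inl ⟨h4, h5⟩
              · exact Or.inr (Or.inl ⟨h4, h5⟩)
            · exact Or.inr (Or.inr h3)
          have h3 := Pool.GLB.Pb_two pc0 (fun w => Gd w ∧ Ap w)
            (fun w => (Gd w ∧ ¬ Ap w) ∨ ¬ Sp w)
          have h4 := Pool.GLB.Pb_two pc0 (fun w => Gd w ∧ ¬ Ap w) (fun w => ¬ Sp w)
          linarith only [hsepc, hP1, h1, h2, h3, h4]
        obtain ⟨Good, hGood⟩ : ∃ Good : (Fin (N + 1) → D.W) → D.W → Prop, Good = fun w ω =>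
          ∀ k, |s (D.x ω) (em S k) - (F (fun i => D.tt (D.x (w (ni i))))
            (fun i k => s (D.x (w (ni i))) (em S k))
            (fun i : Fin r => (D.tt (D.x (w ⟨i, hRN (i.2.trans hr)⟩)),
              fun k => s (D.x (w ⟨i, hRN (i.2.trans hr)⟩)) (em S k)))
            ⌊D.tt (D.x ω) * Λ ^ A₂⌋ k).eval (D.tt (D.x ω))| * Λ ^ q ≤ 1 := ⟨_, rfl⟩
        have hAG : ∀ w, Ap w → Good w (w ⟨r, hRN hr⟩) := by
          intro w hw
          rw [hAp] at hw
          rw [hGood]
          intro k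
          have h1 := hw k
          rw [ht r (hRN hr), hsf r (hRN hr)] at h1
          have h2 : (fun i : Fin r => (t i (x w), sf i (x w))) = fun i : Fin r =>
              (D.tt (D.x (w ⟨i, hRN (i.2.trans hr)⟩)),
                fun k => s (D.x (w ⟨i, hRN (i.2.trans hr)⟩)) (em S k)) := by
            funext i
            rw [ht i (hRN (i.2.trans hr)), hsf i (hRN (i.2.trans hr)), hx]
          rw [h2, hv, hsn, hx] at h1
          exact h1
        have hGinv : ∀ w w' : Fin (N + 1) → D.W, (∀ i, i ≠ ⟨r, hRN hr⟩ → w i = w' i) →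
            ∀ ω, Good w ω ↔ Good w' ω := by
          intro w w' hww ω
          have h1 : ∀ i, w (ni i) = w' (ni i) := by
            intro i
            apply hww
            rw [hnid]
            intro h2
            simp only [Fin.mk.injEq] at h2
            omega
          have h2 : ∀ i : Fin r, w ⟨i, hRN (i.2.trans hr)⟩ = w' ⟨i, hRN (i.2.trans hr)⟩ := by
            intro i
            apply hww
            intro h3
            simp only [Fin.mk.injEq] at h3
            have := i.2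
            omega
          rw [hGood]
          simp only [h1, h2]
        obtain ⟨xs, hxs⟩ := Pool.MIC30.best_others D.isLaw l N ⟨r, hRN hr⟩ E Good hGinv
        have hP3 : ρ ^ (N + 1) / 2 ≤ Pb D.q (fun ω => E ω ∧ Good (xs (l ω)) ω) := by
          refine le_trans ?_ hxs
          rw [← hκ]
          have h1 : Pb pc (fun w => Gd w ∧ Ap w) * Pb κ (All E N) =
              Pb κ (fun w => All E N w ∧ (Gd w ∧ Ap w)) := by
            rw [hpc]
            exact Pool.MIC.Pb_cond_ge _ _ hAll0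
          have h2 : Pb κ (fun w => All E N w ∧ (Gd w ∧ Ap w)) ≤
              Pb κ (fun w => (∀ i, E (w i)) ∧ Good w (w ⟨r, hRN hr⟩)) :=
            Pool.MIC.Pb_le_of_imp κ0 fun w _ hw => ⟨hw.1, hAG w hw.2.2⟩
          refine le_trans ?_ h2
          rw [← h1]
          calc ρ ^ (N + 1) / 2 = 1 / 2 * ρ ^ (N + 1) := by ring
            _ ≤ Pb pc (fun w => Gd w ∧ Ap w) * Pb κ (All E N) :=
              mul_le_mul hP2 hAll hρN.le (Pool.MIC.Pb_nonneg pc0 _)
        -- the polynomials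
        refine ⟨fun t z α => if hα : α ∈ S then
          F (fun i => D.tt (D.x (xs t (ni i))))
            (fun i k => s (D.x (xs t (ni i))) (em S k))
            (fun i : Fin r => (D.tt (D.x (xs t ⟨i, hRN (i.2.trans hr)⟩)),
              fun k => s (D.x (xs t ⟨i, hRN (i.2.trans hr)⟩)) (em S k))) z
            (S.equivFin ⟨α, hα⟩) else 0, ?_, ?_, hP3.trans ?_⟩
        · intro t z α
          simp only
          split_ifs
          · exact hF _ _ _ _ _
          · rw [Polynomial.natDegree_zero]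
            exact Nat.zero_le _
        · intro t z α hα
          simp only
          rw [dif_neg hα]
        · refine Pool.MIC.Pb_le_of_imp n0 fun w hw hh => ?_
          obtain ⟨g1, g2⟩ := hh
          refine ⟨g1, fun α => ?_⟩
          rw [hGood] at g2
          simp only
          have htw := D.tt_eq hw
          by_cases h2 : α ∈ S
          · rw [dif_pos h2]
            have h3 := g2 (S.equivFin ⟨α, h2⟩)
            have h4 : em S (S.equivFin ⟨α, h2⟩) = α := by
              unfold em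
              rw [Equiv.symm_apply_apply]
            rw [h4, htw, hl] at h3
            exact h3
          · rw [dif_neg h2, Polynomial.eval_zero, sub_zero, hs.2 _ _ h2, abs_zero, zero_mul]
            exact zero_le_one
      · obtain ⟨r, hr, s₀, h1, h2, h3⟩ := hA
        right
        refine ⟨⟨r, hRN hr⟩, fun y => ext S (s₀ y), ⟨fun y α => ext_bd _ zero_le_one
          (h1 y) α, fun y α hα => ext_out _ _ hα⟩, ?_⟩
        have h4 : Pb pc (fun ω => Gd ω ∧ ∃ α, |s₀ (x ω) α| = 1) * Pb κ (All E N) =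
            Pb κ (fun w => All E N w ∧ (Gd w ∧ ∃ α, |s₀ (x w) α| = 1)) := by
          rw [hpc]
          exact Pool.MIC.Pb_cond_ge _ _ hAll0
        have h5 : ρ ^ (N + 1) / 8 ≤
            Pb κ (fun w => All E N w ∧ (Gd w ∧ ∃ α, |s₀ (x w) α| = 1)) := by
          rw [← h4]
          calc ρ ^ (N + 1) / 8 = 1 / 8 * ρ ^ (N + 1) := by ring
            _ ≤ Pb pc (fun ω => Gd ω ∧ ∃ α, |s₀ (x ω) α| = 1) * Pb κ (All E N) :=
              mul_le_mul h3.le hAll hρN.le (Pool.MIC.Pb_nonneg pc0 _)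
        refine h5.trans ?_
        have h6 : (D.ms hB N ⟨r, hRN hr⟩).q = κ := by
          rw [hκ, hl]
          rfl
        rw [h6]
        refine Pool.MIC.Pb_le_of_imp κ0 fun w _ hw => ?_
        obtain ⟨g1, g2, g3⟩ := hw
        have g4 := g1 ⟨r, hRN hr⟩
        have g5 : 0 < κ w := by
          rw [hGd] at g2
          exact g2.1
        obtain ⟨g6, g7⟩ := κpos w g5
        refine ⟨g4, ?_, fun k => ?_⟩
        · obtain ⟨i, hi⟩ := g3
          refine ⟨em S i, ?_⟩
          show |ext S (s₀ (fun j => D.x (w j))) (em S i)| = 1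
          rw [ext_em]
          rw [hx] at hi
          exact hi
        · have g8 := h2 w g2 g3 k
          rw [ht r (hRN hr), ev_ext] at g8
          show |Pool.GLB.ev a (B.β (B.L (D.pr (w ⟨r, hRN hr⟩)))) (B.th (D.pr (w ⟨r, hRN hr⟩)))
            (ext S (s₀ (fun j => D.x (w j)))) k| ≤ 1 / Λ ^ j
          rw [le_div_iff₀ (pow_pos hΛ0 j)]
          have g9 : β w = B.β (B.L (D.pr (w ⟨r, hRN hr⟩))) := by
            have := g7 ⟨r, hRN hr⟩
            rw [hβ]
            simp only
            rw [← this, hl]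
          have g10 : D.tt (x w ⟨r, hRN hr⟩) = B.th (D.pr (w ⟨r, hRN hr⟩)) := by
            rw [hx]
            exact D.tt_eq (g6 _)
          rw [g9, g10, hx] at g8
          exact g8

end

end Pool.REL
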