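import Pool.Agent.H50.REL.UniN
import Pool.Agent.H50.REL.Clo

/-!
# The coefficients of a minimal relation are polynomials in the time: designated pivot

A relation with a pivot: either the other coefficients are polynomials in the time with coefficients
functions of the line, on cells, or there is a relation without the pivot, jointly with the first.
-/

set_option autoImplicit false

namespace Pool.REL

open Finset Polynomial
open Pool.Agent.H49.Ent Pool.Agent.H32.Dense Pool.STK Pool.BFL Pool.GLB Pool.CLU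
open Pool.K2S (cpn)
open Pool.MIC30 (All)

section

variable {h m c : ℕ} {NN : Finset (Fin h →₀ ℕ)}

/-- **The closing step.** -/
theorem cloN (h m c : ℕ) (NN : Finset (Fin h →₀ ℕ)) (a : Fin c → {γ // γ ∈ NN} → Fin m → ℝ[X])
    (C₀ : ℝ) (hC₀ : 1 ≤ C₀) : ∃ N : ℕ, ∀ (S : Finset (Fin m)) (α₀ : Fin m) (j : ℕ),
    ∃ (C : ℝ) (A₂ : ℕ), 1 ≤ C ∧ ∀ q : ℕ, ∃ A K₂ : ℕ,
    ∀ (B : Bd h m c) (hB : B.Ok) (θ : ℝ) (D : Ctx B θ) (s : D.G → Fin m → ℝ)
      (Λ τ₀ τ ρ e₀ : ℝ),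
      VecR Λ S s → C ≤ Λ → 0 < τ → τ * Λ ^ A ≤ 1 → 0 < ρ →
      ρ ≤ Pb D.q (D.Gp a C₀ τ₀ τ α₀ s) →
      P2 B.p B.L (fun ω ω' => |B.th ω - B.th ω'| * Λ < 1) ≤ e₀ →
      8 * (N + 1) ^ 2 * e₀ ≤ ρ ^ (N + 1) →
      (∃ F : B.Λ → ℤ → Fin m → ℝ[X], (∀ l z α, (F l z α).natDegree ≤ K₂) ∧
        (∀ l z, F l z α₀ = 1) ∧ (∀ l z, ∀ α ∉ S, α ≠ α₀ → F l z α = 0) ∧
        ρ ^ (N + 1) / 2 ≤ Pb D.q (fun w => D.Gp a C₀ τ₀ τ α₀ s w ∧
          ∀ α, |s (D.x w) α - (F (B.L (D.pr w)) ⌊B.th (D.pr w) * Λ ^ A₂⌋ α).eval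
            (B.th (D.pr w))| * Λ ^ q ≤ 1)) ∨
      ∃ (i : Fin (N + 1)) (d : (Fin (N + 1) → D.G) → Fin m → ℝ), VecR 1 (S.erase α₀) d ∧
        ρ ^ (N + 1) / 8 ≤ Pb (D.ms hB N i).q (fun w =>
          (D.ms hB N i).Gp a C₀ τ₀ τ α₀ (fun y => s (y i)) w ∧
          (∃ β, |d ((D.ms hB N i).x w) β| = 1) ∧
          ∀ l, |B.ev a ((D.ms hB N i).pr w) (d ((D.ms hB N i).x w)) l| ≤ 1 / Λ ^ j) := by
  classical
  obtain ⟨b, e, hb, hab, he⟩ := Pool.GLB.a_bound a
  obtain ⟨R, hR⟩ : ∃ R : ℕ, R = 8 * NN.card + 1 := ⟨_, rfl⟩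
  obtain ⟨N, hN⟩ : ∃ N : ℕ, N = R + e := ⟨_, rfl⟩
  refine ⟨N, fun S α₀ j => ?_⟩
  obtain ⟨C, A₂, hC, H⟩ := Pool.GLB.glb_or h (S.erase α₀).card c (e + 1) NN
    (ra (S.erase α₀) a) C₀ hC₀ j
  refine ⟨C, A₂, hC, fun q => ?_⟩
  obtain ⟨A, K₂, H1⟩ := H q
  refine ⟨A, K₂, ?_⟩
  intro B hB θ D s Λ τ₀ τ ρ e₀ hs hCΛ hτ hτA hρ hPE hsep he₀
  have n0 := D.isLaw.nonneg
  have hΛ1 : 1 ≤ Λ := hC.trans hCΛ
  have hΛ0 : 0 < Λ := by linarith
  obtain ⟨l, hl⟩ : ∃ l : D.W → B.Λ, l = fun w => B.L (D.pr w) := ⟨_, rfl⟩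
  obtain ⟨κ, hκ⟩ : ∃ κ, κ = cpn D.q l N := ⟨_, rfl⟩
  have κlaw : IsLaw κ := by
    rw [hκ]
    exact cpn_law D.isLaw l N
  have κ0 := κlaw.nonneg
  obtain ⟨E, hE⟩ : ∃ E : D.W → Prop, E = D.Gp a C₀ τ₀ τ α₀ s := ⟨_, rfl⟩
  have hAll : ρ ^ (N + 1) ≤ Pb κ (All E N) := by
    rw [hκ, hE]
    exact (pow_le_pow_left₀ hρ.le hPE _).trans (Pool.MIC30.all_ge D.isLaw l _ N)
  have hρN : 0 < ρ ^ (N + 1) := pow_pos hρ _
  have hAll0 : 0 < Pb κ (All E N) := lt_of_lt_of_le hρN hAll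
  obtain ⟨pc, hpc⟩ : ∃ pc, pc = cond κ (All E N) True := ⟨_, rfl⟩
  have pclaw : IsLaw pc := by
    rw [hpc]
    exact Pool.MIC.isLaw_ev κlaw _ hAll0
  have pc0 := pclaw.nonneg
  have pcpos : ∀ w, 0 < pc w → 0 < κ w ∧ All E N w := by
    intro w hw
    rw [hpc] at hw
    exact Pool.MIC.ev_pos κ0 _ hw
  have κpos : ∀ w, 0 < κ w → (∀ i, 0 < D.q (w i)) ∧ ∀ i, l (w i) = l (w 0) := by
    intro w hw
    rw [hκ] at hw
    exact cpn_pos n0 l N w hw
  -- the indices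
  have hRN : ∀ {r : ℕ}, r < R → r < N + 1 := fun hr => by omega
  have hni : ∀ i : Fin (e + 1), R + (i : ℕ) < N + 1 := fun i => by
    have := i.2
    omega
  obtain ⟨ni, hnid⟩ : ∃ ni : Fin (e + 1) → Fin (N + 1), ni = fun i => ⟨R + i, hni i⟩ :=
    ⟨_, rfl⟩
  -- the functions of the context
  obtain ⟨t, ht⟩ : ∃ t : ℕ → (Fin (N + 1) → D.G) → ℝ, ∀ r (hr : r < N + 1) y,
      t r y = D.tt (y ⟨r, hr⟩) := by
    refine ⟨fun r y => if hr : r < N + 1 then D.tt (y ⟨r, hr⟩) else 0, fun r hr y => ?_⟩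
    simp only
    rw [dif_pos hr]
  obtain ⟨sf, hsf⟩ : ∃ sf : ℕ → (Fin (N + 1) → D.G) → Fin (S.erase α₀).card → ℝ,
      ∀ r (hr : r < N + 1) y, sf r y = fun k => s (y ⟨r, hr⟩) (em (S.erase α₀) k) := by
    refine ⟨fun r y => if hr : r < N + 1 then fun k => s (y ⟨r, hr⟩) (em (S.erase α₀) k)
      else 0, fun r hr y => ?_⟩
    simp only
    rw [dif_pos hr]
  obtain ⟨v, hv⟩ : ∃ v : (Fin (N + 1) → D.G) → Fin (e + 1) → ℝ,
      v = fun y i => D.tt (y (ni i)) := ⟨_, rfl⟩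
  obtain ⟨sn, hsn⟩ : ∃ sn : (Fin (N + 1) → D.G) → Fin (e + 1) → Fin (S.erase α₀).card → ℝ,
      sn = fun y i k => s (y (ni i)) (em (S.erase α₀) k) := ⟨_, rfl⟩
  obtain ⟨x, hx⟩ : ∃ x : (Fin (N + 1) → D.W) → (Fin (N + 1) → D.G),
      x = fun w i => D.x (w i) := ⟨_, rfl⟩
  obtain ⟨β, hβ⟩ : ∃ β : (Fin (N + 1) → D.W) → Fin h → ℝ, β = fun w => B.β (l (w 0)) :=
    ⟨_, rfl⟩
  obtain ⟨Sp, hSp⟩ : ∃ Sp : (Fin (N + 1) → D.W) → Prop, Sp = fun w =>
    ∀ i i', i ≠ i' → 1 ≤ Λ * |B.th (D.pr (w (ni i))) - B.th (D.pr (w (ni i')))| := ⟨_, rfl⟩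
  obtain ⟨Gd, hGd⟩ : ∃ Gd : (Fin (N + 1) → D.W) → Prop, Gd = fun w =>
    0 < κ w ∧ All E N w ∧ Sp w := ⟨_, rfl⟩
  -- the nodes are separated
  have hsepc : Pb pc (fun w => ¬ Sp w) ≤ 1 / 8 := by
    have h1 : Pb κ (fun w => ¬ Sp w) ≤ (N + 1) ^ 2 * e₀ := by
      have h2 : Pb κ (fun w => ¬ Sp w) ≤ ∑ i : Fin (N + 1) × Fin (N + 1),
          Pb κ (fun w => i.1 ≠ i.2 ∧ |B.th (D.pr (w i.1)) - B.th (D.pr (w i.2))| * Λ < 1) := by
        refine le_trans ?_ (Pool.MIC.Pb_exists_le κ0 _)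
        refine Pool.MIC.Pb_le_of_imp κ0 fun w _ hw => ?_
        rw [hSp] at hw
        push Not at hw
        obtain ⟨i, i', hii, h3⟩ := hw
        refine ⟨(ni i, ni i'), ?_, ?_⟩
        · intro h4
          apply hii
          rw [hnid] at h4
          simp only [Fin.mk.injEq] at h4
          exact Fin.ext (by omega)
        · rw [mul_comm]
          exact h3
      refine h2.trans ?_
      have he0 : 0 ≤ e₀ := by
        refine le_trans ?_ hsep
        unfold P2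
        refine Finset.sum_nonneg fun ω _ => Finset.sum_nonneg fun ω' _ => ?_
        split_ifs
        · exact div_nonneg (mul_nonneg (hB.isLaw.nonneg _) (hB.isLaw.nonneg _))
            (law_nonneg hB.isLaw.nonneg _ _)
        · exact le_rfl
      have h3 : ∀ i ∈ (univ : Finset (Fin (N + 1) × Fin (N + 1))),
          Pb κ (fun w => i.1 ≠ i.2 ∧
            |B.th (D.pr (w i.1)) - B.th (D.pr (w i.2))| * Λ < 1) ≤ e₀ := by
        intro i _
        by_cases h4 : i.1 = i.2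
        · refine le_trans (le_of_eq ?_) he0
          unfold Pb
          refine Finset.sum_eq_zero fun w _ => ?_
          rw [if_neg fun hh => hh.1 h4]
        · refine le_trans (Pool.MIC.Pb_le_of_imp κ0 fun w _ hw => hw.2) ?_
          rw [hκ, Pool.X31.Pb_cpn_pair n0 l h4
            (fun w w' => |B.th (D.pr w) - B.th (D.pr w')| * Λ < 1)]
          refine le_trans (le_of_eq ?_) hsep
          rw [hl]
          exact P2_marg D.mg B.L (fun ω ω' => |B.th ω - B.th ω'| * Λ < 1)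
      refine (Finset.sum_le_sum h3).trans (le_of_eq ?_)
      rw [Finset.sum_const, Finset.card_univ, Fintype.card_prod, Fintype.card_fin,
        nsmul_eq_mul]
      push_cast
      ring
    rw [hpc]
    refine (Pool.MIC.Pb_cond_le κ0 _ _ hAll0).trans ?_
    rw [div_le_iff₀ hAll0]
    linarith
  -- the hypotheses
  have hyp : ∀ w, Gd w → (∀ i, |β w i| ≤ C₀) ∧ (∀ r < R, |t r (x w)| ≤ 1) ∧
        (∀ i, |v (x w) i| ≤ 1) ∧ (∀ i i', i ≠ i' → 1 ≤ Λ * |v (x w) i - v (x w) i'|) ∧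
        (∀ k, (rh a α₀ (β w) k).degree < ((e + 1 : ℕ) : WithBot ℕ)) ∧
        (∀ r < R, ∀ α, |sf r (x w) α| ≤ Λ) ∧
        (∀ i α, |sn (x w) i α| ≤ Λ) ∧
        (∀ r < R, ∀ k, |Pool.GLB.ev (ra (S.erase α₀) a) (β w) (t r (x w)) (sf r (x w)) k -
          (rh a α₀ (β w) k).eval (t r (x w))| ≤ τ) ∧
        (∀ i k, |Pool.GLB.ev (ra (S.erase α₀) a) (β w) (v (x w) i) (sn (x w) i) k -
          (rh a α₀ (β w) k).eval (v (x w) i)| ≤ τ) := by
    intro w hw
    rw [hGd] at hw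
    obtain ⟨g1, g2, g3⟩ := hw
    obtain ⟨g4, g5⟩ := κpos w g1
    have hG : ∀ i, D.Gp a C₀ τ₀ τ α₀ s (w i) := by
      intro i
      have := g2 i
      rw [hE] at this
      exact this
    have htt : ∀ i, D.tt (x w i) = B.th (D.pr (w i)) := by
      intro i
      rw [hx]
      exact D.tt_eq (g4 i)
    have hβi : ∀ i, β w = B.β (B.L (D.pr (w i))) := by
      intro i
      have h2 := g5 i
      rw [hβ]
      simp only
      rw [← h2, hl]
    have hT : ∀ i, |D.tt (x w i)| ≤ 1 := by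
      intro i
      rw [htt i]
      exact (hG i).1.1
    have hEq : ∀ i k, |Pool.GLB.ev (ra (S.erase α₀) a) (β w) (D.tt (x w i))
        (fun r => s (x w i) (em (S.erase α₀) r)) k -
          (rh a α₀ (β w) k).eval (D.tt (x w i))| ≤ τ := by
      intro i k
      have h2 := (hG i).2.1
      have h3 : x w i = D.x (w i) := by rw [hx]
      rw [← h3] at h2
      rw [ev_piv a (hs.2 (x w i)) h2, htt i, hβi i, h3]
      exact (hG i).2.2 k
    refine ⟨?_, ?_, ?_, ?_, ?_, ?_, ?_, ?_, ?_⟩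
    · intro i
      rw [hβi 0]
      exact (hG 0).1.2.1 i
    · intro r hr
      rw [ht r (hRN hr)]
      exact hT _
    · intro i
      rw [hv]
      exact hT _
    · intro i i' hii
      rw [hv]
      simp only
      rw [htt, htt]
      rw [hSp] at g3
      exact g3 i i' hii
    · intro k
      exact rh_deg he α₀ _ k
    · intro r hr α
      rw [hsf r (hRN hr)]
      exact hs.1 _ _
    · intro i α
      rw [hsn]
      exact hs.1 _ _
    · intro r hr k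
      rw [ht r (hRN hr), hsf r (hRN hr)]
      exact hEq _ k
    · intro i k
      rw [hv, hsn]
      exact hEq _ k
  have hR0 : 0 < R := by omega
  have hcR : (NN.card : ℝ) / R + 1 / 8 ≤ 1 / 4 := by
    have h1 : (NN.card : ℝ) / R ≤ 1 / 8 := by
      rw [div_le_iff₀ (by exact_mod_cast hR0), hR]
      push_cast
      linarith
    linarith
  -- the dichotomy
  rcases H1 R (Fin (N + 1) → D.W) (Fin (N + 1) → D.G) pc x β t v sf sn
    (fun w => rh a α₀ (β w)) Gd Λ τ (1 / 8) hR0 pclaw hτ hCΛ hτA hyp with hA | hA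
  · obtain ⟨r, hr, F, hF, hP⟩ := hA
    left
    have hP' := hP.trans hcR
    obtain ⟨Ap, hAp⟩ : ∃ Ap : (Fin (N + 1) → D.W) → Prop, Ap = fun ω =>
      ∀ α, |sf r (x ω) α - (F (v (x ω)) (sn (x ω))
          (fun i : Fin r => (t i (x ω), sf i (x ω))) ⌊t r (x ω) * Λ ^ A₂⌋ α).eval
            (t r (x ω))| * Λ ^ q ≤ 1 := ⟨_, rfl⟩
    have hP1 : Pb pc (fun w => Gd w ∧ ¬ Ap w) ≤ 1 / 4 := by
      rw [hAp]
      exact hP'
    have hP2 : 1 / 2 ≤ Pb pc (fun w => Gd w ∧ Ap w) := by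
      have h1 : Pb pc (fun _ => True) = 1 := by
        unfold Pb
        simpa using pclaw.sum_one
      have h2 : Pb pc (fun _ => True) ≤
          Pb pc (fun w => (Gd w ∧ Ap w) ∨ ((Gd w ∧ ¬ Ap w) ∨ ¬ Sp w)) := by
        refine Pool.MIC.Pb_le_of_imp pc0 fun w hw _ => ?_
        by_cases h3 : Sp w
        · have h4 : Gd w := by
            rw [hGd]
            exact ⟨(pcpos w hw).1, (pcpos w hw).2, h3⟩
          by_cases h5 : Ap w
          · exact Or.inl ⟨h4, h5⟩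
          · exact Or.inr (Or.inl ⟨h4, h5⟩)
        · exact Or.inr (Or.inr h3)
      have h3 := Pool.GLB.Pb_two pc0 (fun w => Gd w ∧ Ap w)
        (fun w => (Gd w ∧ ¬ Ap w) ∨ ¬ Sp w)
      have h4 := Pool.GLB.Pb_two pc0 (fun w => Gd w ∧ ¬ Ap w) (fun w => ¬ Sp w)
      linarith
    obtain ⟨Good, hGood⟩ : ∃ Good : (Fin (N + 1) → D.W) → D.W → Prop, Good = fun w ω =>
      ∀ k, |s (D.x ω) (em (S.erase α₀) k) - (F (fun i => D.tt (D.x (w (ni i))))
        (fun i k => s (D.x (w (ni i))) (em (S.erase α₀) k))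
        (fun i : Fin r => (D.tt (D.x (w ⟨i, hRN (i.2.trans hr)⟩)),
          fun k => s (D.x (w ⟨i, hRN (i.2.trans hr)⟩)) (em (S.erase α₀) k)))
        ⌊D.tt (D.x ω) * Λ ^ A₂⌋ k).eval (D.tt (D.x ω))| * Λ ^ q ≤ 1 := ⟨_, rfl⟩
    have hAG : ∀ w, Ap w → Good w (w ⟨r, hRN hr⟩) := by
      intro w hw
      rw [hAp] at hw
      rw [hGood]
      intro k
      have h1 := hw k
      rw [ht r (hRN hr), hsf r (hRN hr)] at h1
      have h2 : (fun i : Fin r => (t i (x w), sf i (x w))) = fun i : Fin r =>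
          (D.tt (D.x (w ⟨i, hRN (i.2.trans hr)⟩)),
            fun k => s (D.x (w ⟨i, hRN (i.2.trans hr)⟩)) (em (S.erase α₀) k)) := by
        funext i
        rw [ht i (hRN (i.2.trans hr)), hsf i (hRN (i.2.trans hr)), hx]
      rw [h2, hv, hsn, hx] at h1
      exact h1
    have hGinv : ∀ w w' : Fin (N + 1) → D.W, (∀ i, i ≠ ⟨r, hRN hr⟩ → w i = w' i) →
        ∀ ω, Good w ω ↔ Good w' ω := by
      intro w w' hww ω
      have h1 : ∀ i, w (ni i) = w' (ni i) := by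
        intro i
        apply hww
        rw [hnid]
        intro h2
        simp only [Fin.mk.injEq] at h2
        omega
      have h2 : ∀ i : Fin r, w ⟨i, hRN (i.2.trans hr)⟩ = w' ⟨i, hRN (i.2.trans hr)⟩ := by
        intro i
        apply hww
        intro h3
        simp only [Fin.mk.injEq] at h3
        have := i.2
        omega
      rw [hGood]
      simp only [h1, h2]
    obtain ⟨xs, hxs⟩ := Pool.MIC30.best_others D.isLaw l N ⟨r, hRN hr⟩ E Good hGinv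
    have hP3 : ρ ^ (N + 1) / 2 ≤ Pb D.q (fun ω => E ω ∧ Good (xs (l ω)) ω) := by
      refine le_trans ?_ hxs
      rw [← hκ]
      have h1 : Pb pc (fun w => Gd w ∧ Ap w) * Pb κ (All E N) =
          Pb κ (fun w => All E N w ∧ (Gd w ∧ Ap w)) := by
        rw [hpc]
        exact Pool.MIC.Pb_cond_ge _ _ hAll0
      have h2 : Pb κ (fun w => All E N w ∧ (Gd w ∧ Ap w)) ≤
          Pb κ (fun w => (∀ i, E (w i)) ∧ Good w (w ⟨r, hRN hr⟩)) :=
        Pool.MIC.Pb_le_of_imp κ0 fun w _ hw => ⟨hw.1, hAG w hw.2.2⟩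
      refine le_trans ?_ h2
      rw [← h1]
      calc ρ ^ (N + 1) / 2 = 1 / 2 * ρ ^ (N + 1) := by ring
        _ ≤ Pb pc (fun w => Gd w ∧ Ap w) * Pb κ (All E N) :=
          mul_le_mul hP2 hAll hρN.le (Pool.MIC.Pb_nonneg pc0 _)
    -- the polynomials
    refine ⟨fun t z α => if α = α₀ then 1 else if hα : α ∈ S.erase α₀ then
      F (fun i => D.tt (D.x (xs t (ni i))))
        (fun i k => s (D.x (xs t (ni i))) (em (S.erase α₀) k))
        (fun i : Fin r => (D.tt (D.x (xs t ⟨i, hRN (i.2.trans hr)⟩)),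
          fun k => s (D.x (xs t ⟨i, hRN (i.2.trans hr)⟩)) (em (S.erase α₀) k))) z
        ((S.erase α₀).equivFin ⟨α, hα⟩) else 0, ?_, ?_, ?_, hP3.trans ?_⟩
    · intro t z α
      simp only
      split_ifs
      · rw [Polynomial.natDegree_one]
        exact Nat.zero_le _
      · exact hF _ _ _ _ _
      · rw [Polynomial.natDegree_zero]
        exact Nat.zero_le _
    · intro t z
      exact if_pos rfl
    · intro t z α hα hne
      simp only
      rw [if_neg hne, dif_neg fun h3 => hα (Finset.mem_erase.1 h3).2]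
    · refine Pool.MIC.Pb_le_of_imp n0 fun w hw hh => ?_
      obtain ⟨g1, g2⟩ := hh
      rw [hE] at g1
      refine ⟨g1, fun α => ?_⟩
      rw [hGood] at g2
      simp only
      have htw := D.tt_eq hw
      by_cases h1 : α = α₀
      · rw [if_pos h1, Polynomial.eval_one, h1, g1.2.1, sub_self, abs_zero, zero_mul]
        exact zero_le_one
      · rw [if_neg h1]
        by_cases h2 : α ∈ S.erase α₀
        · rw [dif_pos h2]
          have h3 := g2 ((S.erase α₀).equivFin ⟨α, h2⟩)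
          have h4 : em (S.erase α₀) ((S.erase α₀).equivFin ⟨α, h2⟩) = α := by
            unfold em
            rw [Equiv.symm_apply_apply]
          rw [h4, htw, hl] at h3
          exact h3
        · rw [dif_neg h2, Polynomial.eval_zero, sub_zero,
            hs.2 _ _ (fun h3 => h2 (Finset.mem_erase.2 ⟨h1, h3⟩)), abs_zero, zero_mul]
          exact zero_le_one
  · obtain ⟨r, hr, s₀, h1, h2, h3⟩ := hA
    right
    refine ⟨⟨r, hRN hr⟩, fun y => ext (S.erase α₀) (s₀ y), ⟨fun y α => ext_bd _ zero_le_one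
      (h1 y) α, fun y α hα => ext_out _ _ hα⟩, ?_⟩
    have h4 : Pb pc (fun ω => Gd ω ∧ ∃ α, |s₀ (x ω) α| = 1) * Pb κ (All E N) =
        Pb κ (fun w => All E N w ∧ (Gd w ∧ ∃ α, |s₀ (x w) α| = 1)) := by
      rw [hpc]
      exact Pool.MIC.Pb_cond_ge _ _ hAll0
    have h5 : ρ ^ (N + 1) / 8 ≤
        Pb κ (fun w => All E N w ∧ (Gd w ∧ ∃ α, |s₀ (x w) α| = 1)) := by
      rw [← h4]
      calc ρ ^ (N + 1) / 8 = 1 / 8 * ρ ^ (N + 1) := by ring
        _ ≤ Pb pc (fun ω => Gd ω ∧ ∃ α, |s₀ (x ω) α| = 1) * Pb κ (All E N) :=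
          mul_le_mul h3.le hAll hρN.le (Pool.MIC.Pb_nonneg pc0 _)
    refine h5.trans ?_
    have h6 : (D.ms hB N ⟨r, hRN hr⟩).q = κ := by
      rw [hκ, hl]
      rfl
    rw [h6]
    refine Pool.MIC.Pb_le_of_imp κ0 fun w _ hw => ?_
    obtain ⟨g1, g2, g3⟩ := hw
    have g4 := g1 ⟨r, hRN hr⟩
    rw [hE] at g4
    have g5 : 0 < κ w := by
      rw [hGd] at g2
      exact g2.1
    obtain ⟨g6, g7⟩ := κpos w g5
    refine ⟨g4, ?_, fun k => ?_⟩
    · obtain ⟨i, hi⟩ := g3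
      refine ⟨em (S.erase α₀) i, ?_⟩
      show |ext (S.erase α₀) (s₀ (fun j => D.x (w j))) (em (S.erase α₀) i)| = 1
      rw [ext_em]
      rw [hx] at hi
      exact hi
    · have g8 := h2 w g2 g3 k
      rw [ht r (hRN hr), ev_ext] at g8
      show |Pool.GLB.ev a (B.β (B.L (D.pr (w ⟨r, hRN hr⟩)))) (B.th (D.pr (w ⟨r, hRN hr⟩)))
        (ext (S.erase α₀) (s₀ (fun j => D.x (w j)))) k| ≤ 1 / Λ ^ j
      rw [le_div_iff₀ (pow_pos hΛ0 j)]
      have g9 : β w = B.β (B.L (D.pr (w ⟨r, hRN hr⟩))) := by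
        have := g7 ⟨r, hRN hr⟩
        rw [hβ]
        simp only
        rw [← this, hl]
      have g10 : D.tt (x w ⟨r, hRN hr⟩) = B.th (D.pr (w ⟨r, hRN hr⟩)) := by
        rw [hx]
        exact D.tt_eq (g6 _)
      rw [g9, g10, hx] at g8
      exact g8

end

end Pool.REL
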