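import Pool.Agent.H50.LBL.GlbO
import Pool.Agent.H30.MIC.Bst
import Pool.Agent.H30.MIC.Samp
import Pool.Agent.H31.X.Sub
import Pool.Agent.H54.K2.QF

/-!
# Contexts and relations

`Bd`: the samples, `L` the line with its window, `b` the closed label, `th` the time, `pt` the exact
point, `β` the hidden data of the line, `fv` the values of the jets at the exact point.
A context (`Ctx`) is a function on an extension of the samples with little information about the
line. A relation (`Rel`) is a vector of norm `1`, a function of a context, which satisfies the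
linear equations at the own point on an event of positive probability.
-/

set_option autoImplicit false

namespace Pool.REL

open Finset Polynomial
open Pool.Agent.H49.Ent Pool.Agent.H32.Dense Pool.STK Pool.BFL Pool.GLB Pool.CLU
open Pool.K2S (cpn)

/-- The samples. -/
structure Bd (h m c : ℕ) : Type 1 where
  Ω : Type
  Λ : Type
  Γ : Type
  Ξ : Type
  fin : Fintype Ω
  p : Ω → ℝ
  L : Ω → Λ
  b : Ω → Γ
  th : Ω → ℝ
  pt : Ω → Ξ
  β : Λ → Fin h → ℝ
  fv : Ξ → Fin m → Fin c → ℝ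

attribute [instance] Bd.fin

section

variable {h m c : ℕ} {NN : Finset (Fin h →₀ ℕ)}

/-- The value of the equations at the sample. -/
noncomputable def Bd.ev (B : Bd h m c) (a : Fin c → {γ // γ ∈ NN} → Fin m → ℝ[X]) (ω : B.Ω)
    (s : Fin m → ℝ) (l : Fin c) : ℝ :=
  Pool.GLB.ev a (B.β (B.L ω)) (B.th ω) s l

/-- Typical samples. -/
def Bd.Ty (B : Bd h m c) (a : Fin c → {γ // γ ∈ NN} → Fin m → ℝ[X]) (C₀ τ₀ : ℝ) (ω : B.Ω) :
    Prop :=
  |B.th ω| ≤ 1 ∧ (∀ i, |B.β (B.L ω) i| ≤ C₀) ∧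
    ∀ α l, |B.ev a ω (Pi.single α 1) l - B.fv (B.pt ω) α l| ≤ τ₀

/-- The hypotheses on the samples. -/
structure Bd.Ok (B : Bd h m c) : Prop where
  isLaw : IsLaw B.p
  b_L : Det B.p B.L B.b
  pt_L : Det B.p (fun ω => (B.L ω, B.th ω)) B.pt
  b_pt : Det B.p B.pt B.b
  th_pt : Det B.p B.pt B.th

/-- **A context.** -/
structure Ctx (B : Bd h m c) (θ : ℝ) : Type 1 where
  W : Type
  ft : Fintype W
  q : W → ℝ
  isLaw : IsLaw q
  pr : W → B.Ω
  mg : Marg q B.p pr
  G : Type
  x : W → G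
  x_b : Det q x (fun w => B.b (pr w))
  x_t : Det q x (fun w => B.th (pr w))
  inf : CH q (fun w => B.L (pr w)) (fun w => B.b (pr w)) - CH q (fun w => B.L (pr w)) x ≤ θ

attribute [instance] Ctx.ft

variable {B : Bd h m c} {θ : ℝ}

/-- The good samples of the vector `s`. -/
def Ctx.Gd (D : Ctx B θ) (a : Fin c → {γ // γ ∈ NN} → Fin m → ℝ[X]) (C₀ τ₀ τ : ℝ)
    (s : D.G → Fin m → ℝ) (w : D.W) : Prop :=
  B.Ty a C₀ τ₀ (D.pr w) ∧ (∃ α, |s (D.x w) α| = 1) ∧ ∀ l, |B.ev a (D.pr w) (s (D.x w)) l| ≤ τ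

/-- **A relation** with support in `S`. -/
def Ctx.Rel (D : Ctx B θ) (a : Fin c → {γ // γ ∈ NN} → Fin m → ℝ[X]) (C₀ τ₀ : ℝ)
    (S : Finset (Fin m)) (τ ρ : ℝ) : Prop :=
  ∃ s : D.G → Fin m → ℝ, (∀ y α, |s y α| ≤ 1) ∧ (∀ y, ∀ α ∉ S, s y α = 0) ∧
    ρ ≤ Pb D.q (D.Gd a C₀ τ₀ τ s)

/-- A larger cost. -/
def Ctx.mono (D : Ctx B θ) {θ' : ℝ} (hθ : θ ≤ θ') : Ctx B θ' :=
  ⟨D.W, D.ft, D.q, D.isLaw, D.pr, D.mg, D.G, D.x, D.x_b, D.x_t, D.inf.trans hθ⟩

theorem Ctx.Rel.mono {D : Ctx B θ} {a : Fin c → {γ // γ ∈ NN} → Fin m → ℝ[X]} {C₀ τ₀ : ℝ}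
    {S : Finset (Fin m)} {τ ρ τ' ρ' : ℝ} (hR : D.Rel a C₀ τ₀ S τ ρ) (hτ : τ ≤ τ') (hρ : ρ' ≤ ρ) :
    D.Rel a C₀ τ₀ S τ' ρ' := by
  obtain ⟨s, h1, h2, h3⟩ := hR
  refine ⟨s, h1, h2, hρ.trans (h3.trans ?_)⟩
  exact Pool.MIC.Pb_le_of_imp D.isLaw.nonneg fun w _ hw =>
    ⟨hw.1, hw.2.1, fun l => (hw.2.2 l).trans hτ⟩

theorem Ctx.Rel.cost {D : Ctx B θ} {a : Fin c → {γ // γ ∈ NN} → Fin m → ℝ[X]} {C₀ τ₀ : ℝ}
    {S : Finset (Fin m)} {τ ρ θ' : ℝ} (hR : D.Rel a C₀ τ₀ S τ ρ) (hθ : θ ≤ θ') :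
    (D.mono hθ).Rel a C₀ τ₀ S τ ρ := hR

/-- The information in terms of the context. -/
theorem Ctx.inf' (D : Ctx B θ) (hB : B.Ok) :
    CH D.q D.x (fun w => B.b (D.pr w)) - CH D.q D.x (fun w => B.L (D.pr w)) ≤ θ := by
  have h := D.inf
  have n0 := D.isLaw.nonneg
  have hbL : Det D.q (fun w => B.L (D.pr w)) (fun w => B.b (D.pr w)) := D.mg.det n0 hB.b_L
  unfold CH at h ⊢
  have e1 : H D.q (fun w => (B.L (D.pr w), B.b (D.pr w))) = H D.q (fun w => B.L (D.pr w)) :=
    H_congr n0 (fun w w' a b e => Prod.ext e (hbL w w' a b e))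
      (fun w w' a b e => (Prod.ext_iff.mp e).1)
  have e2 : H D.q (fun w => (D.x w, B.b (D.pr w))) = H D.q D.x :=
    H_congr n0 (fun w w' a b e => Prod.ext e (D.x_b w w' a b e))
      (fun w w' a b e => (Prod.ext_iff.mp e).1)
  have e3 : H D.q (fun w => (D.x w, B.L (D.pr w))) = H D.q (fun w => (B.L (D.pr w), D.x w)) :=
    H_congr n0 (fun w w' a b e => by
        obtain ⟨e1, e2⟩ := Prod.ext_iff.mp e
        exact Prod.ext e2 e1)
      (fun w w' a b e => by
        obtain ⟨e1, e2⟩ := Prod.ext_iff.mp e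
        exact Prod.ext e2 e1)
  rw [e1] at h
  rw [e2, e3]
  linarith

/-- **Several samples of the line.** -/
noncomputable def Ctx.ms (D : Ctx B θ) (hB : B.Ok) (N : ℕ) (i : Fin (N + 1)) : Ctx B ((N + 1) * θ) where
  W := Fin (N + 1) → D.W
  ft := inferInstance
  q := cpn D.q (fun w => B.L (D.pr w)) N
  isLaw := cpn_law D.isLaw _ N
  pr := fun w => D.pr (w i)
  mg := (cpn_marg D.isLaw.nonneg _ N i).comp D.mg
  G := Fin (N + 1) → D.G
  x := fun w j => D.x (w j)
  x_b := by
    intro w w' h1 h2 h3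
    exact D.x_b _ _ ((cpn_pos D.isLaw.nonneg _ N w h1).1 i)
      ((cpn_pos D.isLaw.nonneg _ N w' h2).1 i) (congrFun h3 i)
  x_t := by
    intro w w' h1 h2 h3
    exact D.x_t _ _ ((cpn_pos D.isLaw.nonneg _ N w h1).1 i)
      ((cpn_pos D.isLaw.nonneg _ N w' h2).1 i) (congrFun h3 i)
  inf := by
    have n0 := D.isLaw.nonneg
    obtain ⟨l, hl⟩ : ∃ l : D.W → B.Λ, l = fun w => B.L (D.pr w) := ⟨_, rfl⟩
    obtain ⟨q', hq'⟩ : ∃ q', q' = cpn D.q l N := ⟨_, rfl⟩
    have m0 : ∀ w, 0 ≤ q' w := by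
      rw [hq']
      exact cpn_nonneg n0 _ N
    have hpos : ∀ w, 0 < q' w → (∀ j, 0 < D.q (w j)) ∧ ∀ j, l (w j) = l (w 0) := by
      intro w hw
      rw [hq'] at hw
      exact cpn_pos n0 l N w hw
    have hmg : ∀ j, Marg q' D.q (fun w => w j) := fun j => by
      rw [hq']
      exact cpn_marg n0 l N j
    have hbL : Det D.q l (fun w => B.b (D.pr w)) := by
      rw [hl]
      exact D.mg.det n0 hB.b_L
    have hinf := D.inf' hB
    have hD := D.inf
    rw [← hl] at hinf hD ⊢
    rw [← hq']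
    -- the entropy of all the contexts and of the line
    have h1 : H q' (fun w => (l (w i), fun j => D.x (w j))) =
        (N + 1) * H D.q (fun w => (D.x w, l w)) - N * H D.q l := by
      have h2 := H_cpn n0 l N (fun w => (D.x w, l w))
        (fun w w' _ _ e => (Prod.ext_iff.mp e).2)
      rw [← h2, ← hq']
      refine H_congr m0 ?_ ?_
      · intro w w' a b e
        refine Prod.ext ?_ (_root_.funext fun j => ?_)
        · exact (Prod.ext_iff.mp (congrFun e i)).2
        · exact (Prod.ext_iff.mp (congrFun e j)).1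
      · intro w w' a b e
        obtain ⟨e1, e2⟩ := Prod.ext_iff.mp e
        refine _root_.funext fun j => ?_
        refine Prod.ext (congrFun e2 j) ?_
        simp only
        rw [(hpos w a).2 j, (hpos w' b).2 j, ← (hpos w a).2 i, ← (hpos w' b).2 i]
        exact e1
    -- the entropy of all the contexts
    have h3 : H q' (fun w => fun j => D.x (w j)) ≤ H q' (fun w => B.b (D.pr (w i))) +
        (N + 1) * CH D.q D.x (fun w => B.b (D.pr w)) := by
      have h4 := Pool.H54.QF.CH_pi_le m0 (fun w => B.b (D.pr (w i))) (N + 1)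
        (fun w j => D.x (w j))
      have h5 : ∀ j, CH q' (fun w => D.x (w j)) (fun w => B.b (D.pr (w i))) =
          CH D.q D.x (fun w => B.b (D.pr w)) := by
        intro j
        rw [← (hmg j).CH D.x (fun w => B.b (D.pr w))]
        refine CH_congr m0 (fun _ _ _ _ e => (Prod.ext_iff.mp e).1)
          (fun _ _ _ _ e => (Prod.ext_iff.mp e).1) ?_ ?_
        · intro w w' a b e
          have e1 := hbL _ _ ((hpos w a).1 i) ((hpos w a).1 j)
            (((hpos w a).2 i).trans ((hpos w a).2 j).symm)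
          have e2 := hbL _ _ ((hpos w' b).1 i) ((hpos w' b).1 j)
            (((hpos w' b).2 i).trans ((hpos w' b).2 j).symm)
          simp only at e e1 e2 ⊢
          rw [← e1, ← e2, e]
        · intro w w' a b e
          have e1 := hbL _ _ ((hpos w a).1 i) ((hpos w a).1 j)
            (((hpos w a).2 i).trans ((hpos w a).2 j).symm)
          have e2 := hbL _ _ ((hpos w' b).1 i) ((hpos w' b).1 j)
            (((hpos w' b).2 i).trans ((hpos w' b).2 j).symm)
          simp only at e e1 e2 ⊢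
          rw [e1, e2, e]
      rw [Finset.sum_congr rfl fun j _ => h5 j, Finset.sum_const, Finset.card_univ,
        Fintype.card_fin, nsmul_eq_mul] at h4
      push_cast at h4
      have h6 : H q' (fun w => fun j => D.x (w j)) ≤
          H q' (fun w => ((fun j => D.x (w j)), B.b (D.pr (w i)))) :=
        H_mono m0 fun w w' _ _ e => (Prod.ext_iff.mp e).1
      unfold CH at h4 ⊢
      linarith
    -- the context and the line, one sample
    have h7 : H q' (fun w => (l (w i), B.b (D.pr (w i)))) = H D.q l := by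
      have : H q' (fun w => (l (w i), B.b (D.pr (w i)))) =
          H D.q (fun w => (l w, B.b (D.pr w))) := (hmg i).H (fun w => (l w, B.b (D.pr w)))
      rw [this]
      exact H_congr n0 (fun w w' a b e => Prod.ext e (hbL w w' a b e))
        (fun w w' a b e => (Prod.ext_iff.mp e).1)
    have h8 : H D.q (fun w => (D.x w, l w)) = CH D.q D.x l + H D.q l := by
      unfold CH
      ring
    have h9 : 0 ≤ (N : ℝ) + 1 := by positivity
    have h10 := mul_le_mul_of_nonneg_left hinf h9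
    have h12 : (fun w : Fin (N + 1) → D.W => B.L (D.pr (w i))) = fun w => l (w i) := by
      rw [hl]
    rw [h12]
    unfold CH
    rw [h7]
    have h11 : H q' (fun w => (l (w i), fun j => D.x (w j))) =
        (N + 1) * CH D.q D.x l + H D.q l := by
      rw [h1, h8]
      ring
    rw [h11]
    linarith

theorem Ctx.law_pt (D D' : Ctx B θ) (z : B.Ξ) :
    law D.q (fun w => B.pt (D.pr w)) z = law D'.q (fun w => B.pt (D'.pr w)) z := by
  rw [D.mg.law B.pt z, D'.mg.law B.pt z]

/-- **Two contexts over one exact point.** -/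
noncomputable def Ctx.gl (D D' : Ctx B θ) (hB : B.Ok) : Ctx B (2 * θ) where
  W := D.W × D'.W
  ft := inferInstance
  q := glue D.q D'.q (fun w => B.pt (D.pr w)) (fun w => B.pt (D'.pr w))
  isLaw := ⟨glue_nonneg D.isLaw.nonneg D'.isLaw.nonneg, by
    rw [sum_glue D.isLaw.nonneg (D.law_pt D'), D.isLaw.sum_one]⟩
  pr := fun w => D.pr w.1
  mg := (marg_fst D.isLaw.nonneg (D.law_pt D')).comp D.mg
  G := D.G × D'.G
  x := fun w => (D.x w.1, D'.x w.2)
  x_b := by
    intro w w' h1 h2 h3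
    exact D.x_b _ _ ((glue_pos_iff D.isLaw.nonneg D'.isLaw.nonneg w).1 h1).1
      ((glue_pos_iff D.isLaw.nonneg D'.isLaw.nonneg w').1 h2).1 (Prod.ext_iff.mp h3).1
  x_t := by
    intro w w' h1 h2 h3
    exact D.x_t _ _ ((glue_pos_iff D.isLaw.nonneg D'.isLaw.nonneg w).1 h1).1
      ((glue_pos_iff D.isLaw.nonneg D'.isLaw.nonneg w').1 h2).1 (Prod.ext_iff.mp h3).1
  inf := by
    have n0 := D.isLaw.nonneg
    have n1 := D'.isLaw.nonneg
    have hZ := D.law_pt D'
    obtain ⟨g, hg⟩ : ∃ g, g = glue D.q D'.q (fun w => B.pt (D.pr w))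
      (fun w => B.pt (D'.pr w)) := ⟨_, rfl⟩
    have g0 : ∀ w, 0 ≤ g w := by
      rw [hg]
      exact glue_nonneg n0 n1
    have gpos : ∀ w, 0 < g w → 0 < D.q w.1 ∧ 0 < D'.q w.2 ∧
        B.pt (D.pr w.1) = B.pt (D'.pr w.2) := by
      intro w hw
      rw [hg] at hw
      exact (glue_pos_iff n0 n1 w).1 hw
    have m1 : Marg g D.q (fun w => w.1) := by
      rw [hg]
      exact marg_fst n0 hZ
    have m2 : Marg g D'.q (fun w => w.2) := by
      rw [hg]
      exact marg_snd n1 hZ
    rw [← hg]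
    -- the point and the label
    have hpb : ∀ w, 0 < g w → B.b (D.pr w.1) = B.b (D'.pr w.2) := fun w hw =>
      hB.b_pt _ _ (D.mg.pos n0 (gpos w hw).1) (D'.mg.pos n1 (gpos w hw).2.1) (gpos w hw).2.2
    have hpt : ∀ w, 0 < g w → B.th (D.pr w.1) = B.th (D'.pr w.2) := fun w hw =>
      hB.th_pt _ _ (D.mg.pos n0 (gpos w hw).1) (D'.mg.pos n1 (gpos w hw).2.1) (gpos w hw).2.2
    have hbL' : Det D'.q (fun w => B.L (D'.pr w)) (fun w => B.b (D'.pr w)) :=
      D'.mg.det n1 hB.b_L
    -- the second context given the first context and the line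
    have a1 : CH g (fun w => D'.x w.2) (fun w => (B.L (D.pr w.1), D.x w.1)) =
        CH D'.q D'.x (fun w => B.pt (D'.pr w)) := by
      have e := CH_glue_snd (Z₁ := fun w => B.pt (D.pr w)) (Z₂ := fun w => B.pt (D'.pr w))
        n0 n1 hZ D'.x (Y := fun w => B.pt (D'.pr w)) (fun w => (B.L (D.pr w), D.x w))
        (fun _ _ _ _ e => e)
      rw [← hg] at e
      rw [← e]
      refine CH_congr g0 (fun _ _ _ _ e => (Prod.ext_iff.mp e).1)
        (fun _ _ _ _ e => (Prod.ext_iff.mp e).1) ?_ (fun _ _ _ _ e => (Prod.ext_iff.mp e).2)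
      intro w w' h1 h2 h3
      refine Prod.ext ?_ h3
      simp only
      rw [← (gpos w h1).2.2, ← (gpos w' h2).2.2]
      obtain ⟨h4, h5⟩ := Prod.ext_iff.mp h3
      exact hB.pt_L _ _ (D.mg.pos n0 (gpos w h1).1) (D.mg.pos n0 (gpos w' h2).1)
        (Prod.ext h4 (D.x_t _ _ (gpos w h1).1 (gpos w' h2).1 h5))
    -- the second context given the first context
    have a2 : CH g (fun w => D'.x w.2) (fun w => D.x w.1) ≤
        CH D'.q D'.x (fun w => (B.b (D'.pr w), B.th (D'.pr w))) := by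
      rw [← m2.CH D'.x (fun w => (B.b (D'.pr w), B.th (D'.pr w)))]
      refine CH_mono_cond g0 ?_
      intro w w' h1 h2 h3
      refine Prod.ext ?_ ?_
      · simp only
        rw [← hpb w h1, ← hpb w' h2]
        exact D.x_b _ _ (gpos w h1).1 (gpos w' h2).1 h3
      · simp only
        rw [← hpt w h1, ← hpt w' h2]
        exact D.x_t _ _ (gpos w h1).1 (gpos w' h2).1 h3
    -- the exact point has less information than the line and the time
    have a3 : CH D'.q D'.x (fun w => (B.L (D'.pr w), B.th (D'.pr w))) ≤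
        CH D'.q D'.x (fun w => B.pt (D'.pr w)) :=
      CH_mono_cond n1 (D'.mg.det n1 hB.pt_L)
    have a4 : CH D'.q (fun w => B.th (D'.pr w)) (fun w => B.L (D'.pr w)) ≤
        CH D'.q (fun w => B.th (D'.pr w)) (fun w => B.b (D'.pr w)) := CH_mono_cond n1 hbL'
    -- the second information
    have a5 : CH D'.q D'.x (fun w => (B.b (D'.pr w), B.th (D'.pr w))) -
        CH D'.q D'.x (fun w => (B.L (D'.pr w), B.th (D'.pr w))) ≤ θ := by
      have e1 := D'.inf
      have e2 : H D'.q (fun w => (D'.x w, (B.b (D'.pr w), B.th (D'.pr w)))) = H D'.q D'.x :=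
        H_congr n1 (fun w w' p1 p2 e => Prod.ext e (Prod.ext (D'.x_b w w' p1 p2 e)
          (D'.x_t w w' p1 p2 e))) (fun _ _ _ _ e => (Prod.ext_iff.mp e).1)
      have e3 : H D'.q (fun w => (D'.x w, (B.L (D'.pr w), B.th (D'.pr w)))) =
          H D'.q (fun w => (B.L (D'.pr w), D'.x w)) :=
        H_congr n1 (fun w w' p1 p2 e => by
            obtain ⟨f1, f2⟩ := Prod.ext_iff.mp e
            exact Prod.ext f2 (Prod.ext f1 (D'.x_t w w' p1 p2 f2)))
          (fun w w' p1 p2 e => by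
            obtain ⟨f1, f2⟩ := Prod.ext_iff.mp e
            exact Prod.ext (Prod.ext_iff.mp f2).1 f1)
      have e4 : H D'.q (fun w => (B.L (D'.pr w), B.b (D'.pr w))) =
          H D'.q (fun w => B.L (D'.pr w)) :=
        H_congr n1 (fun w w' p1 p2 e => Prod.ext e (hbL' w w' p1 p2 e))
          (fun _ _ _ _ e => (Prod.ext_iff.mp e).1)
      have e5 : H D'.q (fun w => (B.th (D'.pr w), B.L (D'.pr w))) =
          H D'.q (fun w => (B.L (D'.pr w), B.th (D'.pr w))) :=
        H_congr n1 (fun w w' p1 p2 e => by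
            obtain ⟨f1, f2⟩ := Prod.ext_iff.mp e
            exact Prod.ext f2 f1)
          (fun w w' p1 p2 e => by
            obtain ⟨f1, f2⟩ := Prod.ext_iff.mp e
            exact Prod.ext f2 f1)
      have e6 : H D'.q (fun w => (B.th (D'.pr w), B.b (D'.pr w))) =
          H D'.q (fun w => (B.b (D'.pr w), B.th (D'.pr w))) :=
        H_congr n1 (fun w w' p1 p2 e => by
            obtain ⟨f1, f2⟩ := Prod.ext_iff.mp e
            exact Prod.ext f2 f1)
          (fun w w' p1 p2 e => by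
            obtain ⟨f1, f2⟩ := Prod.ext_iff.mp e
            exact Prod.ext f2 f1)
      unfold CH at a4 e1 ⊢
      rw [e5, e6] at a4
      rw [e4] at e1
      rw [e2, e3]
      linarith
    -- the first information
    have a6 : CH g (fun w => B.L (D.pr w.1)) (fun w => B.b (D.pr w.1)) =
        CH D.q (fun w => B.L (D.pr w)) (fun w => B.b (D.pr w)) :=
      m1.CH (fun w => B.L (D.pr w)) (fun w => B.b (D.pr w))
    have a7 : CH g (fun w => B.L (D.pr w.1)) (fun w => D.x w.1) =
        CH D.q (fun w => B.L (D.pr w)) D.x := m1.CH (fun w => B.L (D.pr w)) D.x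
    have a8 : CH g (fun w => B.L (D.pr w.1)) (fun w => (D.x w.1, D'.x w.2)) =
        CH g (fun w => B.L (D.pr w.1)) (fun w => D.x w.1) -
          (CH g (fun w => D'.x w.2) (fun w => D.x w.1) -
            CH g (fun w => D'.x w.2) (fun w => (B.L (D.pr w.1), D.x w.1))) := by
      have c1 := CH_chain g0 (fun w => B.L (D.pr w.1)) (fun w => D'.x w.2) (fun w => D.x w.1)
      have c2 := CH_chain g0 (fun w => D'.x w.2) (fun w => B.L (D.pr w.1)) (fun w => D.x w.1)
      have c3 : CH g (fun w => (B.L (D.pr w.1), D'.x w.2)) (fun w => D.x w.1) =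
          CH g (fun w => (D'.x w.2, B.L (D.pr w.1))) (fun w => D.x w.1) :=
        Pool.MIC.CH_swl g0 (fun w => B.L (D.pr w.1)) (fun w => D'.x w.2) (fun w => D.x w.1)
      have c4 : CH g (fun w => B.L (D.pr w.1)) (fun w => (D'.x w.2, D.x w.1)) =
          CH g (fun w => B.L (D.pr w.1)) (fun w => (D.x w.1, D'.x w.2)) :=
        CH_congr g0 (fun _ _ _ _ e => (Prod.ext_iff.mp e).1)
          (fun _ _ _ _ e => (Prod.ext_iff.mp e).1)
          (fun w w' _ _ e => by
            obtain ⟨f1, f2⟩ := Prod.ext_iff.mp e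
            exact Prod.ext f2 f1)
          (fun w w' _ _ e => by
            obtain ⟨f1, f2⟩ := Prod.ext_iff.mp e
            exact Prod.ext f2 f1)
      linarith
    have h := D.inf
    rw [a8, a6, a7]
    linarith

end

end Pool.REL
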