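import Pool.Agent.H50.REL.Clo

/-!
# The relation engine

A relation in a context of little information about the line: there is a relation of minimal support,
with pivot coefficient `1`; its coefficients are not small, they are functions of the exact point and
polynomials in the time with coefficients functions of the line (on cells), with positive
probability; there is no relation with a smaller support at the next level of tolerance, of
probability and of cost.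
-/

set_option autoImplicit false

namespace Pool.REL

open Finset Polynomial
open Pool.Agent.H49.Ent Pool.Agent.H32.Dense Pool.STK Pool.BFL Pool.GLB Pool.CLU
open Pool.K2S (cpn)
open Pool.MIC30 (All)

section

variable {h m c : ℕ} {NN : Finset (Fin h →₀ ℕ)}

/-- **The relation which is found**: `s` the vector in the context, `sv` the same as a function of
the exact point, `F` the same as a polynomial in the time. -/
structure Out (a : Fin c → {γ // γ ∈ NN} → Fin m → ℝ[X]) (C₀ : ℝ) (B : Bd h m c) (Λ τ₀ : ℝ)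
    {θ : ℝ} (D : Ctx B θ) (S : Finset (Fin m)) (α₀ : Fin m) (lo hi A₂ K₂ : ℕ) (ρ : ℝ)
    (s : D.G → Fin m → ℝ) (sv : B.Ξ → Fin m → ℝ) (F : B.Λ → ℤ → Fin m → ℝ[X]) : Prop where
  piv : α₀ ∈ S
  vec : Vec S s
  vecv : Vec S sv
  deg : ∀ l z α, (F l z α).natDegree ≤ K₂
  one : ∀ l z, F l z α₀ = 1
  off : ∀ l z, ∀ α ∉ S, F l z α = 0
  pb : ρ ≤ Pb D.q (fun w => D.Gp a C₀ τ₀ (1 / Λ ^ hi) α₀ s w ∧
    (∀ β ∈ S, 1 ≤ |s (D.x w) β| * Λ ^ lo) ∧ sv (B.pt (D.pr w)) α₀ = 1 ∧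
    (∀ β, |s (D.x w) β - sv (B.pt (D.pr w)) β| * Λ ^ hi ≤ 1) ∧
    ∀ β, |s (D.x w) β - (F (B.L (D.pr w)) ⌊B.th (D.pr w) * Λ ^ A₂⌋ β).eval
      (B.th (D.pr w))| * Λ ^ hi ≤ 1)

/-- **The conclusion of the engine.** -/
def Conc (a : Fin c → {γ // γ ∈ NN} → Fin m → ℝ[X]) (C₀ : ℝ) (V : ℕ → ℕ → ℕ) (Φ : ℝ → ℝ)
    (Ψ : ℕ → ℕ) (Am κm : ℕ) (c₁ : ℝ) (B : Bd h m c) (θ Λ τ₀ : ℝ) : Prop :=
  ∃ (κ κ' lo hi A₂ K₂ : ℕ) (ρ ρ' : ℝ) (S : Finset (Fin m)) (α₀ : Fin m)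
    (D : Ctx B (κ * θ)) (s : D.G → Fin m → ℝ) (sv : B.Ξ → Fin m → ℝ)
    (F : B.Λ → ℤ → Fin m → ℝ[X]),
    κ ≤ κm ∧ κ' ≤ κm ∧ Ψ κ ≤ κ' ∧ lo ≤ Am ∧ hi ≤ Am ∧ A₂ ≤ Am ∧ K₂ ≤ Am ∧ V lo A₂ ≤ hi ∧
    c₁ ≤ ρ ∧ c₁ ≤ ρ' ∧ ρ' ≤ Φ ρ ∧ 1 ≤ lo ∧
    Out a C₀ B Λ τ₀ D S α₀ lo hi A₂ K₂ ρ s sv F ∧
    ∀ (D'' : Ctx B (κ' * θ)) (S'' : Finset (Fin m)), S'' ⊂ S →
      ¬ D''.Rel a C₀ τ₀ S'' (1 / Λ ^ (lo - 1)) ρ'

theorem Conc.mono {a : Fin c → {γ // γ ∈ NN} → Fin m → ℝ[X]} {C₀ : ℝ} {V : ℕ → ℕ → ℕ}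
    {Φ : ℝ → ℝ} {Ψ : ℕ → ℕ} {Am κm Am' κm' : ℕ} {c₁ c₁' : ℝ} {B : Bd h m c} {θ Λ τ₀ : ℝ}
    (hC : Conc a C₀ V Φ Ψ Am κm c₁ B θ Λ τ₀) (hA : Am ≤ Am') (hκ : κm ≤ κm') (hc : c₁' ≤ c₁) :
    Conc a C₀ V Φ Ψ Am' κm' c₁' B θ Λ τ₀ := by
  obtain ⟨κ, κ', lo, hi, A₂, K₂, ρ, ρ', S, α₀, D, s, sv, F, h1, h2, h3, h4, h5, h6, h7, h8, h9,
    h10, h11, h12, h13, h14⟩ := hC
  exact ⟨κ, κ', lo, hi, A₂, K₂, ρ, ρ', S, α₀, D, s, sv, F, h1.trans hκ, h2.trans hκ, h3,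
    h4.trans hA, h5.trans hA, h6.trans hA, h7.trans hA, h8, hc.trans h9, hc.trans h10, h11, h12,
    h13, h14⟩

/-- There is no relation with empty support. -/
theorem Ctx.not_rel_empty {B : Bd h m c} {θ : ℝ} (D : Ctx B θ)
    {a : Fin c → {γ // γ ∈ NN} → Fin m → ℝ[X]} {C₀ τ₀ τ ρ : ℝ} (hρ : 0 < ρ) :
    ¬ D.Rel a C₀ τ₀ ∅ τ ρ := by
  intro hR
  obtain ⟨α₀, hα, -⟩ := D.pivot a hρ hR
  exact absurd hα (Finset.notMem_empty α₀)

/-- **The relation engine.** -/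
theorem eng (h m c : ℕ) (NN : Finset (Fin h →₀ ℕ)) (a : Fin c → {γ // γ ∈ NN} → Fin m → ℝ[X])
    (C₀ : ℝ) (hC₀ : 1 ≤ C₀) (V : ℕ → ℕ → ℕ) (Φ : ℝ → ℝ) (hΦ : ∀ x, 0 < x → 0 < Φ x)
    (Ψ : ℕ → ℕ) (k : ℕ) : ∀ (κ : ℕ) (ρ : ℝ), 0 < ρ →
    ∃ (j Am κm : ℕ) (c₁ e₀ Λ₀ : ℝ), 0 < c₁ ∧ 0 < e₀ ∧ 1 ≤ Λ₀ ∧
    ∀ (B : Bd h m c) (_ : B.Ok) (θ Λ τ₀ : ℝ), 0 ≤ θ → Λ₀ ≤ Λ → τ₀ * Λ ^ Am ≤ 1 →
      P2 B.p B.L (fun ω ω' => |B.th ω - B.th ω'| * Λ < 1) ≤ e₀ →
      ∀ (D : Ctx B (κ * θ)) (S : Finset (Fin m)), S.card ≤ k →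
      D.Rel a C₀ τ₀ S (1 / Λ ^ j) ρ → Conc a C₀ V Φ Ψ Am κm c₁ B θ Λ τ₀ := by
  classical
  obtain ⟨N, hclo⟩ := clo h m c NN a C₀ hC₀
  obtain ⟨M, hM1, hM⟩ := ev_bd a hC₀
  induction k with
  | zero =>
    intro κ ρ hρ
    refine ⟨0, 0, 0, 1, 1, 1, one_pos, one_pos, le_rfl, ?_⟩
    intro B hB θ Λ τ₀ hθ hΛ hτ₀ hsep D S hS hR
    have hS0 : S = ∅ := Finset.card_eq_zero.1 (Nat.le_zero.1 hS)
    rw [hS0] at hR
    exact absurd hR (D.not_rel_empty hρ)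
  | succ k ih =>
    intro κ ρ hρ
    -- the probabilities and the costs
    have hm1 : (0 : ℝ) < m + 1 := by positivity
    obtain ⟨ρ₁, hρ₁⟩ : ∃ ρ₁ : ℝ, ρ₁ = ρ / (m + 1) := ⟨_, rfl⟩
    have hρ₁0 : 0 < ρ₁ := by
      rw [hρ₁]
      positivity
    obtain ⟨ρ₂, hρ₂⟩ : ∃ ρ₂ : ℝ, ρ₂ = ρ₁ ^ (N + 1) / 2 := ⟨_, rfl⟩
    have hρ₂0 : 0 < ρ₂ := by
      rw [hρ₂]
      positivity
    obtain ⟨ρ', hρ'⟩ : ∃ ρ' : ℝ, ρ' = min (Φ (ρ₂ / 2)) (min (ρ₁ ^ (N + 1) / 8)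
      (min (ρ₂ / (4 * (m + 1))) ((ρ₂ / 4) ^ 2))) := ⟨_, rfl⟩
    have hρ'0 : 0 < ρ' := by
      rw [hρ']
      refine lt_min (hΦ _ (by positivity)) (lt_min (by positivity) (lt_min (by positivity)
        (by positivity)))
    have hρ'a : ρ' ≤ Φ (ρ₂ / 2) := by
      rw [hρ']
      exact min_le_left _ _
    have hρ'b : ρ' ≤ ρ₁ ^ (N + 1) / 8 := by
      rw [hρ']
      exact (min_le_right _ _).trans (min_le_left _ _)
    have hρ'c : ρ' ≤ ρ₂ / (4 * (m + 1)) := by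
      rw [hρ']
      exact (min_le_right _ _).trans ((min_le_right _ _).trans (min_le_left _ _))
    have hρ'd : ρ' ≤ (ρ₂ / 4) ^ 2 := by
      rw [hρ']
      exact (min_le_right _ _).trans ((min_le_right _ _).trans (min_le_right _ _))
    obtain ⟨κ', hκ'⟩ : ∃ κ' : ℕ, κ' = Ψ κ + (N + 1) * κ + 2 * κ + κ := ⟨_, rfl⟩
    obtain ⟨j', Am', κm', c₁', e₀', Λ₀', hc₁', he₀', hΛ₀', IH⟩ := ih κ' ρ' hρ'0
    -- the exponents
    choose C A₂ hC hcl using fun (S : Finset (Fin m)) (α₀ : Fin m) => hclo S α₀ j'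
    choose A K₂ hAK using fun (S : Finset (Fin m)) (α₀ : Fin m) =>
      hcl S α₀ (V (j' + 1) (A₂ S α₀))
    obtain ⟨As, hAs⟩ : ∃ As : ℕ, As = ∑ S : Finset (Fin m), ∑ α₀ : Fin m,
      (A S α₀ + V (j' + 1) (A₂ S α₀) + A₂ S α₀ + K₂ S α₀) := ⟨_, rfl⟩
    have hAs' : ∀ S α₀, A S α₀ + V (j' + 1) (A₂ S α₀) + A₂ S α₀ + K₂ S α₀ ≤ As := by
      intro S α₀
      rw [hAs]
      refine le_trans ?_ (Finset.single_le_sum (f := fun S => ∑ α₀ : Fin m,
        (A S α₀ + V (j' + 1) (A₂ S α₀) + A₂ S α₀ + K₂ S α₀)) (fun _ _ => Nat.zero_le _)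
        (Finset.mem_univ S))
      exact Finset.single_le_sum (f := fun α₀ : Fin m =>
        (A S α₀ + V (j' + 1) (A₂ S α₀) + A₂ S α₀ + K₂ S α₀)) (fun _ _ => Nat.zero_le _)
        (Finset.mem_univ α₀)
    obtain ⟨Cs, hCs⟩ : ∃ Cs : ℝ, Cs = ∑ S : Finset (Fin m), ∑ α₀ : Fin m, C S α₀ := ⟨_, rfl⟩
    have hC0 : ∀ S α₀, 0 ≤ C S α₀ := fun S α₀ => le_trans zero_le_one (hC S α₀)
    have hCs' : ∀ S α₀, C S α₀ ≤ Cs := by
      intro S α₀
      rw [hCs]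
      refine le_trans ?_ (Finset.single_le_sum (f := fun S => ∑ α₀ : Fin m, C S α₀)
        (fun S _ => Finset.sum_nonneg fun α _ => hC0 S α) (Finset.mem_univ S))
      exact Finset.single_le_sum (f := fun α₀ : Fin m => C S α₀) (fun α _ => hC0 S α)
        (Finset.mem_univ α₀)
    have hCs0 : 0 ≤ Cs := by
      rw [hCs]
      exact Finset.sum_nonneg fun S _ => Finset.sum_nonneg fun α _ => hC0 S α
    have hM0 : 0 ≤ M := by linarith only [hM1]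
    refine ⟨As + j' + 2, Am' + As + j' + 2, κm' + κ + κ', min c₁' (min (ρ₂ / 2) ρ'),
      min e₀' (ρ₁ ^ (N + 1) / (8 * (N + 1) ^ 2)), Λ₀' + Cs + 2 * M + 2 * m + 2,
      lt_min hc₁' (lt_min (by positivity) hρ'0), lt_min he₀' (by positivity), ?_, ?_⟩
    · have : (0 : ℝ) ≤ m := by positivity
      linarith only [hM1, hΛ₀', hCs0]
    intro B hB θ Λ τ₀ hθ hΛ hτ₀ hsep D S hS hR
    have hm0 : (0 : ℝ) ≤ m := by positivity
    have hΛ1 : 1 ≤ Λ := by linarith only [hM1, hΛ₀', hCs0, hΛ]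
    have hΛ0 : 0 < Λ := by linarith only [hM1, hΛ₀', hCs0, hΛ]
    have hp1 : ∀ n : ℕ, 1 ≤ Λ ^ n := fun n => one_le_pow₀ hΛ1
    have hp0 : ∀ n : ℕ, 0 < Λ ^ n := fun n => pow_pos hΛ0 n
    by_cases hex : ∃ (D'' : Ctx B (κ' * θ)) (S'' : Finset (Fin m)), S''.card ≤ k ∧
        D''.Rel a C₀ τ₀ S'' (1 / Λ ^ j') ρ'
    · -- the smaller support
      obtain ⟨D'', S'', hS'', hR''⟩ := hex
      refine (IH B hB θ Λ τ₀ hθ (by linarith only [hM1, hCs0, hΛ]) ?_ (hsep.trans (min_le_left _ _)) D'' S'' hS''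
        hR'').mono (by omega) (by omega) (min_le_left _ _)
      rcases le_or_gt τ₀ 0 with h1 | h1
      · exact le_trans (mul_nonpos_of_nonpos_of_nonneg h1 (hp0 _).le) zero_le_one
      · refine le_trans (mul_le_mul_of_nonneg_left ?_ h1.le) hτ₀
        exact pow_le_pow_right₀ hΛ1 (by omega)
    · -- the relation of minimal support
      have hNo : ∀ (D'' : Ctx B (κ' * θ)) (S'' : Finset (Fin m)), S'' ⊂ S →
          ¬ D''.Rel a C₀ τ₀ S'' (1 / Λ ^ j') ρ' := by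
        intro D'' S'' hS'' hR''
        refine hex ⟨D'', S'', ?_, hR''⟩
        have := Finset.card_lt_card hS''
        omega
      obtain ⟨τ, hτd⟩ : ∃ τ : ℝ, τ = 1 / Λ ^ (As + j' + 2) := ⟨_, rfl⟩
      rw [← hτd] at hR
      have hτ0 : 0 < τ := by
        rw [hτd]
        exact div_pos one_pos (hp0 _)
      have hτΛ : ∀ n, n ≤ As + j' + 2 → τ * Λ ^ n ≤ 1 := by
        intro n hn
        rw [hτd, one_div, inv_mul_le_iff₀ (hp0 _), mul_one]
        exact pow_le_pow_right₀ hΛ1 hn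
      have hττ₀ : τ₀ * Λ ^ (As + j' + 2) ≤ 1 := by
        rcases le_or_gt τ₀ 0 with h1 | h1
        · exact le_trans (mul_nonpos_of_nonpos_of_nonneg h1 (hp0 _).le) zero_le_one
        · refine le_trans (mul_le_mul_of_nonneg_left ?_ h1.le) hτ₀
          exact pow_le_pow_right₀ hΛ1 (by omega)
      obtain ⟨α₀, hα₀, s, hs, hPs⟩ := D.pivot a hρ hR
      have hmpos : (0 : ℝ) < m := by
        have : 0 < m := lt_of_le_of_lt (Nat.zero_le _) α₀.2
        exact_mod_cast this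
      have hPs' : ρ₁ ≤ Pb D.q (D.Gp a C₀ τ₀ τ α₀ s) := by
        refine le_trans ?_ hPs
        rw [hρ₁]
        exact div_le_div_of_nonneg_left hρ.le hmpos (by linarith only)
      have n0 := D.isLaw.nonneg
      obtain ⟨hi, hhi⟩ : ∃ hi : ℕ, hi = V (j' + 1) (A₂ S α₀) := ⟨_, rfl⟩
      have hASα := hAs' S α₀
      rw [← hhi] at hASα
      have hCΛ : C S α₀ ≤ Λ := by
        have := hCs' S α₀
        linarith only [hM1, hΛ₀', hΛ, hmpos, this]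
      -- it is closed
      have hclose := hAK S α₀ B hB (κ * θ) D s Λ τ₀ τ ρ₁ (ρ₁ ^ (N + 1) / (8 * (N + 1) ^ 2)) hs
        hCΛ hτ0 (hτΛ _ (by omega)) hρ₁0 hPs' (hsep.trans (min_le_right _ _)) (by
          rw [mul_div_cancel₀]
          positivity)
      rw [← hhi] at hclose
      have hcase : ∃ F : B.Λ → ℤ → Fin m → ℝ[X], (∀ l z α, (F l z α).natDegree ≤ K₂ S α₀) ∧
        (∀ l z, F l z α₀ = 1) ∧ (∀ l z, ∀ α ∉ S, α ≠ α₀ → F l z α = 0) ∧
        ρ₁ ^ (N + 1) / 2 ≤ Pb D.q (fun w => D.Gp a C₀ τ₀ τ α₀ s w ∧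
          ∀ α, |s (D.x w) α - (F (B.L (D.pr w)) ⌊B.th (D.pr w) * Λ ^ A₂ S α₀⌋ α).eval
            (B.th (D.pr w))| * Λ ^ hi ≤ 1) := by
        rcases hclose with h1 | ⟨i, h1⟩
        · exact h1
        · exfalso
          have hcost : ((N : ℝ) + 1) * (κ * θ) ≤ κ' * θ := by
            rw [hκ']
            push_cast
            have e1 : (0 : ℝ) ≤ Ψ κ * θ := by positivity
            have e2 : (0 : ℝ) ≤ κ * θ := by positivity
            linarith only [e1, e2]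
          refine hNo ((D.ms hB N i).mono hcost) (S.erase α₀) (Finset.erase_ssubset hα₀) ?_
          exact Ctx.Rel.mono (Ctx.Rel.cost h1 hcost) le_rfl hρ'b
      obtain ⟨F, hF1, hF2, hF3, hF4⟩ := hcase
      -- the coefficients are not small
      have hsm : ∀ β ∈ S, β ≠ α₀ → Pb D.q (fun w => D.Gp a C₀ τ₀ τ α₀ s w ∧
          |s (D.x w) β| ≤ 1 / Λ ^ (j' + 1)) ≤ ρ' := by
        intro β hβS hβ
        have hcost : (κ : ℝ) * θ ≤ κ' * θ := by
          rw [hκ']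
          push_cast
          have e1 : (0 : ℝ) ≤ Ψ κ * θ := by positivity
          have e2 : (0 : ℝ) ≤ κ * θ := by positivity
          have e3 : (0 : ℝ) ≤ N * (κ * θ) := by positivity
          linarith only [e1, e2, e3]
        refine (D.small (a := a) (C₀ := C₀) (τ₀ := τ₀) (τ := τ) (τ' := 1 / Λ ^ j') (ρ' := ρ')
          (M := M) (δ := 1 / Λ ^ (j' + 1)) (S := S) hβ
          (fun ω hω α l => hM _ _ hω.2.1 hω.1 α l) ?_ hs ?_).le
        · intro h1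
          exact hNo (D.mono hcost) (S.erase β) (Finset.erase_ssubset hβS)
            (Ctx.Rel.cost h1 hcost)
        · have e1 : τ ≤ 1 / Λ ^ (j' + 1) := by
            rw [le_div_iff₀ (hp0 _)]
            exact hτΛ _ (by omega)
          have e2 : 1 / Λ ^ (j' + 1) * (1 + M) ≤ 1 / Λ ^ j' := by
            rw [pow_succ, div_mul_eq_mul_div, one_mul, div_le_div_iff₀ (by positivity) (hp0 _),
              one_mul, mul_comm]
            exact mul_le_mul_of_nonneg_left (by linarith only [hM1, hΛ₀', hCs0, hΛ, hmpos]) (hp0 _).le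
          linarith only [e1, e2]
      -- it is visible
      have hvis : ∃ sv : B.Ξ → Fin m → ℝ, Vec S sv ∧
          Pb D.q (fun w => D.Gp a C₀ τ₀ τ α₀ s w ∧
            ¬ (sv (B.pt (D.pr w)) α₀ = 1 ∧
              ∀ β, |s (D.x w) β - sv (B.pt (D.pr w)) β| ≤ 1 / Λ ^ hi)) ≤ Real.sqrt ρ' := by
        have hcost : 2 * ((κ : ℝ) * θ) ≤ κ' * θ := by
          rw [hκ']
          push_cast
          have e1 : (0 : ℝ) ≤ Ψ κ * θ := by positivity
          have e2 : (0 : ℝ) ≤ κ * θ := by positivity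
          have e3 : (0 : ℝ) ≤ N * (κ * θ) := by positivity
          linarith only [e1, e2, e3]
        refine D.vis hB (τ' := 1 / Λ ^ j') (ρ' := ρ') ?_ hs (div_pos one_pos (hp0 _)) ?_
        · intro h1
          exact hNo ((D.gl D hB).mono hcost) (S.erase α₀) (Finset.erase_ssubset hα₀)
            (Ctx.Rel.cost h1 hcost)
        · have e1 : τ ≤ 1 / Λ ^ (hi + j' + 1) := by
            rw [le_div_iff₀ (hp0 _)]
            exact hτΛ _ (by omega)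
          have e2 : τ₀ ≤ 1 / Λ ^ (hi + j' + 1) := by
            have e3 : τ₀ ≤ τ := by
              rw [hτd, le_div_iff₀ (hp0 _)]
              exact hττ₀
            exact e3.trans e1
          have e3 : 1 / Λ ^ (hi + j' + 1) * (2 + 2 * m) ≤ 1 / Λ ^ hi * (1 / Λ ^ j') := by
            have e5 : 1 / Λ ^ hi * (1 / Λ ^ j') = 1 / Λ ^ (hi + j' + 1) * Λ := by
              rw [pow_succ, pow_add]
              field_simp
            rw [e5]
            exact mul_le_mul_of_nonneg_left (by linarith only [hM1, hΛ₀', hCs0, hΛ]) (div_pos one_pos (hp0 _)).le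
          have e4 : 2 * m * τ₀ ≤ 2 * m * (1 / Λ ^ (hi + j' + 1)) :=
            mul_le_mul_of_nonneg_left e2 (by positivity)
          linarith only [e1, e3, e4]
      obtain ⟨sv, hsv, hPv⟩ := hvis
      obtain ⟨Fin', hFin⟩ : ∃ Fin' : D.W → Prop, Fin' = fun w =>
        D.Gp a C₀ τ₀ (1 / Λ ^ hi) α₀ s w ∧
        (∀ β ∈ S, 1 ≤ |s (D.x w) β| * Λ ^ (j' + 1)) ∧ sv (B.pt (D.pr w)) α₀ = 1 ∧
        (∀ β, |s (D.x w) β - sv (B.pt (D.pr w)) β| * Λ ^ hi ≤ 1) ∧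
        ∀ β, |s (D.x w) β - (F (B.L (D.pr w)) ⌊B.th (D.pr w) * Λ ^ A₂ S α₀⌋ β).eval
          (B.th (D.pr w))| * Λ ^ hi ≤ 1 := ⟨_, rfl⟩
      obtain ⟨Sm, hSm⟩ : ∃ Sm : Fin m → D.W → Prop, Sm = fun β w => β ∈ S ∧ β ≠ α₀ ∧
        D.Gp a C₀ τ₀ τ α₀ s w ∧ |s (D.x w) β| ≤ 1 / Λ ^ (j' + 1) := ⟨_, rfl⟩
      obtain ⟨Nv, hNv⟩ : ∃ Nv : D.W → Prop, Nv = fun w => D.Gp a C₀ τ₀ τ α₀ s w ∧
            ¬ (sv (B.pt (D.pr w)) α₀ = 1 ∧
              ∀ β, |s (D.x w) β - sv (B.pt (D.pr w)) β| ≤ 1 / Λ ^ hi) := ⟨_, rfl⟩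
      have hSmP : Pb D.q (fun w => ∃ β, Sm β w) ≤ ρ₂ / 4 := by
        refine (Pool.MIC.Pb_exists_le n0 Sm).trans ?_
        have e1 : ∀ β ∈ (univ : Finset (Fin m)), Pb D.q (Sm β) ≤ ρ' := by
          intro β _
          by_cases hβ : β ∈ S ∧ β ≠ α₀
          · refine le_trans ?_ (hsm β hβ.1 hβ.2)
            refine Pool.MIC.Pb_le_of_imp n0 fun w _ hw => ?_
            rw [hSm] at hw
            exact hw.2.2
          · refine le_trans (le_of_eq ?_) hρ'0.le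
            unfold Pb
            refine Finset.sum_eq_zero fun w _ => ?_
            rw [if_neg]
            rw [hSm]
            exact fun hh => hβ ⟨hh.1, hh.2.1⟩
        refine (Finset.sum_le_sum e1).trans ?_
        rw [Finset.sum_const, Finset.card_univ, Fintype.card_fin, nsmul_eq_mul]
        have e2 : ρ' * (4 * (m + 1)) ≤ ρ₂ := by
          rwa [le_div_iff₀ (by positivity)] at hρ'c
        have e3 : 0 ≤ ρ' := hρ'0.le
        linarith only [hρ'0, e2]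
      have hNvP : Pb D.q Nv ≤ ρ₂ / 4 := by
        rw [hNv]
        refine hPv.trans ?_
        exact (Real.sqrt_le_sqrt hρ'd).trans_eq (Real.sqrt_sq (by positivity))
      have hτhi : τ ≤ 1 / Λ ^ hi := by
        rw [le_div_iff₀ (hp0 _)]
        exact hτΛ _ (by omega)
      have hmain : ρ₂ / 2 ≤ Pb D.q Fin' := by
        have e1 : ρ₂ ≤ Pb D.q (fun w => Fin' w ∨ ((∃ β, Sm β w) ∨ Nv w)) := by
          rw [hρ₂]
          refine hF4.trans (Pool.MIC.Pb_le_of_imp n0 fun w _ hw => ?_)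
          obtain ⟨g1, g2⟩ := hw
          by_cases h1 : ∃ β, Sm β w
          · exact Or.inr (Or.inl h1)
          by_cases h2 : Nv w
          · exact Or.inr (Or.inr h2)
          left
          rw [hNv] at h2
          push Not at h2
          obtain ⟨h3, h4⟩ := h2 g1
          rw [hFin]
          refine ⟨⟨g1.1, g1.2.1, fun l => (g1.2.2 l).trans hτhi⟩, fun β hβ => ?_, h3,
            fun β => ?_, g2⟩
          · by_cases h5 : β = α₀
            · rw [h5, g1.2.1, abs_one, one_mul]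
              exact hp1 _
            · by_contra h6
              push Not at h6
              refine h1 ⟨β, ?_⟩
              rw [hSm]
              refine ⟨hβ, h5, g1, ?_⟩
              rw [le_div_iff₀ (hp0 _)]
              exact h6.le
          · have h5 := h4 β
            rwa [le_div_iff₀ (hp0 _)] at h5
        have e2 := Pool.GLB.Pb_two n0 Fin' (fun w => (∃ β, Sm β w) ∨ Nv w)
        have e3 := Pool.GLB.Pb_two n0 (fun w => ∃ β, Sm β w) Nv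
        linarith only [hSmP, hNvP, e1, e2, e3]
      refine ⟨κ, κ', j' + 1, hi, A₂ S α₀, K₂ S α₀, ρ₂ / 2, ρ', S, α₀, D, s, sv, F, by omega,
        by omega, by omega, by omega, by omega, by omega, by omega, hhi.ge, ?_, ?_, hρ'a,
        by omega, ⟨hα₀, hs, hsv, hF1, hF2, ?_, ?_⟩, ?_⟩
      · exact (min_le_right _ _).trans (min_le_left _ _)
      · exact (min_le_right _ _).trans (min_le_right _ _)
      · intro l z α hα
        exact hF3 l z α hα fun h1 => hα (h1 ▸ hα₀)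
      · rw [hFin] at hmain
        exact hmain
      · intro D'' S'' hS''
        rw [Nat.add_sub_cancel]
        exact hNo D'' S'' hS''

end

end Pool.REL
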