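import Pool.Agent.H50.REL.CloN

/-!
# The relation engine with a designated pivot

A relation with the coefficient `1` at `α₀` in a context of little information about the line: there
is one of minimal support; its coefficients are not small, they are functions of the exact point and
polynomials in the time with coefficients functions of the line (on cells), with positive
probability; there is no relation for `α₀` with a smaller support at the next level.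
-/

set_option autoImplicit false

namespace Pool.REL

open Finset Polynomial
open Pool.Agent.H49.Ent Pool.Agent.H32.Dense Pool.STK Pool.BFL Pool.GLB Pool.CLU
open Pool.K2S (cpn)
open Pool.MIC30 (All)

section

variable {h m c : ℕ} {NN : Finset (Fin h →₀ ℕ)}

/-- **The relation which is found**: `s` the vector in the context, `sv` the same as a function of
the exact point, `F` the same as a polynomial in the time. -/
structure OutN (a : Fin c → {γ // γ ∈ NN} → Fin m → ℝ[X]) (C₀ : ℝ) (B : Bd h m c) (Λ τ₀ : ℝ)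
    {θ : ℝ} (D : Ctx B θ) (S : Finset (Fin m)) (α₀ : Fin m) (R : ℝ) (lo hi A₂ K₂ : ℕ) (ρ : ℝ)
    (s : D.G → Fin m → ℝ) (sv : B.Ξ → Fin m → ℝ) (F : B.Λ → ℤ → Fin m → ℝ[X]) : Prop where
  piv : α₀ ∈ S
  vec : VecR R S s
  vecv : VecR R S sv
  deg : ∀ l z α, (F l z α).natDegree ≤ K₂
  one : ∀ l z, F l z α₀ = 1
  off : ∀ l z, ∀ α ∉ S, F l z α = 0
  pb : ρ ≤ Pb D.q (fun w => D.Gp a C₀ τ₀ (1 / Λ ^ hi) α₀ s w ∧
    (∀ β ∈ S, 1 ≤ |s (D.x w) β| * Λ ^ lo) ∧ sv (B.pt (D.pr w)) α₀ = 1 ∧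
    (∀ β, |s (D.x w) β - sv (B.pt (D.pr w)) β| * Λ ^ hi ≤ 1) ∧
    ∀ β, |s (D.x w) β - (F (B.L (D.pr w)) ⌊B.th (D.pr w) * Λ ^ A₂⌋ β).eval
      (B.th (D.pr w))| * Λ ^ hi ≤ 1)

/-- **The conclusion of the engine.** -/
def ConcN (a : Fin c → {γ // γ ∈ NN} → Fin m → ℝ[X]) (C₀ : ℝ) (α₀ : Fin m) (V : ℕ → ℕ → ℕ)
    (Φ : ℝ → ℝ) (Ψ : ℕ → ℕ) (b₀ Am κm : ℕ) (c₁ : ℝ) (B : Bd h m c) (θ Λ τ₀ : ℝ) : Prop :=
  ∃ (κ κ' b lo hi A₂ K₂ : ℕ) (ρ ρ' : ℝ) (S : Finset (Fin m))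
    (D : Ctx B (κ * θ)) (s : D.G → Fin m → ℝ) (sv : B.Ξ → Fin m → ℝ)
    (F : B.Λ → ℤ → Fin m → ℝ[X]),
    κ ≤ κm ∧ κ' ≤ κm ∧ Ψ κ ≤ κ' ∧ lo ≤ Am ∧ hi ≤ Am ∧ A₂ ≤ Am ∧ K₂ ≤ Am ∧ V lo A₂ ≤ hi ∧
    c₁ ≤ ρ ∧ c₁ ≤ ρ' ∧ ρ' ≤ Φ ρ ∧ 1 ≤ lo ∧ b ≤ b₀ ∧
    OutN a C₀ B Λ τ₀ D S α₀ (Λ ^ b) lo hi A₂ K₂ ρ s sv F ∧
    ∀ (D'' : Ctx B (κ' * θ)) (S'' : Finset (Fin m)), S'' ⊂ S →
      ¬ D''.RelN a C₀ τ₀ α₀ S'' (Λ ^ (b + 1)) (1 / Λ ^ (lo - 1)) ρ'

theorem ConcN.mono {a : Fin c → {γ // γ ∈ NN} → Fin m → ℝ[X]} {C₀ : ℝ} {α₀ : Fin m}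
    {V : ℕ → ℕ → ℕ} {Φ : ℝ → ℝ} {Ψ : ℕ → ℕ} {b₀ b₀' Am κm Am' κm' : ℕ} {c₁ c₁' : ℝ}
    {B : Bd h m c} {θ Λ τ₀ : ℝ}
    (hC : ConcN a C₀ α₀ V Φ Ψ b₀ Am κm c₁ B θ Λ τ₀) (hb : b₀ ≤ b₀') (hA : Am ≤ Am')
    (hκ : κm ≤ κm') (hc : c₁' ≤ c₁) :
    ConcN a C₀ α₀ V Φ Ψ b₀' Am' κm' c₁' B θ Λ τ₀ := by
  obtain ⟨κ, κ', b, lo, hi, A₂, K₂, ρ, ρ', S, D, s, sv, F, h1, h2, h3, h4, h5, h6, h7, h8,
    h9, h10, h11, h12, h13, h14, h15⟩ := hC
  exact ⟨κ, κ', b, lo, hi, A₂, K₂, ρ, ρ', S, D, s, sv, F, h1.trans hκ, h2.trans hκ, h3,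
    h4.trans hA, h5.trans hA, h6.trans hA, h7.trans hA, h8, hc.trans h9, hc.trans h10, h11, h12,
    h13.trans hb, h14, h15⟩

/-- **The relation engine with a designated pivot.** -/
theorem engN (h m c : ℕ) (NN : Finset (Fin h →₀ ℕ)) (a : Fin c → {γ // γ ∈ NN} → Fin m → ℝ[X])
    (C₀ : ℝ) (hC₀ : 1 ≤ C₀) (α₀ : Fin m) (V : ℕ → ℕ → ℕ) (Φ : ℝ → ℝ)
    (hΦ : ∀ x, 0 < x → 0 < Φ x) (Ψ : ℕ → ℕ) (k : ℕ) : ∀ (κ b : ℕ) (ρ : ℝ), 0 < ρ →
    ∃ (j Am κm : ℕ) (c₁ e₀ Λ₀ : ℝ), 0 < c₁ ∧ 0 < e₀ ∧ 1 ≤ Λ₀ ∧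
    ∀ (B : Bd h m c) (_ : B.Ok) (θ Λ τ₀ : ℝ), 0 ≤ θ → Λ₀ ≤ Λ → τ₀ * Λ ^ Am ≤ 1 →
      P2 B.p B.L (fun ω ω' => |B.th ω - B.th ω'| * Λ < 1) ≤ e₀ →
      ∀ (D : Ctx B (κ * θ)) (S : Finset (Fin m)), S.card ≤ k →
      D.RelN a C₀ τ₀ α₀ S (Λ ^ b) (1 / Λ ^ j) ρ →
      ConcN a C₀ α₀ V Φ Ψ (b + k) Am κm c₁ B θ Λ τ₀ := by
  classical
  obtain ⟨N, hclo⟩ := cloN h m c NN a C₀ hC₀
  obtain ⟨M, hM1, hM⟩ := ev_bd a hC₀
  induction k with
  | zero =>
    intro κ b ρ hρ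
    refine ⟨0, 0, 0, 1, 1, 1, one_pos, one_pos, le_rfl, ?_⟩
    intro B hB θ Λ τ₀ hθ hΛ hτ₀ hsep D S hS hR
    have hS0 : S = ∅ := Finset.card_eq_zero.1 (Nat.le_zero.1 hS)
    have hmem := hR.mem hρ
    rw [hS0] at hmem
    exact absurd hmem (Finset.notMem_empty α₀)
  | succ k ih =>
    intro κ b ρ hρ
    -- the probabilities and the costs
    have hm1 : (0 : ℝ) < m + 1 := by positivity
    have hm0 : (0 : ℝ) ≤ m := by positivity
    obtain ⟨ρ₂, hρ₂⟩ : ∃ ρ₂ : ℝ, ρ₂ = ρ ^ (N + 1) / 2 := ⟨_, rfl⟩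
    have hρ₂0 : 0 < ρ₂ := by
      rw [hρ₂]
      positivity
    obtain ⟨ρ', hρ'⟩ : ∃ ρ' : ℝ, ρ' = min (Φ (ρ₂ / 2)) (min (ρ ^ (N + 1) / (8 * (m + 1)))
      (min (ρ₂ / (4 * (m + 1))) ((ρ₂ / 4) ^ 2 / (m + 1)))) := ⟨_, rfl⟩
    have hρ'0 : 0 < ρ' := by
      rw [hρ']
      refine lt_min (hΦ _ (by positivity)) (lt_min (by positivity) (lt_min (by positivity)
        (by positivity)))
    have hρ'a : ρ' ≤ Φ (ρ₂ / 2) := by
      rw [hρ']
      exact min_le_left _ _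
    have hρ'b : ρ' * (8 * (m + 1)) ≤ ρ ^ (N + 1) := by
      rw [← le_div_iff₀ (by positivity), hρ']
      exact (min_le_right _ _).trans (min_le_left _ _)
    have hρ'c : ρ' * (4 * (m + 1)) ≤ ρ₂ := by
      rw [← le_div_iff₀ (by positivity), hρ']
      exact (min_le_right _ _).trans ((min_le_right _ _).trans (min_le_left _ _))
    have hρ'd : ρ' * (m + 1) ≤ (ρ₂ / 4) ^ 2 := by
      rw [← le_div_iff₀ (by positivity), hρ']
      exact (min_le_right _ _).trans ((min_le_right _ _).trans (min_le_right _ _))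
    obtain ⟨κ', hκ'⟩ : ∃ κ' : ℕ, κ' = Ψ κ + (N + 1) * κ + 2 * κ + κ := ⟨_, rfl⟩
    obtain ⟨j', Am', κm', c₁', e₀', Λ₀', hc₁', he₀', hΛ₀', IH⟩ := ih κ' (b + 1) ρ' hρ'0
    -- the exponents
    choose C A₂ hC hcl using fun (S : Finset (Fin m)) => hclo S α₀ (j' + 1)
    choose A K₂ hAK using fun (S : Finset (Fin m)) =>
      hcl S (V (j' + 1) ((b + 1) * A₂ S))
    obtain ⟨As, hAs⟩ : ∃ As : ℕ, As = ∑ S : Finset (Fin m),
      ((b + 1) * A S + V (j' + 1) ((b + 1) * A₂ S) + (b + 1) * A₂ S + K₂ S) := ⟨_, rfl⟩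
    have hAs' : ∀ S, (b + 1) * A S + V (j' + 1) ((b + 1) * A₂ S) + (b + 1) * A₂ S + K₂ S ≤
        As := by
      intro S
      rw [hAs]
      exact Finset.single_le_sum (f := fun S : Finset (Fin m) =>
        ((b + 1) * A S + V (j' + 1) ((b + 1) * A₂ S) + (b + 1) * A₂ S + K₂ S))
        (fun _ _ => Nat.zero_le _) (Finset.mem_univ S)
    obtain ⟨Cs, hCs⟩ : ∃ Cs : ℝ, Cs = ∑ S : Finset (Fin m), C S := ⟨_, rfl⟩
    have hC0 : ∀ S, 0 ≤ C S := fun S => le_trans zero_le_one (hC S)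
    have hCs' : ∀ S, C S ≤ Cs := by
      intro S
      rw [hCs]
      exact Finset.single_le_sum (f := fun S : Finset (Fin m) => C S) (fun S _ => hC0 S)
        (Finset.mem_univ S)
    have hCs0 : 0 ≤ Cs := by
      rw [hCs]
      exact Finset.sum_nonneg fun S _ => hC0 S
    have hM0 : 0 ≤ M := by linarith only [hM1]
    refine ⟨As + j' + 2 * b + 2, Am' + As + j' + 2 * b + 2, κm' + κ + κ',
      min c₁' (min (ρ₂ / 2) ρ'),
      min e₀' (ρ ^ (N + 1) / (8 * (N + 1) ^ 2)), Λ₀' + Cs + 2 * M + 2 * m + 4,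
      lt_min hc₁' (lt_min (by positivity) hρ'0), lt_min he₀' (by positivity), ?_, ?_⟩
    · linarith only [hM1, hΛ₀', hCs0]
    intro B hB θ Λ τ₀ hθ hΛ hτ₀ hsep D S hS hR
    have hΛ1 : 1 ≤ Λ := by linarith only [hM1, hΛ₀', hCs0, hΛ]
    have hΛ2 : 2 ≤ Λ := by linarith only [hM1, hΛ₀', hCs0, hΛ]
    have hΛ0 : 0 < Λ := by linarith only [hM1, hΛ₀', hCs0, hΛ]
    have hp1 : ∀ n : ℕ, 1 ≤ Λ ^ n := fun n => one_le_pow₀ hΛ1
    have hp0 : ∀ n : ℕ, 0 < Λ ^ n := fun n => pow_pos hΛ0 n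
    by_cases hex : ∃ (D'' : Ctx B (κ' * θ)) (S'' : Finset (Fin m)), S''.card ≤ k ∧
        D''.RelN a C₀ τ₀ α₀ S'' (Λ ^ (b + 1)) (1 / Λ ^ j') ρ'
    · -- the smaller support
      obtain ⟨D'', S'', hS'', hR''⟩ := hex
      refine (IH B hB θ Λ τ₀ hθ (by linarith only [hM1, hCs0, hΛ]) ?_ (hsep.trans (min_le_left _ _)) D'' S'' hS''
        hR'').mono (by omega) (by omega) (by omega) (min_le_left _ _)
      rcases le_or_gt τ₀ 0 with h1 | h1
      · exact le_trans (mul_nonpos_of_nonpos_of_nonneg h1 (hp0 _).le) zero_le_one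
      · refine le_trans (mul_le_mul_of_nonneg_left ?_ h1.le) hτ₀
        exact pow_le_pow_right₀ hΛ1 (by omega)
    · -- the relation of minimal support
      have hNo : ∀ (D'' : Ctx B (κ' * θ)) (S'' : Finset (Fin m)), S'' ⊂ S →
          ¬ D''.RelN a C₀ τ₀ α₀ S'' (Λ ^ (b + 1)) (1 / Λ ^ j') ρ' := by
        intro D'' S'' hS'' hR''
        refine hex ⟨D'', S'', ?_, hR''⟩
        have := Finset.card_lt_card hS''
        omega
      obtain ⟨τ, hτd⟩ : ∃ τ : ℝ, τ = 1 / Λ ^ (As + j' + 2 * b + 2) := ⟨_, rfl⟩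
      rw [← hτd] at hR
      have hτ0 : 0 < τ := by
        rw [hτd]
        exact div_pos one_pos (hp0 _)
      have hτΛ : ∀ n, n ≤ As + j' + 2 * b + 2 → τ * Λ ^ n ≤ 1 := by
        intro n hn
        rw [hτd, one_div, inv_mul_le_iff₀ (hp0 _), mul_one]
        exact pow_le_pow_right₀ hΛ1 hn
      have hττ₀ : τ₀ ≤ τ := by
        rw [hτd, le_div_iff₀ (hp0 _)]
        rcases le_or_gt τ₀ 0 with h1 | h1
        · exact le_trans (mul_nonpos_of_nonpos_of_nonneg h1 (hp0 _).le) zero_le_one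
        · refine le_trans (mul_le_mul_of_nonneg_left ?_ h1.le) hτ₀
          exact pow_le_pow_right₀ hΛ1 (by omega)
      have hα₀ : α₀ ∈ S := hR.mem hρ
      obtain ⟨s, hs, hPs⟩ := hR
      have n0 := D.isLaw.nonneg
      obtain ⟨hi, hhi⟩ : ∃ hi : ℕ, hi = V (j' + 1) ((b + 1) * A₂ S) := ⟨_, rfl⟩
      have hASα := hAs' S
      rw [← hhi] at hASα
      -- the parameter of the elimination
      obtain ⟨G, hG⟩ : ∃ G : ℝ, G = Λ ^ (b + 1) := ⟨_, rfl⟩
      have hGΛ : Λ ≤ G := by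
        rw [hG]
        calc Λ = Λ ^ 1 := (pow_one _).symm
          _ ≤ Λ ^ (b + 1) := pow_le_pow_right₀ hΛ1 (by omega)
      have hG0 : 0 < G := by linarith only [hM1, hΛ₀', hCs0, hΛ, hGΛ]
      have hGb : Λ ^ b ≤ G := by
        rw [hG]
        exact pow_le_pow_right₀ hΛ1 (by omega)
      have hCΛ : C S ≤ G := by
        have := hCs' S
        linarith only [hM1, hΛ₀', hΛ, hGΛ, this]
      have hsG : VecR G S s := ⟨fun y α => (hs.1 y α).trans hGb, hs.2⟩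
      have hsepG : P2 B.p B.L (fun ω ω' => |B.th ω - B.th ω'| * G < 1) ≤
          ρ ^ (N + 1) / (8 * (N + 1) ^ 2) := by
        refine le_trans ?_ (hsep.trans (min_le_right _ _))
        unfold P2
        refine Finset.sum_le_sum fun ω _ => Finset.sum_le_sum fun ω' _ => ?_
        have hnn : 0 ≤ B.p ω * B.p ω' / law B.p B.L (B.L ω) :=
          div_nonneg (mul_nonneg (hB.isLaw.nonneg _) (hB.isLaw.nonneg _))
            (law_nonneg hB.isLaw.nonneg _ _)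
        by_cases h1 : B.L ω = B.L ω' ∧ |B.th ω - B.th ω'| * G < 1
        · rw [if_pos h1, if_pos ⟨h1.1, lt_of_le_of_lt
            (mul_le_mul_of_nonneg_left hGΛ (abs_nonneg _)) h1.2⟩]
        · rw [if_neg h1]
          split_ifs
          · exact hnn
          · exact le_rfl
      -- it is closed
      have hclose := hAK S B hB (κ * θ) D s G τ₀ τ ρ (ρ ^ (N + 1) / (8 * (N + 1) ^ 2)) hsG
        hCΛ hτ0 (by
          rw [hG, ← pow_mul]
          exact hτΛ _ (by omega)) hρ hPs hsepG (by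
          rw [mul_div_cancel₀]
          positivity)
      rw [← hhi] at hclose
      have hcase : ∃ F : B.Λ → ℤ → Fin m → ℝ[X], (∀ l z α, (F l z α).natDegree ≤ K₂ S) ∧
        (∀ l z, F l z α₀ = 1) ∧ (∀ l z, ∀ α ∉ S, α ≠ α₀ → F l z α = 0) ∧
        ρ ^ (N + 1) / 2 ≤ Pb D.q (fun w => D.Gp a C₀ τ₀ τ α₀ s w ∧
          ∀ α, |s (D.x w) α - (F (B.L (D.pr w)) ⌊B.th (D.pr w) * Λ ^ ((b + 1) * A₂ S)⌋
            α).eval (B.th (D.pr w))| * Λ ^ hi ≤ 1) := by
        rcases hclose with ⟨F, h1, h2, h3, h4⟩ | ⟨i, d, hd, h1⟩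
        · refine ⟨F, h1, h2, h3, h4.trans (Pool.MIC.Pb_le_of_imp n0 fun w _ hw =>
            ⟨hw.1, fun α => ?_⟩)⟩
          have h5 := hw.2 α
          rw [hG, ← pow_mul, ← hG] at h5
          exact le_trans (mul_le_mul_of_nonneg_left (pow_le_pow_left₀ hΛ0.le hGΛ hi)
            (abs_nonneg _)) h5
        · exfalso
          have hcost : ((N : ℝ) + 1) * (κ * θ) ≤ κ' * θ := by
            rw [hκ']
            push_cast
            have e1 : (0 : ℝ) ≤ Ψ κ * θ := by positivity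
            have e2 : (0 : ℝ) ≤ κ * θ := by positivity
            linarith only [e1, e2]
          have h2 := (D.ms hB N i).absorb (a := a) (C₀ := C₀) (τ₀ := τ₀) (R := Λ ^ b)
            (R' := Λ ^ (b + 1)) (τ' := 1 / Λ ^ j') (ρ' := ρ') (S := S) (α₀ := α₀)
            (fun β hβ _ hrel => hNo ((D.ms hB N i).mono hcost) (S.erase β)
              (Finset.erase_ssubset hβ) (hrel.cost hcost))
            (s := fun y => s (y i)) (d := d) ⟨fun y α => hs.1 _ _, fun y α hα => hs.2 _ _ hα⟩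
            hd (τ₁ := τ) (τ₂ := 1 / G ^ (j' + 1)) hρ'0.le (by
              rw [pow_succ, mul_comm]
              exact mul_le_mul_of_nonneg_left hΛ2 (hp0 _).le) (by
              have e1 : τ ≤ 1 / Λ ^ (j' + 1) := by
                rw [le_div_iff₀ (hp0 _)]
                exact hτΛ _ (by omega)
              have e2 : Λ ^ b * (1 / G ^ (j' + 1)) ≤ 1 / Λ ^ (j' + 1) := by
                rw [mul_one_div, div_le_div_iff₀ (pow_pos hG0 _) (hp0 _), one_mul, hG, ← pow_mul,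
                  ← pow_add]
                refine pow_le_pow_right₀ hΛ1 ?_
                rw [add_mul, one_mul, mul_add, mul_one]
                omega
              have e3 : 1 / Λ ^ (j' + 1) * 2 ≤ 1 / Λ ^ j' := by
                rw [pow_succ, div_mul_eq_mul_div, one_mul, div_le_div_iff₀ (by positivity)
                  (hp0 _), one_mul, mul_comm]
                exact mul_le_mul_of_nonneg_left hΛ2 (hp0 _).le
              linarith only [e1, e2, e3])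
          have h3 := h1.trans h2
          have h4 : (m : ℝ) * ρ' < ρ ^ (N + 1) / 8 := by
            linarith only [hB, hρ'0, hρ'b, h1, h2]
          linarith only [hB, hρ'0, hρ'b, h1, h2]
      obtain ⟨F, hF1, hF2, hF3, hF4⟩ := hcase
      have hcost1 : (κ : ℝ) * θ ≤ κ' * θ := by
        rw [hκ']
        push_cast
        have e1 : (0 : ℝ) ≤ Ψ κ * θ := by positivity
        have e2 : (0 : ℝ) ≤ κ * θ := by positivity
        have e3 : (0 : ℝ) ≤ N * (κ * θ) := by positivity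
        linarith only [e1, e2, e3]
      have hbb : Λ ^ b ≤ Λ ^ (b + 1) := pow_le_pow_right₀ hΛ1 (by omega)
      have h2b : 2 * Λ ^ b ≤ Λ ^ (b + 1) := by
        rw [pow_succ, mul_comm]
        exact mul_le_mul_of_nonneg_left hΛ2 (hp0 _).le
      -- the coefficients are not small
      have hsm : ∀ β ∈ S, β ≠ α₀ → Pb D.q (fun w => D.Gp a C₀ τ₀ τ α₀ s w ∧
          |s (D.x w) β| ≤ 1 / Λ ^ (j' + 1)) ≤ ρ' := by
        intro β hβS hβ
        refine (D.smallN (a := a) (C₀ := C₀) (τ₀ := τ₀) (τ := τ) (τ' := 1 / Λ ^ j') (ρ' := ρ')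
          (M := M) (δ := 1 / Λ ^ (j' + 1)) (S := S) (R := Λ ^ b) hβ
          (fun ω hω α l => hM _ _ hω.2.1 hω.1 α l) ?_ hs ?_).le
        · intro h1
          exact hNo (D.mono hcost1) (S.erase β) (Finset.erase_ssubset hβS)
            ((h1.mono hbb le_rfl le_rfl).cost hcost1)
        · have e1 : τ ≤ 1 / Λ ^ (j' + 1) := by
            rw [le_div_iff₀ (hp0 _)]
            exact hτΛ _ (by omega)
          have e2 : 1 / Λ ^ (j' + 1) * (1 + M) ≤ 1 / Λ ^ j' := by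
            rw [pow_succ, div_mul_eq_mul_div, one_mul, div_le_div_iff₀ (by positivity) (hp0 _),
              one_mul, mul_comm]
            exact mul_le_mul_of_nonneg_left (by linarith only [hM1, hΛ₀', hCs0, hΛ]) (hp0 _).le
          linarith only [e1, e2]
      -- it is visible
      have hvis : ∃ sv : B.Ξ → Fin m → ℝ, VecR (Λ ^ b) S sv ∧
          Pb D.q (fun w => D.Gp a C₀ τ₀ τ α₀ s w ∧
            ¬ (sv (B.pt (D.pr w)) α₀ = 1 ∧
              ∀ β, |s (D.x w) β - sv (B.pt (D.pr w)) β| ≤ 1 / Λ ^ hi)) ≤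
            Real.sqrt (m * ρ') := by
        have hcost : 2 * ((κ : ℝ) * θ) ≤ κ' * θ := by
          rw [hκ']
          push_cast
          have e1 : (0 : ℝ) ≤ Ψ κ * θ := by positivity
          have e2 : (0 : ℝ) ≤ κ * θ := by positivity
          have e3 : (0 : ℝ) ≤ N * (κ * θ) := by positivity
          linarith only [e1, e2, e3]
        refine D.visN hB (τ' := 1 / Λ ^ j') (ρ' := ρ') (R' := Λ ^ (b + 1)) ?_ hs
          (div_pos one_pos (hp0 _)) hρ'0.le h2b ?_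
        · intro β hβ _ h1
          exact hNo ((D.gl D hB).mono hcost) (S.erase β) (Finset.erase_ssubset hβ)
            (h1.cost hcost)
        · -- the tolerances
          obtain ⟨n, hn⟩ : ∃ n : ℕ, n = hi + j' + 2 * b + 2 := ⟨_, rfl⟩
          have e1 : τ ≤ 1 / Λ ^ n := by
            rw [le_div_iff₀ (hp0 _)]
            exact hτΛ _ (by omega)
          have e2 : τ₀ ≤ 1 / Λ ^ n := hττ₀.trans e1
          have e3 : 2 * τ + 2 * m * (Λ ^ b * τ₀) ≤ (2 + 2 * m) * (Λ ^ b * (1 / Λ ^ n)) := by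
            have e4 : Λ ^ b * τ₀ ≤ Λ ^ b * (1 / Λ ^ n) :=
              mul_le_mul_of_nonneg_left e2 (hp0 _).le
            have e5 : 2 * (m : ℝ) * (Λ ^ b * τ₀) ≤ 2 * m * (Λ ^ b * (1 / Λ ^ n)) :=
              mul_le_mul_of_nonneg_left e4 (by positivity)
            have e6 : τ ≤ Λ ^ b * (1 / Λ ^ n) := by
              refine e1.trans ?_
              have e7 : 0 < 1 / Λ ^ n := div_pos one_pos (hp0 _)
              have e8 := mul_le_mul_of_nonneg_right (hp1 b) e7.le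
              linarith only [e8]
            linarith only [e5, e6]
          have e4 : Λ ^ b * ((2 * τ + 2 * m * (Λ ^ b * τ₀)) / (1 / Λ ^ hi)) ≤
              (2 + 2 * m) * (1 / Λ ^ (j' + 2)) := by
            have e5 : Λ ^ b * (((2 + 2 * m) * (Λ ^ b * (1 / Λ ^ n))) / (1 / Λ ^ hi)) =
                (2 + 2 * m) * (1 / Λ ^ (j' + 2)) := by
              have e6 : Λ ^ n = Λ ^ hi * Λ ^ (j' + 2) * Λ ^ b * Λ ^ b := by
                rw [← pow_add, ← pow_add, ← pow_add, hn]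
                congr 1
                omega
              rw [e6]
              field_simp
            rw [← e5]
            exact mul_le_mul_of_nonneg_left (div_le_div_of_nonneg_right e3
              (div_pos one_pos (hp0 _)).le) (hp0 _).le
          have e5 : τ ≤ 1 / Λ ^ (j' + 2) := by
            rw [le_div_iff₀ (hp0 _)]
            exact hτΛ _ (by omega)
          have e6 : 1 / Λ ^ (j' + 2) * (3 + 2 * m) ≤ 1 / Λ ^ j' := by
            have e7 : (3 : ℝ) + 2 * m ≤ Λ ^ 2 := by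
              have e8 : Λ * 1 ≤ Λ * Λ := mul_le_mul_of_nonneg_left hΛ1 hΛ0.le
              rw [sq]
              linarith only [hM1, hΛ₀', hCs0, hΛ, e8]
            rw [pow_add, div_mul_eq_mul_div, one_mul, div_le_div_iff₀ (by positivity)
              (hp0 _), one_mul, mul_comm]
            exact mul_le_mul_of_nonneg_left e7 (hp0 _).le
          linarith only [e4, e5, e6]
      obtain ⟨sv, hsv, hPv⟩ := hvis
      obtain ⟨Fin', hFin⟩ : ∃ Fin' : D.W → Prop, Fin' = fun w =>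
        D.Gp a C₀ τ₀ (1 / Λ ^ hi) α₀ s w ∧
        (∀ β ∈ S, 1 ≤ |s (D.x w) β| * Λ ^ (j' + 1)) ∧ sv (B.pt (D.pr w)) α₀ = 1 ∧
        (∀ β, |s (D.x w) β - sv (B.pt (D.pr w)) β| * Λ ^ hi ≤ 1) ∧
        ∀ β, |s (D.x w) β - (F (B.L (D.pr w)) ⌊B.th (D.pr w) * Λ ^ ((b + 1) * A₂ S)⌋ β).eval
          (B.th (D.pr w))| * Λ ^ hi ≤ 1 := ⟨_, rfl⟩
      obtain ⟨Sm, hSm⟩ : ∃ Sm : Fin m → D.W → Prop, Sm = fun β w => β ∈ S ∧ β ≠ α₀ ∧
        D.Gp a C₀ τ₀ τ α₀ s w ∧ |s (D.x w) β| ≤ 1 / Λ ^ (j' + 1) := ⟨_, rfl⟩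
      obtain ⟨Nv, hNv⟩ : ∃ Nv : D.W → Prop, Nv = fun w => D.Gp a C₀ τ₀ τ α₀ s w ∧
            ¬ (sv (B.pt (D.pr w)) α₀ = 1 ∧
              ∀ β, |s (D.x w) β - sv (B.pt (D.pr w)) β| ≤ 1 / Λ ^ hi) := ⟨_, rfl⟩
      have hSmP : Pb D.q (fun w => ∃ β, Sm β w) ≤ ρ₂ / 4 := by
        refine (Pool.MIC.Pb_exists_le n0 Sm).trans ?_
        have e1 : ∀ β ∈ (univ : Finset (Fin m)), Pb D.q (Sm β) ≤ ρ' := by
          intro β _
          by_cases hβ : β ∈ S ∧ β ≠ α₀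
          · refine le_trans ?_ (hsm β hβ.1 hβ.2)
            refine Pool.MIC.Pb_le_of_imp n0 fun w _ hw => ?_
            rw [hSm] at hw
            exact hw.2.2
          · refine le_trans (le_of_eq ?_) hρ'0.le
            unfold Pb
            refine Finset.sum_eq_zero fun w _ => ?_
            rw [if_neg]
            rw [hSm]
            exact fun hh => hβ ⟨hh.1, hh.2.1⟩
        refine (Finset.sum_le_sum e1).trans ?_
        rw [Finset.sum_const, Finset.card_univ, Fintype.card_fin, nsmul_eq_mul]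
        linarith only [hρ₂, hρ'0, hρ'b]
      have hNvP : Pb D.q Nv ≤ ρ₂ / 4 := by
        rw [hNv]
        refine hPv.trans ?_
        have e1 : (m : ℝ) * ρ' ≤ (ρ₂ / 4) ^ 2 := by linarith only [hρ'0, hρ'd]
        exact (Real.sqrt_le_sqrt e1).trans_eq (Real.sqrt_sq (by positivity))
      have hτhi : τ ≤ 1 / Λ ^ hi := by
        rw [le_div_iff₀ (hp0 _)]
        exact hτΛ _ (by omega)
      have hmain : ρ₂ / 2 ≤ Pb D.q Fin' := by
        have e1 : ρ₂ ≤ Pb D.q (fun w => Fin' w ∨ ((∃ β, Sm β w) ∨ Nv w)) := by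
          rw [hρ₂]
          refine hF4.trans (Pool.MIC.Pb_le_of_imp n0 fun w _ hw => ?_)
          obtain ⟨g1, g2⟩ := hw
          by_cases h1 : ∃ β, Sm β w
          · exact Or.inr (Or.inl h1)
          by_cases h2 : Nv w
          · exact Or.inr (Or.inr h2)
          left
          rw [hNv] at h2
          push Not at h2
          obtain ⟨h3, h4⟩ := h2 g1
          rw [hFin]
          refine ⟨⟨g1.1, g1.2.1, fun l => (g1.2.2 l).trans hτhi⟩, fun β hβ => ?_, h3,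
            fun β => ?_, g2⟩
          · by_cases h5 : β = α₀
            · rw [h5, g1.2.1, abs_one, one_mul]
              exact hp1 _
            · by_contra h6
              push Not at h6
              refine h1 ⟨β, ?_⟩
              rw [hSm]
              refine ⟨hβ, h5, g1, ?_⟩
              rw [le_div_iff₀ (hp0 _)]
              exact h6.le
          · have h5 := h4 β
            rwa [le_div_iff₀ (hp0 _)] at h5
        have e2 := Pool.GLB.Pb_two n0 Fin' (fun w => (∃ β, Sm β w) ∨ Nv w)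
        have e3 := Pool.GLB.Pb_two n0 (fun w => ∃ β, Sm β w) Nv
        linarith only [hSmP, hNvP, e1, e2, e3]
      refine ⟨κ, κ', b, j' + 1, hi, (b + 1) * A₂ S, K₂ S, ρ₂ / 2, ρ', S, D, s, sv, F,
        by omega, by omega, by omega, by omega, by omega, by omega, by omega, hhi.ge, ?_, ?_,
        hρ'a, by omega, by omega, ⟨hα₀, hs, hsv, hF1, hF2, ?_, ?_⟩, ?_⟩
      · exact (min_le_right _ _).trans (min_le_left _ _)
      · exact (min_le_right _ _).trans (min_le_right _ _)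
      · intro l z α hα
        exact hF3 l z α hα fun h1 => hα (h1 ▸ hα₀)
      · rw [hFin] at hmain
        exact hmain
      · intro D'' S'' hS''
        rw [Nat.add_sub_cancel]
        exact hNo D'' S'' hS''

end

end Pool.REL
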