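import Pool.Agent.H50.REL.FamR

/-!
# Spaces of relations with pivots in a given set

The pivots are taken in the set `Q` of coordinates: there is no relation with support off `Q`.
-/

set_option autoImplicit false

namespace Pool.REL

open Finset Polynomial
open Pool.Agent.H49.Ent Pool.Agent.H32.Dense Pool.STK Pool.BFL Pool.GLB Pool.CLU
open Pool.K2S (cpn)

section

variable {h m c : ℕ} {NN : Finset (Fin h →₀ ℕ)} {B : Bd h m c} {θ : ℝ}

/-- **A relation off the pivots enlarges the family, by a pivot in `Q`.** -/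
theorem Ctx.absorbQ (D : Ctx B θ) {a : Fin c → {γ // γ ∈ NN} → Fin m → ℝ[X]}
    {C₀ τ₀ R R' τ' ρ' ρq τq δ M : ℝ} {P Q : Finset (Fin m)}
    (hNo : ∀ β ∈ Q, β ∉ P → ¬ D.RelR a C₀ τ₀ (insert β P) R' τ' ρ')
    (hFU : ¬ D.Rel a C₀ τ₀ Qᶜ τq ρq)
    (hM : ∀ ω, B.Ty a C₀ τ₀ ω → ∀ α l, |B.ev a ω (Pi.single α 1) l| ≤ M)
    {s : D.G → Fin m → Fin m → ℝ} {d : D.G → Fin m → ℝ} (hs : VecF R P s) (hd : VecR 1 Pᶜ d)
    {τ₁ τ₂ : ℝ} (hρ' : 0 ≤ ρ') (hδ : 0 < δ) (hδ1 : δ < 1) (hR1 : 1 / δ ≤ R')
    (hRR : R + R * (1 / δ) ≤ R') (hτq : τ₂ + m * (δ * M) ≤ τq) (hτ2 : τ₂ * (1 / δ) ≤ τ')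
    (hτ : τ₁ + R * (τ₂ * (1 / δ)) ≤ τ') :
    Pb D.q (fun w => D.GpR a C₀ τ₀ τ₁ P s w ∧ (∃ β, |d (D.x w) β| = 1) ∧
      ∀ l, |B.ev a (D.pr w) (d (D.x w)) l| ≤ τ₂) ≤ ρq + m * ρ' := by
  classical
  have n0 := D.isLaw.nonneg
  have hd0 : ∀ y, ∀ α ∈ P, d y α = 0 := fun y α hα => hd.2 y α (by simpa using hα)
  obtain ⟨E, hE⟩ : ∃ E : Fin m → D.W → Prop, E = fun β w => D.GpR a C₀ τ₀ τ₁ P s w ∧
    β ∈ Q ∧ δ < |d (D.x w) β| ∧ ∀ l, |B.ev a (D.pr w) (d (D.x w)) l| ≤ τ₂ := ⟨_, rfl⟩
  obtain ⟨E₀, hE₀⟩ : ∃ E₀ : D.W → Prop, E₀ = fun w => B.Ty a C₀ τ₀ (D.pr w) ∧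
    (∀ β ∈ Q, |d (D.x w) β| ≤ δ) ∧ (∃ β, |d (D.x w) β| = 1) ∧
      ∀ l, |B.ev a (D.pr w) (d (D.x w)) l| ≤ τ₂ := ⟨_, rfl⟩
  have h1 : Pb D.q (fun w => D.GpR a C₀ τ₀ τ₁ P s w ∧ (∃ β, |d (D.x w) β| = 1) ∧
      ∀ l, |B.ev a (D.pr w) (d (D.x w)) l| ≤ τ₂) ≤ Pb D.q E₀ + ∑ β, Pb D.q (E β) := by
    refine le_trans ?_ ((Pool.GLB.Pb_two n0 E₀ (fun w => ∃ β, E β w)).trans
      (add_le_add le_rfl (Pool.MIC.Pb_exists_le n0 E)))
    refine Pool.MIC.Pb_le_of_imp n0 fun w _ hw => ?_
    obtain ⟨g1, g2, g3⟩ := hw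
    by_cases h2 : ∀ β ∈ Q, |d (D.x w) β| ≤ δ
    · left
      rw [hE₀]
      exact ⟨g1.1, h2, g2, g3⟩
    · right
      push Not at h2
      obtain ⟨β, h3, h4⟩ := h2
      refine ⟨β, ?_⟩
      rw [hE]
      exact ⟨g1, h3, h4, g3⟩
  refine h1.trans ?_
  -- no pivot in the set
  have h3 : Pb D.q E₀ ≤ ρq := by
    by_contra hcon
    push Not at hcon
    refine hFU ⟨fun y α => if α ∈ Q then 0 else d y α, fun y α => ?_, fun y α hα => ?_,
      hcon.le.trans (Pool.MIC.Pb_le_of_imp n0 fun w _ hw => ?_)⟩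
    · simp only
      split_ifs
      · rw [abs_zero]
        exact zero_le_one
      · exact hd.1 y α
    · have : α ∈ Q := by simpa using hα
      simp only
      rw [if_pos this]
    · rw [hE₀] at hw
      obtain ⟨g1, g2, ⟨β, g3⟩, g4⟩ := hw
      refine ⟨g1, ⟨β, ?_⟩, fun l => ?_⟩
      · have h4 : β ∉ Q := fun h5 => by
          have := g2 β h5
          rw [g3] at this
          linarith
        show |if β ∈ Q then 0 else d (D.x w) β| = 1
        rw [if_neg h4]
        exact g3
      · have h5 : B.ev a (D.pr w) (fun α => if α ∈ Q then 0 else d (D.x w) α) l =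
            B.ev a (D.pr w) (d (D.x w)) l -
            ∑ α, (if α ∈ Q then d (D.x w) α else 0) *
              B.ev a (D.pr w) (Pi.single α 1) l := by
          rw [B.ev_sum a (D.pr w) (fun α => if α ∈ Q then 0 else d (D.x w) α) l,
            B.ev_sum a (D.pr w) (d (D.x w)) l, ← Finset.sum_sub_distrib]
          refine Finset.sum_congr rfl fun α _ => ?_
          split_ifs <;> ring
        show |B.ev a (D.pr w) (fun α => if α ∈ Q then 0 else d (D.x w) α) l| ≤ τq
        rw [h5]
        refine (abs_sub _ _).trans (le_trans (add_le_add (g4 l) ?_) hτq)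
        refine (Finset.abs_sum_le_sum_abs _ _).trans ?_
        have h6 : ∀ α ∈ (univ : Finset (Fin m)), |(if α ∈ Q then d (D.x w) α else 0) *
            B.ev a (D.pr w) (Pi.single α 1) l| ≤ δ * M := by
          intro α _
          have h7 := hM _ g1 α l
          rw [abs_mul]
          refine mul_le_mul ?_ h7 (abs_nonneg _) hδ.le
          split_ifs with h8
          · exact g2 α h8
          · rw [abs_zero]
            exact hδ.le
        refine (Finset.sum_le_sum h6).trans (le_of_eq ?_)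
        rw [Finset.sum_const, Finset.card_univ, Fintype.card_fin, nsmul_eq_mul]
  -- a pivot in the set
  have h2 : ∀ β ∈ (univ : Finset (Fin m)), Pb D.q (E β) ≤ ρ' := by
    intro β _
    by_cases hβ : β ∈ Q ∧ β ∉ P
    · by_contra hcon
      push Not at hcon
      obtain ⟨s', hs'⟩ : ∃ s' : D.G → Fin m → Fin m → ℝ, s' = fun y π =>
        if δ < |d y β| then (if π = β then (1 / d y β) • d y else
          s y π - (s y π β * (1 / d y β)) • d y) else 0 := ⟨_, rfl⟩
      have hinv : ∀ y, δ < |d y β| → |1 / d y β| ≤ 1 / δ := by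
        intro y hy
        rw [abs_div, abs_one]
        exact one_div_le_one_div_of_le hδ hy.le
      have hne : ∀ y, δ < |d y β| → d y β ≠ 0 := fun y hy h0 => by
        rw [h0, abs_zero] at hy
        linarith
      refine hNo β hβ.1 hβ.2 ⟨s', ⟨?_, ?_⟩, hcon.le.trans ?_⟩
      · intro y π α
        have hR0 : 0 ≤ R := (abs_nonneg _).trans (hs.1 y π α)
        have hδ0 : 0 ≤ 1 / δ := by positivity
        rw [hs']
        simp only
        split_ifs with hc hπ
        · rw [Pi.smul_apply, smul_eq_mul, abs_mul]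
          refine le_trans ?_ hR1
          calc |1 / d y β| * |d y α| ≤ 1 / δ * 1 :=
                mul_le_mul (hinv y hc) (hd.1 y α) (abs_nonneg _) hδ0
            _ = 1 / δ := mul_one _
        · rw [Pi.sub_apply, Pi.smul_apply, smul_eq_mul]
          refine (abs_sub _ _).trans ?_
          rw [abs_mul, abs_mul]
          have h3 : |s y π β| * |1 / d y β| * |d y α| ≤ R * (1 / δ) * 1 :=
            mul_le_mul (mul_le_mul (hs.1 _ _ _) (hinv y hc) (abs_nonneg _) hR0) (hd.1 y α)
              (abs_nonneg _) (mul_nonneg hR0 hδ0)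
          have h4 := hs.1 y π α
          linarith
        · rw [Pi.zero_apply, abs_zero]
          have h5 : 0 ≤ R * (1 / δ) := mul_nonneg hR0 hδ0
          linarith
      · intro y π hπ α hα hne'
        rw [hs']
        simp only
        split_ifs with hc hπβ
        · rw [Pi.smul_apply, smul_eq_mul]
          rcases Finset.mem_insert.1 hα with h3 | h3
          · exact absurd (h3.trans hπβ.symm) hne'
          · rw [hd0 y α h3, mul_zero]
        · have hπP : π ∈ P := (Finset.mem_insert.1 hπ).resolve_left hπβ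
          rw [Pi.sub_apply, Pi.smul_apply, smul_eq_mul]
          rcases Finset.mem_insert.1 hα with h3 | h3
          · rw [h3, mul_assoc, one_div_mul_cancel (hne y hc), mul_one, sub_self]
          · rw [hd0 y α h3, mul_zero, sub_zero]
            exact hs.2 y π hπP α h3 hne'
        · rfl
      · refine Pool.MIC.Pb_le_of_imp n0 fun w _ hw => ?_
        rw [hE] at hw
        obtain ⟨g1, -, g2, g3⟩ := hw
        refine ⟨g1.1, fun π hπ => ?_⟩
        by_cases hπβ : π = β
        · have e1 : s' (D.x w) π = (1 / d (D.x w) β) • d (D.x w) := by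
            rw [hs']
            simp only
            rw [if_pos g2, if_pos hπβ]
          rw [e1]
          refine ⟨?_, fun l => ?_⟩
          · rw [Pi.smul_apply, smul_eq_mul, hπβ, one_div_mul_cancel (hne _ g2)]
          · rw [B.ev_smul, abs_mul]
            refine le_trans ?_ hτ2
            rw [mul_comm]
            exact mul_le_mul (g3 l) (hinv _ g2) (abs_nonneg _) ((abs_nonneg _).trans (g3 l))
        · have hπP : π ∈ P := (Finset.mem_insert.1 hπ).resolve_left hπβ
          have e1 : s' (D.x w) π = s (D.x w) π -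
              (s (D.x w) π β * (1 / d (D.x w) β)) • d (D.x w) := by
            rw [hs']
            simp only
            rw [if_pos g2, if_neg hπβ]
          rw [e1]
          refine ⟨?_, fun l => ?_⟩
          · rw [Pi.sub_apply, Pi.smul_apply, smul_eq_mul, hd0 _ π hπP, mul_zero, sub_zero]
            exact (g1.2 π hπP).1
          · rw [B.ev_sub, B.ev_smul]
            refine (abs_sub _ _).trans (le_trans ?_ hτ)
            refine add_le_add ((g1.2 π hπP).2 l) ?_
            rw [abs_mul, abs_mul, mul_assoc]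
            refine mul_le_mul (hs.1 _ _ _) ?_ (mul_nonneg (abs_nonneg _) (abs_nonneg _))
              ((abs_nonneg _).trans (hs.1 (D.x w) π β))
            rw [mul_comm]
            exact mul_le_mul (g3 l) (hinv _ g2) (abs_nonneg _) ((abs_nonneg _).trans (g3 l))
    · refine le_trans (le_of_eq ?_) hρ'
      unfold Pb
      refine Finset.sum_eq_zero fun w _ => ?_
      rw [if_neg]
      rw [hE]
      intro hh
      have h4 : β ∈ P := by
        by_contra h5
        exact hβ ⟨hh.2.1, h5⟩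
      have h5 := hh.2.2.1
      rw [hd0 _ _ h4, abs_zero] at h5
      linarith
  refine add_le_add h3 ((Finset.sum_le_sum h2).trans (le_of_eq ?_))
  rw [Finset.sum_const, Finset.card_univ, Fintype.card_fin, nsmul_eq_mul]

end

end Pool.REL
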