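import Pool.Agent.H50.REL.CloR
import Pool.Agent.H50.REL.FamQ

/-!
# The relation engine, pivots in a given set

There is no relation with support off `Q`. A family of relations in echelon form with pivots in `Q`
in a context of little information about the line: there is a maximal one; it is polynomial in the
time with coefficients functions of the line (on cells), with positive probability; there is no
larger family with pivots in `Q` at the next level.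
-/

set_option autoImplicit false

namespace Pool.REL

open Finset Polynomial
open Pool.Agent.H49.Ent Pool.Agent.H32.Dense Pool.STK Pool.BFL Pool.GLB Pool.CLU
open Pool.K2S (cpn)
open Pool.MIC30 (All)

section

variable {h m c : ℕ} {NN : Finset (Fin h →₀ ℕ)}

/-- **The family which is found**: `s` the family in the context, `F` the same as polynomials in the
time. -/
structure OutQ (a : Fin c → {γ // γ ∈ NN} → Fin m → ℝ[X]) (C₀ : ℝ) (B : Bd h m c) (Λ τ₀ : ℝ)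
    {θ : ℝ} (D : Ctx B θ) (P : Finset (Fin m)) (R : ℝ) (hi A₂ K₂ : ℕ) (ρ : ℝ)
    (s : D.G → Fin m → Fin m → ℝ) (F : B.Λ → ℤ → Fin m → Fin m → ℝ[X]) : Prop where
  vec : VecF R P s
  deg : ∀ l z π α, (F l z π α).natDegree ≤ K₂
  one : ∀ l z, ∀ π ∈ P, F l z π π = 1
  off : ∀ l z, ∀ π ∈ P, ∀ α ∈ P, α ≠ π → F l z π α = 0
  pb : ρ ≤ Pb D.q (fun w => D.GpR a C₀ τ₀ (1 / Λ ^ hi) P s w ∧
    ∀ π ∈ P, ∀ β, |s (D.x w) π β - (F (B.L (D.pr w)) ⌊B.th (D.pr w) * Λ ^ A₂⌋ π β).eval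
      (B.th (D.pr w))| * Λ ^ hi ≤ 1)

/-- **The conclusion of the engine.** -/
def ConcQ (a : Fin c → {γ // γ ∈ NN} → Fin m → ℝ[X]) (C₀ : ℝ) (P₀ Q : Finset (Fin m)) (jq : ℕ)
    (V : ℕ → ℕ → ℕ) (Φ : ℝ → ℝ) (Ψ : ℕ → ℕ) (b₀ Am κm : ℕ) (c₁ : ℝ) (B : Bd h m c)
    (θ Λ τ₀ : ℝ) : Prop :=
  ∃ (κ κ' b lo hi A₂ K₂ : ℕ) (ρ ρ' : ℝ) (P : Finset (Fin m))
    (D : Ctx B (κ * θ)) (s : D.G → Fin m → Fin m → ℝ)
    (F : B.Λ → ℤ → Fin m → Fin m → ℝ[X]),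
    κ ≤ κm ∧ κ' ≤ κm ∧ Ψ κ ≤ κ' ∧ lo ≤ Am ∧ hi ≤ Am ∧ A₂ ≤ Am ∧ K₂ ≤ Am ∧ V lo A₂ ≤ hi ∧
    c₁ ≤ ρ ∧ c₁ ≤ ρ' ∧ ρ' ≤ Φ ρ ∧ b ≤ b₀ ∧ P₀ ⊆ P ∧ P ⊆ Q ∧
    OutQ a C₀ B Λ τ₀ D P (Λ ^ b) hi A₂ K₂ ρ s F ∧
    ∀ (D'' : Ctx B (κ' * θ)) (P'' : Finset (Fin m)), P ⊂ P'' → P'' ⊆ Q →
      ¬ D''.RelR a C₀ τ₀ P'' (Λ ^ (b + (jq + 2))) (1 / Λ ^ lo) ρ'

theorem ConcQ.mono {a : Fin c → {γ // γ ∈ NN} → Fin m → ℝ[X]} {C₀ : ℝ}
    {P₀ P₀' Q : Finset (Fin m)} {jq : ℕ} {V : ℕ → ℕ → ℕ} {Φ : ℝ → ℝ} {Ψ : ℕ → ℕ}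
    {b₀ b₀' Am κm Am' κm' : ℕ} {c₁ c₁' : ℝ} {B : Bd h m c} {θ Λ τ₀ : ℝ}
    (hC : ConcQ a C₀ P₀ Q jq V Φ Ψ b₀ Am κm c₁ B θ Λ τ₀) (hP : P₀' ⊆ P₀) (hb : b₀ ≤ b₀')
    (hA : Am ≤ Am') (hκ : κm ≤ κm') (hc : c₁' ≤ c₁) :
    ConcQ a C₀ P₀' Q jq V Φ Ψ b₀' Am' κm' c₁' B θ Λ τ₀ := by
  obtain ⟨κ, κ', b, lo, hi, A₂, K₂, ρ, ρ', S, D, s, F, h1, h2, h3, h4, h5, h6, h7, h8,
    h9, h10, h11, h13, h16, h17, h14, h15⟩ := hC
  exact ⟨κ, κ', b, lo, hi, A₂, K₂, ρ, ρ', S, D, s, F, h1.trans hκ, h2.trans hκ, h3,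
    h4.trans hA, h5.trans hA, h6.trans hA, h7.trans hA, h8, hc.trans h9, hc.trans h10, h11,
    h13.trans hb, hP.trans h16, h17, h14, h15⟩

/-- **The maximal family.** -/
theorem coreQ (h m c : ℕ) (NN : Finset (Fin h →₀ ℕ)) (a : Fin c → {γ // γ ∈ NN} → Fin m → ℝ[X])
    (C₀ : ℝ) (hC₀ : 1 ≤ C₀) (Q : Finset (Fin m)) (jq : ℕ) (V : ℕ → ℕ → ℕ) (Φ : ℝ → ℝ)
    (hΦ : ∀ x, 0 < x → 0 < Φ x) (Ψ : ℕ → ℕ) : ∀ (κ b : ℕ) (ρ : ℝ), 0 < ρ →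
    ∃ (κ' : ℕ) (ρ' : ℝ), 0 < ρ' ∧ ∀ j' : ℕ,
    ∃ (j Am κm : ℕ) (c₁ e₀ Λ₀ : ℝ), 0 < c₁ ∧ 0 < e₀ ∧ 1 ≤ Λ₀ ∧
    ∀ (B : Bd h m c) (_ : B.Ok) (θ Λ τ₀ : ℝ), 0 ≤ θ → Λ₀ ≤ Λ → τ₀ * Λ ^ Am ≤ 1 →
      P2 B.p B.L (fun ω ω' => |B.th ω - B.th ω'| * Λ < 1) ≤ e₀ →
      (∀ D'' : Ctx B (κm * θ), ¬ D''.Rel a C₀ τ₀ Qᶜ (1 / Λ ^ jq) c₁) →
      ∀ (D : Ctx B (κ * θ)) (P : Finset (Fin m)), P ⊆ Q →
      D.RelR a C₀ τ₀ P (Λ ^ b) (1 / Λ ^ j) ρ →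
      (∀ (D'' : Ctx B (κ' * θ)) (P'' : Finset (Fin m)), P ⊂ P'' → P'' ⊆ Q →
        ¬ D''.RelR a C₀ τ₀ P'' (Λ ^ (b + (jq + 2))) (1 / Λ ^ j') ρ') →
      ConcQ a C₀ P Q jq V Φ Ψ b Am κm c₁ B θ Λ τ₀ := by
  classical
  obtain ⟨N, hclo⟩ := cloR h m c NN a C₀ hC₀
  obtain ⟨M, hM1, hM⟩ := ev_bd a hC₀
  intro κ b ρ hρ
  -- the probabilities and the costs
  have hm1 : (0 : ℝ) < m + 1 := by positivity
  have hm0 : (0 : ℝ) ≤ m := by positivity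
  obtain ⟨ρ₂, hρ₂⟩ : ∃ ρ₂ : ℝ, ρ₂ = ρ ^ (N + 1) / 2 := ⟨_, rfl⟩
  have hρ₂0 : 0 < ρ₂ := by
    rw [hρ₂]
    positivity
  obtain ⟨ρ', hρ'⟩ : ∃ ρ' : ℝ, ρ' = min (Φ (ρ₂ / 2)) (min (ρ ^ (N + 1) / (16 * (m + 1)))
    ((ρ₂ / 4) ^ 2 / (m + 1) ^ 2)) := ⟨_, rfl⟩
  have hρ'0 : 0 < ρ' := by
    rw [hρ']
    refine lt_min (hΦ _ (by positivity)) (lt_min (by positivity) (by positivity))
  have hρ'a : ρ' ≤ Φ (ρ₂ / 2) := by
    rw [hρ']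
    exact min_le_left _ _
  have hρ'b : ρ' * (16 * (m + 1)) ≤ ρ ^ (N + 1) := by
    rw [← le_div_iff₀ (by positivity), hρ']
    exact (min_le_right _ _).trans (min_le_left _ _)
  have hρ'd : ρ' * (m + 1) ^ 2 ≤ (ρ₂ / 4) ^ 2 := by
    rw [← le_div_iff₀ (by positivity), hρ']
    exact (min_le_right _ _).trans (min_le_right _ _)
  obtain ⟨κ', hκ'⟩ : ∃ κ' : ℕ, κ' = Ψ κ + (N + 1) * κ + 2 * κ + κ := ⟨_, rfl⟩
  refine ⟨κ', ρ', hρ'0, fun j' => ?_⟩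
  -- the exponents
  choose C A₂ hC hcl using fun (S : Finset (Fin m)) => hclo S (j' + (jq + 1) + 1)
  choose A K₂ hAK using fun (S : Finset (Fin m)) =>
    hcl S (V j' ((b + 1) * A₂ S))
  obtain ⟨As, hAs⟩ : ∃ As : ℕ, As = ∑ S : Finset (Fin m),
    ((b + 1) * A S + V j' ((b + 1) * A₂ S) + (b + 1) * A₂ S + K₂ S) := ⟨_, rfl⟩
  have hAs' : ∀ S, (b + 1) * A S + V j' ((b + 1) * A₂ S) + (b + 1) * A₂ S + K₂ S ≤
      As := by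
    intro S
    rw [hAs]
    exact Finset.single_le_sum (f := fun S : Finset (Fin m) =>
      ((b + 1) * A S + V j' ((b + 1) * A₂ S) + (b + 1) * A₂ S + K₂ S))
      (fun _ _ => Nat.zero_le _) (Finset.mem_univ S)
  obtain ⟨Cs, hCs⟩ : ∃ Cs : ℝ, Cs = ∑ S : Finset (Fin m), C S := ⟨_, rfl⟩
  have hC0 : ∀ S, 0 ≤ C S := fun S => le_trans zero_le_one (hC S)
  have hCs' : ∀ S, C S ≤ Cs := by
    intro S
    rw [hCs]
    exact Finset.single_le_sum (f := fun S : Finset (Fin m) => C S) (fun S _ => hC0 S)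
      (Finset.mem_univ S)
  have hCs0 : 0 ≤ Cs := by
    rw [hCs]
    exact Finset.sum_nonneg fun S _ => hC0 S
  have hmM : 0 ≤ (m : ℝ) * M := by positivity
  refine ⟨As + j' + 2 * b + 2, As + j' + 2 * b + 2, κ + κ', min (ρ₂ / 2) ρ',
    ρ ^ (N + 1) / (8 * (N + 1) ^ 2), Cs + m * M + 3 * m + 4,
    lt_min (by positivity) hρ'0, by positivity, by linarith only [hCs0, hmM], ?_⟩
  intro B hB θ Λ τ₀ hθ hΛ hτ₀ hsep hFU D P hPQ hR hNo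
  have hΛ1 : 1 ≤ Λ := by linarith only [hCs0, hmM, hΛ]
  have hΛ2 : 2 ≤ Λ := by linarith only [hCs0, hmM, hΛ]
  have hΛ0 : 0 < Λ := by linarith only [hCs0, hmM, hΛ]
  have hp1 : ∀ n : ℕ, 1 ≤ Λ ^ n := fun n => one_le_pow₀ hΛ1
  have hp0 : ∀ n : ℕ, 0 < Λ ^ n := fun n => pow_pos hΛ0 n
  obtain ⟨τ, hτd⟩ : ∃ τ : ℝ, τ = 1 / Λ ^ (As + j' + 2 * b + 2) := ⟨_, rfl⟩
  rw [← hτd] at hR
  have hτ0 : 0 < τ := by
    rw [hτd]
    exact div_pos one_pos (hp0 _)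
  have hτΛ : ∀ n, n ≤ As + j' + 2 * b + 2 → τ * Λ ^ n ≤ 1 := by
    intro n hn
    rw [hτd, one_div, inv_mul_le_iff₀ (hp0 _), mul_one]
    exact pow_le_pow_right₀ hΛ1 hn
  have hττ₀ : τ₀ ≤ τ := by
    rw [hτd, le_div_iff₀ (hp0 _)]
    exact hτ₀
  obtain ⟨s, hs, hPs⟩ := hR
  have n0 := D.isLaw.nonneg
  obtain ⟨hi, hhi⟩ : ∃ hi : ℕ, hi = V j' ((b + 1) * A₂ P) := ⟨_, rfl⟩
  have hASα := hAs' P
  rw [← hhi] at hASα
  -- the parameter of the elimination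
  obtain ⟨G, hG⟩ : ∃ G : ℝ, G = Λ ^ (b + 1) := ⟨_, rfl⟩
  have hGΛ : Λ ≤ G := by
    rw [hG]
    calc Λ = Λ ^ 1 := (pow_one _).symm
      _ ≤ Λ ^ (b + 1) := pow_le_pow_right₀ hΛ1 (by omega)
  have hG0 : 0 < G := by linarith only [hCs0, hmM, hΛ, hGΛ]
  have hGb : Λ ^ b ≤ G := by
    rw [hG]
    exact pow_le_pow_right₀ hΛ1 (by omega)
  have hCΛ : C P ≤ G := by
    have := hCs' P
    linarith only [hmM, hΛ, hGΛ, this]
  have hsG : VecF G P s := ⟨fun y π α => (hs.1 y π α).trans hGb, hs.2⟩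
  have hsepG : P2 B.p B.L (fun ω ω' => |B.th ω - B.th ω'| * G < 1) ≤
      ρ ^ (N + 1) / (8 * (N + 1) ^ 2) := by
    refine le_trans ?_ hsep
    unfold P2
    refine Finset.sum_le_sum fun ω _ => Finset.sum_le_sum fun ω' _ => ?_
    have hnn : 0 ≤ B.p ω * B.p ω' / law B.p B.L (B.L ω) :=
      div_nonneg (mul_nonneg (hB.isLaw.nonneg _) (hB.isLaw.nonneg _))
        (law_nonneg hB.isLaw.nonneg _ _)
    by_cases h1 : B.L ω = B.L ω' ∧ |B.th ω - B.th ω'| * G < 1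
    · rw [if_pos h1, if_pos ⟨h1.1, lt_of_le_of_lt
        (mul_le_mul_of_nonneg_left hGΛ (abs_nonneg _)) h1.2⟩]
    · rw [if_neg h1]
      split_ifs
      · exact hnn
      · exact le_rfl
  have hNo' : ∀ {θ' : ℝ} (D'' : Ctx B θ'), θ' ≤ κ' * θ → ∀ β ∈ Q, β ∉ P →
      ¬ D''.RelR a C₀ τ₀ (insert β P) (Λ ^ (b + (jq + 2))) (1 / Λ ^ j') ρ' := by
    intro θ' D'' hcost β hβQ hβ hrel
    exact hNo (D''.mono hcost) (insert β P) (Finset.ssubset_insert hβ)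
      (Finset.insert_subset hβQ hPQ) (hrel.cost hcost)
  -- it is closed
  have hclose := hAK P B hB (κ * θ) D s G τ₀ τ ρ (ρ ^ (N + 1) / (8 * (N + 1) ^ 2)) hsG
    hCΛ hτ0 (by
      rw [hG, ← pow_mul]
      exact hτΛ _ (by omega)) hρ hPs hsepG (by
      rw [mul_div_cancel₀]
      positivity)
  rw [← hhi] at hclose
  have hcase : ∃ F : B.Λ → ℤ → Fin m → Fin m → ℝ[X],
    (∀ l z π α, (F l z π α).natDegree ≤ K₂ P) ∧
    (∀ l z, ∀ π ∈ P, F l z π π = 1) ∧ (∀ l z, ∀ π ∈ P, ∀ α ∈ P, α ≠ π → F l z π α = 0) ∧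
    ρ ^ (N + 1) / 2 ≤ Pb D.q (fun w => D.GpR a C₀ τ₀ τ P s w ∧
      ∀ π ∈ P, ∀ α, |s (D.x w) π α -
        (F (B.L (D.pr w)) ⌊B.th (D.pr w) * Λ ^ ((b + 1) * A₂ P)⌋ π
        α).eval (B.th (D.pr w))| * Λ ^ hi ≤ 1) := by
    rcases hclose with ⟨F, h1, h2, h3, h4⟩ | ⟨i, d, hd, h1⟩
    · refine ⟨F, h1, h2, h3, h4.trans (Pool.MIC.Pb_le_of_imp n0 fun w _ hw =>
        ⟨hw.1, fun π hπ α => ?_⟩)⟩
      have h5 := hw.2 π hπ α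
      rw [hG, ← pow_mul, ← hG] at h5
      exact le_trans (mul_le_mul_of_nonneg_left (pow_le_pow_left₀ hΛ0.le hGΛ hi)
        (abs_nonneg _)) h5
    · exfalso
      have hcost : ((N : ℝ) + 1) * (κ * θ) ≤ κ' * θ := by
        rw [hκ']
        push_cast
        have e1 : (0 : ℝ) ≤ Ψ κ * θ := by positivity
        have e2 : (0 : ℝ) ≤ κ * θ := by positivity
        linarith only [e1, e2]
      have hκm : (κ' : ℝ) * θ ≤ ((κ + κ' : ℕ) : ℝ) * θ := by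
        push_cast
        have e2 : (0 : ℝ) ≤ κ * θ := by positivity
        linarith only [e2]
      obtain ⟨jG, hjG⟩ : ∃ jG : ℕ, jG = j' + (jq + 1) + 1 := ⟨_, rfl⟩
      have hexp : b + (jq + 1) + j' + 1 ≤ (b + 1) * jG := by
        rw [hjG, add_mul, one_mul]
        have h2 : b * 1 ≤ b * (j' + (jq + 1) + 1) := Nat.mul_le_mul_left b (by omega)
        omega
      have e1 : 1 / G ^ jG ≤ 1 / Λ ^ (b + (jq + 1) + j' + 1) := by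
        rw [hG, ← pow_mul]
        exact one_div_le_one_div_of_le (hp0 _) (pow_le_pow_right₀ hΛ1 hexp)
      have hmono : ∀ n₁ n₂ : ℕ, n₁ ≤ n₂ → 1 / Λ ^ n₂ ≤ 1 / Λ ^ n₁ := fun n₁ n₂ h12 =>
        one_div_le_one_div_of_le (hp0 _) (pow_le_pow_right₀ hΛ1 h12)
      have hmul : ∀ n₁ n₂ : ℕ, 1 / Λ ^ (n₁ + n₂) * Λ ^ n₂ = 1 / Λ ^ n₁ := fun n₁ n₂ => by
        rw [pow_add]
        field_simp
      have hpos : ∀ n : ℕ, 0 < 1 / Λ ^ n := fun n => div_pos one_pos (hp0 _)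
      have h2 := (D.ms hB N i).absorbQ (a := a) (C₀ := C₀) (τ₀ := τ₀) (R := Λ ^ b)
        (R' := Λ ^ (b + (jq + 2))) (τ' := 1 / Λ ^ j') (ρ' := ρ') (P := P) (Q := Q)
        (ρq := ρ') (τq := 1 / Λ ^ jq) (δ := 1 / Λ ^ (jq + 1)) (M := M)
        (hNo' (D.ms hB N i) hcost) (by
          intro h2
          refine hFU (((D.ms hB N i).mono hcost).mono hκm) ?_
          exact ((h2.cost hcost).cost hκm).mono le_rfl (min_le_right _ _))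
        (fun ω hω α l => hM _ _ hω.2.1 hω.1 α l)
        (s := fun y => s (y i)) (d := d) ⟨fun y π α => hs.1 _ _ _,
          fun y π hπ α hα hne => hs.2 _ π hπ α hα hne⟩
        hd (τ₁ := τ) (τ₂ := 1 / G ^ jG) hρ'0.le (hpos _) (by
          rw [div_lt_one (hp0 _)]
          calc (1 : ℝ) < Λ := by linarith only [hCs0, hmM, hΛ]
            _ = Λ ^ 1 := (pow_one _).symm
            _ ≤ Λ ^ (jq + 1) := pow_le_pow_right₀ hΛ1 (by omega)) (by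
          rw [one_div_one_div]
          exact pow_le_pow_right₀ hΛ1 (by omega)) (by
          rw [one_div_one_div, ← pow_add]
          have e2 : Λ ^ b ≤ Λ ^ (b + (jq + 1)) := pow_le_pow_right₀ hΛ1 (by omega)
          have e3 : Λ ^ (b + (jq + 2)) = Λ ^ (b + (jq + 1)) * Λ := by
            rw [← pow_succ]
            congr 1
          have e4 := mul_le_mul_of_nonneg_left hΛ2 (hp0 (b + (jq + 1))).le
          rw [e3]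
          linarith only [e2, e4]) (by
          have e2 := e1.trans (hmono (jq + 1) _ (by omega))
          have e3 : 1 / Λ ^ (jq + 1) * (1 + m * M) ≤ 1 / Λ ^ jq := by
            rw [← hmul jq 1, pow_one]
            exact mul_le_mul_of_nonneg_left (by linarith only [hCs0, hΛ]) (hpos _).le
          have e4 : (m : ℝ) * (1 / Λ ^ (jq + 1) * M) = 1 / Λ ^ (jq + 1) * (m * M) := by ring
          rw [e4]
          linarith only [e2, e3]) (by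
          rw [one_div_one_div]
          have e2 := e1.trans (hmono (j' + (jq + 1)) _ (by omega))
          rw [← hmul j' (jq + 1)]
          exact mul_le_mul_of_nonneg_right e2 (hp0 _).le) (by
          rw [one_div_one_div]
          have e2 : τ ≤ 1 / Λ ^ (j' + 1) := by
            rw [le_div_iff₀ (hp0 _)]
            exact hτΛ _ (by omega)
          have e3 : Λ ^ b * (1 / G ^ jG * Λ ^ (jq + 1)) ≤ 1 / Λ ^ (j' + 1) := by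
            have e4 : 1 / G ^ jG * Λ ^ (jq + 1 + b) ≤
                1 / Λ ^ (j' + 1 + (jq + 1 + b)) * Λ ^ (jq + 1 + b) := by
              refine mul_le_mul_of_nonneg_right (e1.trans (hmono _ _ (by omega))) (hp0 _).le
            rw [hmul] at e4
            have e5 : Λ ^ b * (1 / G ^ jG * Λ ^ (jq + 1)) = 1 / G ^ jG * Λ ^ (jq + 1 + b) := by
              rw [pow_add]
              ring
            rw [e5]
            exact e4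
          have e4 : 1 / Λ ^ (j' + 1) * 2 ≤ 1 / Λ ^ j' := by
            rw [← hmul j' 1, pow_one]
            exact mul_le_mul_of_nonneg_left hΛ2 (hpos _).le
          linarith only [e2, e3, e4])
      rw [← hjG] at h1
      have h3 := h1.trans h2
      have h4 : ρ' + (m : ℝ) * ρ' < ρ ^ (N + 1) / 8 := by
        have e2 : ρ' * (16 * ((m : ℝ) + 1)) = 16 * (ρ' + m * ρ') := by ring
        have e3 : 0 < ρ ^ (N + 1) := pow_pos hρ _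
        linarith only [hB, hρ₂, hρ₂0, hρ'b, h1, h2]
      linarith only [hB, hρ₂, hρ₂0, hρ'b, h1, h2]
  obtain ⟨F, hF1, hF2, hF3, hF4⟩ := hcase
  have hτhi : τ ≤ 1 / Λ ^ hi := by
    rw [le_div_iff₀ (hp0 _)]
    exact hτΛ _ (by omega)
  refine ⟨κ, κ', b, j', hi, (b + 1) * A₂ P, K₂ P, ρ₂ / 2, ρ', P, D, s, F,
    by omega, by omega, by omega, by omega, by omega, by omega, by omega, hhi.ge,
    min_le_left _ _, min_le_right _ _, hρ'a, le_rfl, Finset.Subset.refl _, hPQ,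
    ⟨hs, hF1, hF2, hF3, ?_⟩, hNo⟩
  have h1 : ρ₂ / 2 ≤ ρ ^ (N + 1) / 2 := by
    rw [← hρ₂]
    linarith only [hρ₂0]
  refine h1.trans (hF4.trans (Pool.MIC.Pb_le_of_imp n0 fun w _ hw => ⟨⟨hw.1.1, fun π hπ =>
    ⟨(hw.1.2 π hπ).1, fun l => ((hw.1.2 π hπ).2 l).trans hτhi⟩⟩, hw.2⟩))

/-- **The relation engine, pivots in a given set.** -/
theorem engQ (h m c : ℕ) (NN : Finset (Fin h →₀ ℕ)) (a : Fin c → {γ // γ ∈ NN} → Fin m → ℝ[X])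
    (C₀ : ℝ) (hC₀ : 1 ≤ C₀) (Q : Finset (Fin m)) (jq : ℕ) (V : ℕ → ℕ → ℕ) (Φ : ℝ → ℝ)
    (hΦ : ∀ x, 0 < x → 0 < Φ x) (Ψ : ℕ → ℕ) (k : ℕ) : ∀ (κ b : ℕ) (ρ : ℝ), 0 < ρ →
    ∃ (j Am κm : ℕ) (c₁ e₀ Λ₀ : ℝ), 0 < c₁ ∧ 0 < e₀ ∧ 1 ≤ Λ₀ ∧
    ∀ (B : Bd h m c) (_ : B.Ok) (θ Λ τ₀ : ℝ), 0 ≤ θ → Λ₀ ≤ Λ → τ₀ * Λ ^ Am ≤ 1 →
      P2 B.p B.L (fun ω ω' => |B.th ω - B.th ω'| * Λ < 1) ≤ e₀ →
      (∀ D'' : Ctx B (κm * θ), ¬ D''.Rel a C₀ τ₀ Qᶜ (1 / Λ ^ jq) c₁) →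
      ∀ (D : Ctx B (κ * θ)) (P : Finset (Fin m)), P ⊆ Q → Q.card ≤ P.card + k →
      D.RelR a C₀ τ₀ P (Λ ^ b) (1 / Λ ^ j) ρ →
      ConcQ a C₀ P Q jq V Φ Ψ (b + k * (jq + 2)) Am κm c₁ B θ Λ τ₀ := by
  classical
  induction k with
  | zero =>
    intro κ b ρ hρ
    obtain ⟨κ', ρ', hρ', H⟩ := coreQ h m c NN a C₀ hC₀ Q jq V Φ hΦ Ψ κ b ρ hρ
    obtain ⟨j, Am, κm, c₁, e₀, Λ₀, hc₁, he₀, hΛ₀, H1⟩ := H 0
    refine ⟨j, Am, κm, c₁, e₀, Λ₀, hc₁, he₀, hΛ₀, ?_⟩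
    intro B hB θ Λ τ₀ hθ hΛ hτ₀ hsep hFU D P hPQ hP hR
    refine (H1 B hB θ Λ τ₀ hθ hΛ hτ₀ hsep hFU D P hPQ hR ?_).mono (Finset.Subset.refl _)
      (by omega) le_rfl le_rfl le_rfl
    intro D'' P'' hPP hPQ''
    exfalso
    have h1 := Finset.card_lt_card hPP
    have h2 := Finset.card_le_card hPQ''
    omega
  | succ k ih =>
    intro κ b ρ hρ
    obtain ⟨κ', ρ', hρ', H⟩ := coreQ h m c NN a C₀ hC₀ Q jq V Φ hΦ Ψ κ b ρ hρ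
    obtain ⟨j', Am', κm', c₁', e₀', Λ₀', hc₁', he₀', hΛ₀', IH⟩ :=
      ih κ' (b + (jq + 2)) ρ' hρ'
    obtain ⟨j, Am, κm, c₁, e₀, Λ₀, hc₁, he₀, hΛ₀, H1⟩ := H j'
    refine ⟨j, Am + Am', κm + κm', min c₁ c₁', min e₀ e₀', max Λ₀ Λ₀',
      lt_min hc₁ hc₁', lt_min he₀ he₀', hΛ₀.trans (le_max_left _ _), ?_⟩
    intro B hB θ Λ τ₀ hθ hΛ hτ₀ hsep hFU D P hPQ hP hR
    have hΛ1 : 1 ≤ Λ := hΛ₀.trans ((le_max_left _ _).trans hΛ)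
    have hτm : ∀ n, n ≤ Am + Am' → τ₀ * Λ ^ n ≤ 1 := by
      intro n hn
      rcases le_or_gt τ₀ 0 with h1 | h1
      · exact le_trans (mul_nonpos_of_nonpos_of_nonneg h1 (by positivity)) zero_le_one
      · exact le_trans (mul_le_mul_of_nonneg_left (pow_le_pow_right₀ hΛ1 hn) h1.le) hτ₀
    have hFU' : ∀ (κ₁ : ℕ) (ρ₁ : ℝ), κ₁ ≤ κm + κm' → min c₁ c₁' ≤ ρ₁ →
        ∀ D'' : Ctx B (κ₁ * θ), ¬ D''.Rel a C₀ τ₀ Qᶜ (1 / Λ ^ jq) ρ₁ := by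
      intro κ₁ ρ₁ h1 h2 D'' h3
      have h4 : (κ₁ : ℝ) * θ ≤ ((κm + κm' : ℕ) : ℝ) * θ :=
        mul_le_mul_of_nonneg_right (by exact_mod_cast h1) hθ
      exact hFU (D''.mono h4) ((h3.cost h4).mono le_rfl h2)
    by_cases hex : ∃ (D'' : Ctx B (κ' * θ)) (P'' : Finset (Fin m)), P ⊂ P'' ∧ P'' ⊆ Q ∧
        D''.RelR a C₀ τ₀ P'' (Λ ^ (b + (jq + 2))) (1 / Λ ^ j') ρ'
    · obtain ⟨D'', P'', hPP, hPQ'', hR''⟩ := hex
      have h1 := Finset.card_lt_card hPP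
      exact (IH B hB θ Λ τ₀ hθ ((le_max_right _ _).trans hΛ) (hτm _ (by omega))
        (hsep.trans (min_le_right _ _)) (hFU' κm' c₁' (by omega) (min_le_right _ _))
        D'' P'' hPQ'' (by omega) hR'').mono hPP.1 (by
          rw [add_mul]
          omega)
        (by omega) (by omega) (min_le_right _ _)
    · refine (H1 B hB θ Λ τ₀ hθ ((le_max_left _ _).trans hΛ) (hτm _ (by omega))
        (hsep.trans (min_le_left _ _)) (hFU' κm c₁ (by omega) (min_le_left _ _))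
        D P hPQ hR ?_).mono (Finset.Subset.refl _) (by omega)
        (by omega) (by omega) (min_le_left _ _)
      intro D'' P'' hPP hPQ'' hR''
      exact hex ⟨D'', P'', hPP, hPQ'', hR''⟩

end

end Pool.REL
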