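import Pool.Agent.H50.REL.CloR

/-!
# The relation engine for spaces of relations

A family of relations in echelon form in a context of little information about the line: there is a
maximal one; it is a function of the exact point and polynomial in the time with coefficients
functions of the line (on cells), with positive probability; there is no larger family at the next
level (so that every relation is a combination of the family, `Ctx.span`).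
-/

set_option autoImplicit false

namespace Pool.REL

open Finset Polynomial
open Pool.Agent.H49.Ent Pool.Agent.H32.Dense Pool.STK Pool.BFL Pool.GLB Pool.CLU
open Pool.K2S (cpn)
open Pool.MIC30 (All)

section

variable {h m c : ℕ} {NN : Finset (Fin h →₀ ℕ)}

/-- **The family which is found**: `s` the family in the context, `sv` the same as a function of
the exact point, `F` the same as polynomials in the time. -/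
structure OutR (a : Fin c → {γ // γ ∈ NN} → Fin m → ℝ[X]) (C₀ : ℝ) (B : Bd h m c) (Λ τ₀ : ℝ)
    {θ : ℝ} (D : Ctx B θ) (P : Finset (Fin m)) (R : ℝ) (hi A₂ K₂ : ℕ) (ρ : ℝ)
    (s : D.G → Fin m → Fin m → ℝ) (sv : B.Ξ → Fin m → Fin m → ℝ)
    (F : B.Λ → ℤ → Fin m → Fin m → ℝ[X]) : Prop where
  vec : VecF R P s
  vecv : VecF R P sv
  deg : ∀ l z π α, (F l z π α).natDegree ≤ K₂
  one : ∀ l z, ∀ π ∈ P, F l z π π = 1
  off : ∀ l z, ∀ π ∈ P, ∀ α ∈ P, α ≠ π → F l z π α = 0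
  pb : ρ ≤ Pb D.q (fun w => D.GpR a C₀ τ₀ (1 / Λ ^ hi) P s w ∧
    (∀ π ∈ P, sv (B.pt (D.pr w)) π π = 1) ∧
    (∀ π ∈ P, ∀ β, |s (D.x w) π β - sv (B.pt (D.pr w)) π β| * Λ ^ hi ≤ 1) ∧
    ∀ π ∈ P, ∀ β, |s (D.x w) π β - (F (B.L (D.pr w)) ⌊B.th (D.pr w) * Λ ^ A₂⌋ π β).eval
      (B.th (D.pr w))| * Λ ^ hi ≤ 1)

/-- **The conclusion of the engine.** -/
def ConcR (a : Fin c → {γ // γ ∈ NN} → Fin m → ℝ[X]) (C₀ : ℝ) (P₀ : Finset (Fin m))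
    (V : ℕ → ℕ → ℕ) (Φ : ℝ → ℝ) (Ψ : ℕ → ℕ) (b₀ Am κm : ℕ) (c₁ : ℝ) (B : Bd h m c)
    (θ Λ τ₀ : ℝ) : Prop :=
  ∃ (κ κ' b lo hi A₂ K₂ : ℕ) (ρ ρ' : ℝ) (P : Finset (Fin m))
    (D : Ctx B (κ * θ)) (s : D.G → Fin m → Fin m → ℝ) (sv : B.Ξ → Fin m → Fin m → ℝ)
    (F : B.Λ → ℤ → Fin m → Fin m → ℝ[X]),
    κ ≤ κm ∧ κ' ≤ κm ∧ Ψ κ ≤ κ' ∧ lo ≤ Am ∧ hi ≤ Am ∧ A₂ ≤ Am ∧ K₂ ≤ Am ∧ V lo A₂ ≤ hi ∧
    c₁ ≤ ρ ∧ c₁ ≤ ρ' ∧ ρ' ≤ Φ ρ ∧ b ≤ b₀ ∧ P₀ ⊆ P ∧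
    OutR a C₀ B Λ τ₀ D P (Λ ^ b) hi A₂ K₂ ρ s sv F ∧
    ∀ (D'' : Ctx B (κ' * θ)) (P'' : Finset (Fin m)), P ⊂ P'' →
      ¬ D''.RelR a C₀ τ₀ P'' (Λ ^ (b + 1)) (1 / Λ ^ lo) ρ'

theorem ConcR.mono {a : Fin c → {γ // γ ∈ NN} → Fin m → ℝ[X]} {C₀ : ℝ}
    {P₀ P₀' : Finset (Fin m)} {V : ℕ → ℕ → ℕ} {Φ : ℝ → ℝ} {Ψ : ℕ → ℕ}
    {b₀ b₀' Am κm Am' κm' : ℕ} {c₁ c₁' : ℝ} {B : Bd h m c} {θ Λ τ₀ : ℝ}
    (hC : ConcR a C₀ P₀ V Φ Ψ b₀ Am κm c₁ B θ Λ τ₀) (hP : P₀' ⊆ P₀) (hb : b₀ ≤ b₀')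
    (hA : Am ≤ Am') (hκ : κm ≤ κm') (hc : c₁' ≤ c₁) :
    ConcR a C₀ P₀' V Φ Ψ b₀' Am' κm' c₁' B θ Λ τ₀ := by
  obtain ⟨κ, κ', b, lo, hi, A₂, K₂, ρ, ρ', S, D, s, sv, F, h1, h2, h3, h4, h5, h6, h7, h8,
    h9, h10, h11, h13, h16, h14, h15⟩ := hC
  exact ⟨κ, κ', b, lo, hi, A₂, K₂, ρ, ρ', S, D, s, sv, F, h1.trans hκ, h2.trans hκ, h3,
    h4.trans hA, h5.trans hA, h6.trans hA, h7.trans hA, h8, hc.trans h9, hc.trans h10, h11,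
    h13.trans hb, hP.trans h16, h14, h15⟩

/-- **The maximal family.** -/
theorem coreR (h m c : ℕ) (NN : Finset (Fin h →₀ ℕ)) (a : Fin c → {γ // γ ∈ NN} → Fin m → ℝ[X])
    (C₀ : ℝ) (hC₀ : 1 ≤ C₀) (V : ℕ → ℕ → ℕ) (Φ : ℝ → ℝ)
    (hΦ : ∀ x, 0 < x → 0 < Φ x) (Ψ : ℕ → ℕ) : ∀ (κ b : ℕ) (ρ : ℝ), 0 < ρ →
    ∃ (κ' : ℕ) (ρ' : ℝ), 0 < ρ' ∧ ∀ j' : ℕ,
    ∃ (j Am κm : ℕ) (c₁ e₀ Λ₀ : ℝ), 0 < c₁ ∧ 0 < e₀ ∧ 1 ≤ Λ₀ ∧
    ∀ (B : Bd h m c) (_ : B.Ok) (θ Λ τ₀ : ℝ), 0 ≤ θ → Λ₀ ≤ Λ → τ₀ * Λ ^ Am ≤ 1 →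
      P2 B.p B.L (fun ω ω' => |B.th ω - B.th ω'| * Λ < 1) ≤ e₀ →
      ∀ (D : Ctx B (κ * θ)) (P : Finset (Fin m)),
      D.RelR a C₀ τ₀ P (Λ ^ b) (1 / Λ ^ j) ρ →
      (∀ (D'' : Ctx B (κ' * θ)) (P'' : Finset (Fin m)), P ⊂ P'' →
        ¬ D''.RelR a C₀ τ₀ P'' (Λ ^ (b + 1)) (1 / Λ ^ j') ρ') →
      ConcR a C₀ P V Φ Ψ b Am κm c₁ B θ Λ τ₀ := by
  classical
  obtain ⟨N, hclo⟩ := cloR h m c NN a C₀ hC₀
  intro κ b ρ hρ
  -- the probabilities and the costs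
  have hm1 : (0 : ℝ) < m + 1 := by positivity
  have hm0 : (0 : ℝ) ≤ m := by positivity
  obtain ⟨ρ₂, hρ₂⟩ : ∃ ρ₂ : ℝ, ρ₂ = ρ ^ (N + 1) / 2 := ⟨_, rfl⟩
  have hρ₂0 : 0 < ρ₂ := by
    rw [hρ₂]
    positivity
  obtain ⟨ρ', hρ'⟩ : ∃ ρ' : ℝ, ρ' = min (Φ (ρ₂ / 2)) (min (ρ ^ (N + 1) / (8 * (m + 1)))
    ((ρ₂ / 4) ^ 2 / (m + 1) ^ 2)) := ⟨_, rfl⟩
  have hρ'0 : 0 < ρ' := by
    rw [hρ']
    refine lt_min (hΦ _ (by positivity)) (lt_min (by positivity) (by positivity))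
  have hρ'a : ρ' ≤ Φ (ρ₂ / 2) := by
    rw [hρ']
    exact min_le_left _ _
  have hρ'b : ρ' * (8 * (m + 1)) ≤ ρ ^ (N + 1) := by
    rw [← le_div_iff₀ (by positivity), hρ']
    exact (min_le_right _ _).trans (min_le_left _ _)
  have hρ'd : ρ' * (m + 1) ^ 2 ≤ (ρ₂ / 4) ^ 2 := by
    rw [← le_div_iff₀ (by positivity), hρ']
    exact (min_le_right _ _).trans (min_le_right _ _)
  obtain ⟨κ', hκ'⟩ : ∃ κ' : ℕ, κ' = Ψ κ + (N + 1) * κ + 2 * κ + κ := ⟨_, rfl⟩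
  refine ⟨κ', ρ', hρ'0, fun j' => ?_⟩
  -- the exponents
  choose C A₂ hC hcl using fun (S : Finset (Fin m)) => hclo S (j' + 1)
  choose A K₂ hAK using fun (S : Finset (Fin m)) =>
    hcl S (V j' ((b + 1) * A₂ S))
  obtain ⟨As, hAs⟩ : ∃ As : ℕ, As = ∑ S : Finset (Fin m),
    ((b + 1) * A S + V j' ((b + 1) * A₂ S) + (b + 1) * A₂ S + K₂ S) := ⟨_, rfl⟩
  have hAs' : ∀ S, (b + 1) * A S + V j' ((b + 1) * A₂ S) + (b + 1) * A₂ S + K₂ S ≤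
      As := by
    intro S
    rw [hAs]
    exact Finset.single_le_sum (f := fun S : Finset (Fin m) =>
      ((b + 1) * A S + V j' ((b + 1) * A₂ S) + (b + 1) * A₂ S + K₂ S))
      (fun _ _ => Nat.zero_le _) (Finset.mem_univ S)
  obtain ⟨Cs, hCs⟩ : ∃ Cs : ℝ, Cs = ∑ S : Finset (Fin m), C S := ⟨_, rfl⟩
  have hC0 : ∀ S, 0 ≤ C S := fun S => le_trans zero_le_one (hC S)
  have hCs' : ∀ S, C S ≤ Cs := by
    intro S
    rw [hCs]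
    exact Finset.single_le_sum (f := fun S : Finset (Fin m) => C S) (fun S _ => hC0 S)
      (Finset.mem_univ S)
  have hCs0 : 0 ≤ Cs := by
    rw [hCs]
    exact Finset.sum_nonneg fun S _ => hC0 S
  refine ⟨As + j' + 2 * b + 2, As + j' + 2 * b + 2, κ + κ', min (ρ₂ / 2) ρ',
    ρ ^ (N + 1) / (8 * (N + 1) ^ 2), Cs + 3 * m + 4,
    lt_min (by positivity) hρ'0, by positivity, by linarith only [hCs0], ?_⟩
  intro B hB θ Λ τ₀ hθ hΛ hτ₀ hsep D P hR hNo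
  have hΛ1 : 1 ≤ Λ := by linarith only [hCs0, hΛ]
  have hΛ2 : 2 ≤ Λ := by linarith only [hCs0, hΛ]
  have hΛ0 : 0 < Λ := by linarith only [hCs0, hΛ]
  have hp1 : ∀ n : ℕ, 1 ≤ Λ ^ n := fun n => one_le_pow₀ hΛ1
  have hp0 : ∀ n : ℕ, 0 < Λ ^ n := fun n => pow_pos hΛ0 n
  obtain ⟨τ, hτd⟩ : ∃ τ : ℝ, τ = 1 / Λ ^ (As + j' + 2 * b + 2) := ⟨_, rfl⟩
  rw [← hτd] at hR
  have hτ0 : 0 < τ := by
    rw [hτd]
    exact div_pos one_pos (hp0 _)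
  have hτΛ : ∀ n, n ≤ As + j' + 2 * b + 2 → τ * Λ ^ n ≤ 1 := by
    intro n hn
    rw [hτd, one_div, inv_mul_le_iff₀ (hp0 _), mul_one]
    exact pow_le_pow_right₀ hΛ1 hn
  have hττ₀ : τ₀ ≤ τ := by
    rw [hτd, le_div_iff₀ (hp0 _)]
    exact hτ₀
  obtain ⟨s, hs, hPs⟩ := hR
  have n0 := D.isLaw.nonneg
  obtain ⟨hi, hhi⟩ : ∃ hi : ℕ, hi = V j' ((b + 1) * A₂ P) := ⟨_, rfl⟩
  have hASα := hAs' P
  rw [← hhi] at hASα
  -- the parameter of the elimination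
  obtain ⟨G, hG⟩ : ∃ G : ℝ, G = Λ ^ (b + 1) := ⟨_, rfl⟩
  have hGΛ : Λ ≤ G := by
    rw [hG]
    calc Λ = Λ ^ 1 := (pow_one _).symm
      _ ≤ Λ ^ (b + 1) := pow_le_pow_right₀ hΛ1 (by omega)
  have hG0 : 0 < G := by linarith only [hCs0, hΛ, hGΛ]
  have hGb : Λ ^ b ≤ G := by
    rw [hG]
    exact pow_le_pow_right₀ hΛ1 (by omega)
  have hCΛ : C P ≤ G := by
    have := hCs' P
    linarith only [hΛ, hGΛ, this]
  have hsG : VecF G P s := ⟨fun y π α => (hs.1 y π α).trans hGb, hs.2⟩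
  have hsepG : P2 B.p B.L (fun ω ω' => |B.th ω - B.th ω'| * G < 1) ≤
      ρ ^ (N + 1) / (8 * (N + 1) ^ 2) := by
    refine le_trans ?_ hsep
    unfold P2
    refine Finset.sum_le_sum fun ω _ => Finset.sum_le_sum fun ω' _ => ?_
    have hnn : 0 ≤ B.p ω * B.p ω' / law B.p B.L (B.L ω) :=
      div_nonneg (mul_nonneg (hB.isLaw.nonneg _) (hB.isLaw.nonneg _))
        (law_nonneg hB.isLaw.nonneg _ _)
    by_cases h1 : B.L ω = B.L ω' ∧ |B.th ω - B.th ω'| * G < 1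
    · rw [if_pos h1, if_pos ⟨h1.1, lt_of_le_of_lt
        (mul_le_mul_of_nonneg_left hGΛ (abs_nonneg _)) h1.2⟩]
    · rw [if_neg h1]
      split_ifs
      · exact hnn
      · exact le_rfl
  have hNo' : ∀ {θ' : ℝ} (D'' : Ctx B θ'), θ' ≤ κ' * θ → ∀ β ∉ P,
      ¬ D''.RelR a C₀ τ₀ (insert β P) (Λ ^ (b + 1)) (1 / Λ ^ j') ρ' := by
    intro θ' D'' hcost β hβ hrel
    exact hNo (D''.mono hcost) (insert β P) (Finset.ssubset_insert hβ) (hrel.cost hcost)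
  have hR1 : 1 ≤ Λ ^ (b + 1) := hp1 _
  have h2b : 2 * Λ ^ b ≤ Λ ^ (b + 1) := by
    rw [pow_succ, mul_comm]
    exact mul_le_mul_of_nonneg_left hΛ2 (hp0 _).le
  -- it is closed
  have hclose := hAK P B hB (κ * θ) D s G τ₀ τ ρ (ρ ^ (N + 1) / (8 * (N + 1) ^ 2)) hsG
    hCΛ hτ0 (by
      rw [hG, ← pow_mul]
      exact hτΛ _ (by omega)) hρ hPs hsepG (by
      rw [mul_div_cancel₀]
      positivity)
  rw [← hhi] at hclose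
  have hcase : ∃ F : B.Λ → ℤ → Fin m → Fin m → ℝ[X],
    (∀ l z π α, (F l z π α).natDegree ≤ K₂ P) ∧
    (∀ l z, ∀ π ∈ P, F l z π π = 1) ∧ (∀ l z, ∀ π ∈ P, ∀ α ∈ P, α ≠ π → F l z π α = 0) ∧
    ρ ^ (N + 1) / 2 ≤ Pb D.q (fun w => D.GpR a C₀ τ₀ τ P s w ∧
      ∀ π ∈ P, ∀ α, |s (D.x w) π α -
        (F (B.L (D.pr w)) ⌊B.th (D.pr w) * Λ ^ ((b + 1) * A₂ P)⌋ π
        α).eval (B.th (D.pr w))| * Λ ^ hi ≤ 1) := by
    rcases hclose with ⟨F, h1, h2, h3, h4⟩ | ⟨i, d, hd, h1⟩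
    · refine ⟨F, h1, h2, h3, h4.trans (Pool.MIC.Pb_le_of_imp n0 fun w _ hw =>
        ⟨hw.1, fun π hπ α => ?_⟩)⟩
      have h5 := hw.2 π hπ α
      rw [hG, ← pow_mul, ← hG] at h5
      exact le_trans (mul_le_mul_of_nonneg_left (pow_le_pow_left₀ hΛ0.le hGΛ hi)
        (abs_nonneg _)) h5
    · exfalso
      have hcost : ((N : ℝ) + 1) * (κ * θ) ≤ κ' * θ := by
        rw [hκ']
        push_cast
        have e1 : (0 : ℝ) ≤ Ψ κ * θ := by positivity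
        have e2 : (0 : ℝ) ≤ κ * θ := by positivity
        linarith only [e1, e2]
      have e2 : Λ ^ b * (1 / G ^ (j' + 1)) ≤ 1 / Λ ^ (j' + 1) := by
        rw [mul_one_div, div_le_div_iff₀ (pow_pos hG0 _) (hp0 _), one_mul, hG, ← pow_mul,
          ← pow_add]
        refine pow_le_pow_right₀ hΛ1 ?_
        rw [add_mul, one_mul, mul_add, mul_one]
        omega
      have e3 : 1 / Λ ^ (j' + 1) * 2 ≤ 1 / Λ ^ j' := by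
        rw [pow_succ, div_mul_eq_mul_div, one_mul, div_le_div_iff₀ (by positivity)
          (hp0 _), one_mul, mul_comm]
        exact mul_le_mul_of_nonneg_left hΛ2 (hp0 _).le
      have e4 : 1 / G ^ (j' + 1) ≤ 1 / Λ ^ (j' + 1) := by
        have e5 : 0 ≤ 1 / G ^ (j' + 1) := (div_pos one_pos (pow_pos hG0 _)).le
        have e6 := mul_le_mul_of_nonneg_right (hp1 b) e5
        linarith only [e2, e6]
      have e5 : 0 < 1 / Λ ^ (j' + 1) := div_pos one_pos (hp0 _)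
      have h2 := (D.ms hB N i).absorbR (a := a) (C₀ := C₀) (τ₀ := τ₀) (R := Λ ^ b)
        (R' := Λ ^ (b + 1)) (τ' := 1 / Λ ^ j') (ρ' := ρ') (P := P)
        (hNo' (D.ms hB N i) hcost)
        (s := fun y => s (y i)) (d := d) ⟨fun y π α => hs.1 _ _ _,
          fun y π hπ α hα hne => hs.2 _ π hπ α hα hne⟩
        hd (τ₁ := τ) (τ₂ := 1 / G ^ (j' + 1)) hρ'0.le hR1 h2b (by linarith only [e3, e4, e5]) (by
          have e1 : τ ≤ 1 / Λ ^ (j' + 1) := by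
            rw [le_div_iff₀ (hp0 _)]
            exact hτΛ _ (by omega)
          linarith only [e2, e3, e1])
      have h3 := h1.trans h2
      have h4 : (m : ℝ) * ρ' < ρ ^ (N + 1) / 8 := by
        linarith only [hB, hρ'0, hρ'b, h1, h2]
      linarith only [hB, hρ'0, hρ'b, h1, h2]
  obtain ⟨F, hF1, hF2, hF3, hF4⟩ := hcase
  -- it is visible
  have hvis : ∃ sv : B.Ξ → Fin m → Fin m → ℝ, VecF (Λ ^ b) P sv ∧
      Pb D.q (fun w => D.GpR a C₀ τ₀ τ P s w ∧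
        ¬ ((∀ π ∈ P, sv (B.pt (D.pr w)) π π = 1) ∧
          ∀ π ∈ P, ∀ β, |s (D.x w) π β - sv (B.pt (D.pr w)) π β| ≤ 1 / Λ ^ hi)) ≤
        Real.sqrt (m * (m * ρ')) := by
    have hcost : 2 * ((κ : ℝ) * θ) ≤ κ' * θ := by
      rw [hκ']
      push_cast
      have e1 : (0 : ℝ) ≤ Ψ κ * θ := by positivity
      have e2 : (0 : ℝ) ≤ κ * θ := by positivity
      have e3 : (0 : ℝ) ≤ N * (κ * θ) := by positivity
      linarith only [e1, e2, e3]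
    -- the tolerances
    obtain ⟨n, hn⟩ : ∃ n : ℕ, n = hi + j' + 2 * b + 2 := ⟨_, rfl⟩
    have e1 : τ ≤ 1 / Λ ^ n := by
      rw [le_div_iff₀ (hp0 _)]
      exact hτΛ _ (by omega)
    have e2 : τ₀ ≤ 1 / Λ ^ n := hττ₀.trans e1
    have e0 : 0 < 1 / Λ ^ n := div_pos one_pos (hp0 _)
    have e3 : τ + 2 * m * (Λ ^ b * τ₀) + m * (Λ ^ b * τ) ≤
        (1 + 3 * m) * (Λ ^ b * (1 / Λ ^ n)) := by
      have e4 : Λ ^ b * τ₀ ≤ Λ ^ b * (1 / Λ ^ n) :=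
        mul_le_mul_of_nonneg_left e2 (hp0 _).le
      have e4' : Λ ^ b * τ ≤ Λ ^ b * (1 / Λ ^ n) :=
        mul_le_mul_of_nonneg_left e1 (hp0 _).le
      have e5 : 2 * (m : ℝ) * (Λ ^ b * τ₀) ≤ 2 * m * (Λ ^ b * (1 / Λ ^ n)) :=
        mul_le_mul_of_nonneg_left e4 (by positivity)
      have e5' : (m : ℝ) * (Λ ^ b * τ) ≤ m * (Λ ^ b * (1 / Λ ^ n)) :=
        mul_le_mul_of_nonneg_left e4' hm0
      have e6 : τ ≤ Λ ^ b * (1 / Λ ^ n) := by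
        refine e1.trans ?_
        have e8 := mul_le_mul_of_nonneg_right (hp1 b) e0.le
        linarith only [e8]
      linarith only [e5, e5', e6]
    obtain ⟨X, hX⟩ : ∃ X : ℝ, X = (τ + 2 * m * (Λ ^ b * τ₀) + m * (Λ ^ b * τ)) /
      (1 / Λ ^ hi) := ⟨_, rfl⟩
    have e4 : Λ ^ b * X ≤ (1 + 3 * m) * (1 / Λ ^ (j' + 2)) := by
      have e5 : Λ ^ b * (((1 + 3 * m) * (Λ ^ b * (1 / Λ ^ n))) / (1 / Λ ^ hi)) =
          (1 + 3 * m) * (1 / Λ ^ (j' + 2)) := by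
        have e6 : Λ ^ n = Λ ^ hi * Λ ^ (j' + 2) * Λ ^ b * Λ ^ b := by
          rw [← pow_add, ← pow_add, ← pow_add, hn]
          congr 1
          omega
        rw [e6]
        field_simp
      rw [← e5, hX]
      exact mul_le_mul_of_nonneg_left (div_le_div_of_nonneg_right e3
        (div_pos one_pos (hp0 _)).le) (hp0 _).le
    have e5 : τ ≤ 1 / Λ ^ (j' + 2) := by
      rw [le_div_iff₀ (hp0 _)]
      exact hτΛ _ (by omega)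
    have e6 : 1 / Λ ^ (j' + 2) * (2 + 3 * m) ≤ 1 / Λ ^ j' := by
      have e7 : (2 : ℝ) + 3 * m ≤ Λ ^ 2 := by
        have e8 : Λ * 1 ≤ Λ * Λ := mul_le_mul_of_nonneg_left hΛ1 hΛ0.le
        rw [sq]
        linarith only [hCs0, hΛ, e8]
      rw [pow_add, div_mul_eq_mul_div, one_mul, div_le_div_iff₀ (by positivity)
        (hp0 _), one_mul, mul_comm]
      exact mul_le_mul_of_nonneg_left e7 (hp0 _).le
    have e7 : τ + Λ ^ b * X ≤ 1 / Λ ^ j' := by linarith only [e4, e5, e6]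
    have e8 : X ≤ 1 / Λ ^ j' := by
      rcases le_or_gt X 0 with h1 | h1
      · exact h1.trans (div_pos one_pos (hp0 _)).le
      · have h2 := mul_le_mul_of_nonneg_right (hp1 b) h1.le
        linarith only [hτ0, e4, e5, e6, h2]
    refine D.visR hB (τ' := 1 / Λ ^ j') (ρ' := ρ') (R' := Λ ^ (b + 1))
      (hNo' (D.gl D hB) hcost) hs (div_pos one_pos (hp0 _)) hρ'0.le hR1 h2b hτ0.le ?_ ?_
    · rw [← hX]
      exact e8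
    · rw [← hX]
      exact e7
  obtain ⟨sv, hsv, hPv⟩ := hvis
  obtain ⟨Fin', hFin⟩ : ∃ Fin' : D.W → Prop, Fin' = fun w =>
    D.GpR a C₀ τ₀ (1 / Λ ^ hi) P s w ∧
    (∀ π ∈ P, sv (B.pt (D.pr w)) π π = 1) ∧
    (∀ π ∈ P, ∀ β, |s (D.x w) π β - sv (B.pt (D.pr w)) π β| * Λ ^ hi ≤ 1) ∧
    ∀ π ∈ P, ∀ β, |s (D.x w) π β -
      (F (B.L (D.pr w)) ⌊B.th (D.pr w) * Λ ^ ((b + 1) * A₂ P)⌋ π β).eval
      (B.th (D.pr w))| * Λ ^ hi ≤ 1 := ⟨_, rfl⟩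
  obtain ⟨Nv, hNv⟩ : ∃ Nv : D.W → Prop, Nv = fun w => D.GpR a C₀ τ₀ τ P s w ∧
        ¬ ((∀ π ∈ P, sv (B.pt (D.pr w)) π π = 1) ∧
          ∀ π ∈ P, ∀ β, |s (D.x w) π β - sv (B.pt (D.pr w)) π β| ≤ 1 / Λ ^ hi) := ⟨_, rfl⟩
  have hNvP : Pb D.q Nv ≤ ρ₂ / 4 := by
    rw [hNv]
    refine hPv.trans ?_
    have e1 : (m : ℝ) * (m * ρ') ≤ (ρ₂ / 4) ^ 2 := by
      have e2 : (m : ℝ) * (m * ρ') ≤ ρ' * (m + 1) ^ 2 := by
        have e3 : 0 ≤ ρ' * m := by positivity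
        have e4 : ρ' * ((m : ℝ) + 1) ^ 2 = m * (m * ρ') + (2 * (ρ' * m) + ρ') := by ring
        rw [e4]
        linarith only [hρ'0, e3]
      linarith only [hρ'd, e2]
    exact (Real.sqrt_le_sqrt e1).trans_eq (Real.sqrt_sq (by positivity))
  have hτhi : τ ≤ 1 / Λ ^ hi := by
    rw [le_div_iff₀ (hp0 _)]
    exact hτΛ _ (by omega)
  have hmain : ρ₂ / 2 ≤ Pb D.q Fin' := by
    have e1 : ρ₂ ≤ Pb D.q (fun w => Fin' w ∨ Nv w) := by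
      rw [hρ₂]
      refine hF4.trans (Pool.MIC.Pb_le_of_imp n0 fun w _ hw => ?_)
      obtain ⟨g1, g2⟩ := hw
      by_cases h2 : Nv w
      · exact Or.inr h2
      left
      rw [hNv] at h2
      push Not at h2
      obtain ⟨h3, h4⟩ := h2 g1
      rw [hFin]
      refine ⟨⟨g1.1, fun π hπ => ⟨(g1.2 π hπ).1, fun l => ((g1.2 π hπ).2 l).trans hτhi⟩⟩,
        h3, fun π hπ β => ?_, g2⟩
      have h5 := h4 π hπ β
      rwa [le_div_iff₀ (hp0 _)] at h5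
    have e2 := Pool.GLB.Pb_two n0 Fin' Nv
    linarith only [hρ₂0, hNvP, e1, e2]
  refine ⟨κ, κ', b, j', hi, (b + 1) * A₂ P, K₂ P, ρ₂ / 2, ρ', P, D, s, sv, F,
    by omega, by omega, by omega, by omega, by omega, by omega, by omega, hhi.ge,
    min_le_left _ _, min_le_right _ _, hρ'a, le_rfl, Finset.Subset.refl _,
    ⟨hs, hsv, hF1, hF2, hF3, ?_⟩, hNo⟩
  rw [hFin] at hmain
  exact hmain

/-- **The relation engine for spaces of relations.** -/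
theorem engR (h m c : ℕ) (NN : Finset (Fin h →₀ ℕ)) (a : Fin c → {γ // γ ∈ NN} → Fin m → ℝ[X])
    (C₀ : ℝ) (hC₀ : 1 ≤ C₀) (V : ℕ → ℕ → ℕ) (Φ : ℝ → ℝ)
    (hΦ : ∀ x, 0 < x → 0 < Φ x) (Ψ : ℕ → ℕ) (k : ℕ) : ∀ (κ b : ℕ) (ρ : ℝ), 0 < ρ →
    ∃ (j Am κm : ℕ) (c₁ e₀ Λ₀ : ℝ), 0 < c₁ ∧ 0 < e₀ ∧ 1 ≤ Λ₀ ∧
    ∀ (B : Bd h m c) (_ : B.Ok) (θ Λ τ₀ : ℝ), 0 ≤ θ → Λ₀ ≤ Λ → τ₀ * Λ ^ Am ≤ 1 →
      P2 B.p B.L (fun ω ω' => |B.th ω - B.th ω'| * Λ < 1) ≤ e₀ →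
      ∀ (D : Ctx B (κ * θ)) (P : Finset (Fin m)), m ≤ P.card + k →
      D.RelR a C₀ τ₀ P (Λ ^ b) (1 / Λ ^ j) ρ →
      ConcR a C₀ P V Φ Ψ (b + k) Am κm c₁ B θ Λ τ₀ := by
  classical
  induction k with
  | zero =>
    intro κ b ρ hρ
    obtain ⟨κ', ρ', hρ', H⟩ := coreR h m c NN a C₀ hC₀ V Φ hΦ Ψ κ b ρ hρ
    obtain ⟨j, Am, κm, c₁, e₀, Λ₀, hc₁, he₀, hΛ₀, H1⟩ := H 0
    refine ⟨j, Am, κm, c₁, e₀, Λ₀, hc₁, he₀, hΛ₀, ?_⟩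
    intro B hB θ Λ τ₀ hθ hΛ hτ₀ hsep D P hP hR
    refine (H1 B hB θ Λ τ₀ hθ hΛ hτ₀ hsep D P hR ?_)
    intro D'' P'' hPP
    exfalso
    have h1 := Finset.card_lt_card hPP
    have h2 := Finset.card_le_univ P''
    rw [Fintype.card_fin] at h2
    omega
  | succ k ih =>
    intro κ b ρ hρ
    obtain ⟨κ', ρ', hρ', H⟩ := coreR h m c NN a C₀ hC₀ V Φ hΦ Ψ κ b ρ hρ
    obtain ⟨j', Am', κm', c₁', e₀', Λ₀', hc₁', he₀', hΛ₀', IH⟩ := ih κ' (b + 1) ρ' hρ'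
    obtain ⟨j, Am, κm, c₁, e₀, Λ₀, hc₁, he₀, hΛ₀, H1⟩ := H j'
    refine ⟨j, Am + Am', κm + κm', min c₁ c₁', min e₀ e₀', max Λ₀ Λ₀',
      lt_min hc₁ hc₁', lt_min he₀ he₀', hΛ₀.trans (le_max_left _ _), ?_⟩
    intro B hB θ Λ τ₀ hθ hΛ hτ₀ hsep D P hP hR
    have hΛ1 : 1 ≤ Λ := hΛ₀.trans ((le_max_left _ _).trans hΛ)
    have hτm : ∀ n, n ≤ Am + Am' → τ₀ * Λ ^ n ≤ 1 := by
      intro n hn
      rcases le_or_gt τ₀ 0 with h1 | h1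
      · exact le_trans (mul_nonpos_of_nonpos_of_nonneg h1 (by positivity)) zero_le_one
      · exact le_trans (mul_le_mul_of_nonneg_left (pow_le_pow_right₀ hΛ1 hn) h1.le) hτ₀
    by_cases hex : ∃ (D'' : Ctx B (κ' * θ)) (P'' : Finset (Fin m)), P ⊂ P'' ∧
        D''.RelR a C₀ τ₀ P'' (Λ ^ (b + 1)) (1 / Λ ^ j') ρ'
    · obtain ⟨D'', P'', hPP, hR''⟩ := hex
      have h1 := Finset.card_lt_card hPP
      exact (IH B hB θ Λ τ₀ hθ ((le_max_right _ _).trans hΛ) (hτm _ (by omega))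
        (hsep.trans (min_le_right _ _)) D'' P'' (by omega) hR'').mono hPP.1 (by omega)
        (by omega) (by omega) (min_le_right _ _)
    · refine (H1 B hB θ Λ τ₀ hθ ((le_max_left _ _).trans hΛ) (hτm _ (by omega))
        (hsep.trans (min_le_left _ _)) D P hR ?_).mono (Finset.Subset.refl _) (by omega)
        (by omega) (by omega) (min_le_left _ _)
      intro D'' P'' hPP hR''
      exact hex ⟨D'', P'', hPP, hR''⟩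

end

end Pool.REL
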