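import Pool.Agent.H50.REL.Vis

/-!
# Restriction of the unknowns to a set, the right side, the time as a function of the context
-/

set_option autoImplicit false

namespace Pool.REL

open Finset Polynomial
open Pool.Agent.H49.Ent Pool.Agent.H32.Dense Pool.STK Pool.BFL Pool.GLB Pool.CLU
open Pool.K2S (cpn)

section

variable {h m c : ℕ} {NN : Finset (Fin h →₀ ℕ)}

/-- The embedding of the set. -/
noncomputable def em (S : Finset (Fin m)) (i : Fin S.card) : Fin m := (S.equivFin.symm i : Fin m)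

theorem em_mem (S : Finset (Fin m)) (i : Fin S.card) : em S i ∈ S := (S.equivFin.symm i).2

theorem em_inj (S : Finset (Fin m)) : Function.Injective (em S) := fun i j hij =>
  S.equivFin.symm.injective (Subtype.ext hij)

theorem em_surj (S : Finset (Fin m)) {α : Fin m} (hα : α ∈ S) : ∃ i, em S i = α :=
  ⟨S.equivFin ⟨α, hα⟩, by
    unfold em
    rw [Equiv.symm_apply_apply]⟩

open Classical in
/-- The extension by zero. -/
noncomputable def ext (S : Finset (Fin m)) (u : Fin S.card → ℝ) (α : Fin m) : ℝ :=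
  if hα : α ∈ S then u (S.equivFin ⟨α, hα⟩) else 0

theorem ext_em (S : Finset (Fin m)) (u : Fin S.card → ℝ) (i : Fin S.card) :
    ext S u (em S i) = u i := by
  unfold ext
  rw [dif_pos (em_mem S i)]
  congr 1
  have h1 : (⟨em S i, em_mem S i⟩ : {x // x ∈ S}) = S.equivFin.symm i := Subtype.ext rfl
  rw [h1, Equiv.apply_symm_apply]

theorem ext_out (S : Finset (Fin m)) (u : Fin S.card → ℝ) {α : Fin m} (hα : α ∉ S) :
    ext S u α = 0 := by
  unfold ext
  rw [dif_neg hα]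

theorem ext_bd (S : Finset (Fin m)) {u : Fin S.card → ℝ} {b : ℝ} (hb : 0 ≤ b)
    (hu : ∀ i, |u i| ≤ b) (α : Fin m) : |ext S u α| ≤ b := by
  unfold ext
  split_ifs
  · exact hu _
  · rw [abs_zero]
    exact hb

/-- The restricted equations. -/
noncomputable def ra (S : Finset (Fin m)) (a : Fin c → {γ // γ ∈ NN} → Fin m → ℝ[X]) :
    Fin c → {γ // γ ∈ NN} → Fin S.card → ℝ[X] := fun l γ i => a l γ (em S i)

theorem ev_ext (S : Finset (Fin m)) (a : Fin c → {γ // γ ∈ NN} → Fin m → ℝ[X])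
    (β : Fin h → ℝ) (T : ℝ) (u : Fin S.card → ℝ) (l : Fin c) :
    Pool.GLB.ev (ra S a) β T u l = Pool.GLB.ev a β T (ext S u) l := by
  unfold Pool.GLB.ev ra
  refine Finset.sum_congr rfl fun γ _ => ?_
  congr 1
  have h1 : ∑ α, (a l γ α).eval T * ext S u α =
      ∑ α ∈ S, (a l γ α).eval T * ext S u α := by
    symm
    refine Finset.sum_subset (Finset.subset_univ S) fun α _ hα => ?_
    rw [ext_out S u hα, mul_zero]
  rw [h1, ← Finset.sum_coe_sort S, ← (S.equivFin.symm).sum_comp]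
  refine Finset.sum_congr rfl fun i _ => ?_
  have h2 := ext_em S u i
  unfold em at h2
  rw [h2]
  rfl

theorem split_piv {S : Finset (Fin m)} {α₀ : Fin m} {s : Fin m → ℝ}
    (hs : ∀ α ∉ S, s α = 0) : ext (S.erase α₀) (fun i => s (em (S.erase α₀) i)) =
      s - s α₀ • (Pi.single α₀ (1 : ℝ) : Fin m → ℝ) := by
  funext α
  rw [Pi.sub_apply, Pi.smul_apply]
  by_cases h1 : α = α₀
  · rw [h1, ext_out _ _ (Finset.notMem_erase α₀ S), Pi.single_eq_same, smul_eq_mul, mul_one,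
      sub_self]
  · rw [Pi.single_eq_of_ne h1, smul_zero, sub_zero]
    by_cases h2 : α ∈ S
    · obtain ⟨i, hi⟩ := em_surj (S.erase α₀) (Finset.mem_erase.2 ⟨h1, h2⟩)
      rw [← hi, ext_em]
    · rw [hs α h2, ext_out]
      exact fun h3 => h2 (Finset.mem_erase.1 h3).2

/-- The right side. -/
noncomputable def rh (a : Fin c → {γ // γ ∈ NN} → Fin m → ℝ[X]) (α₀ : Fin m) (β : Fin h → ℝ)
    (l : Fin c) : ℝ[X] := -∑ γ : {γ // γ ∈ NN}, a l γ α₀ * C (γ.1.prod fun i d => β i ^ d)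

theorem rh_eval (a : Fin c → {γ // γ ∈ NN} → Fin m → ℝ[X]) (α₀ : Fin m) (β : Fin h → ℝ)
    (T : ℝ) (l : Fin c) :
    (rh a α₀ β l).eval T = -Pool.GLB.ev a β T (Pi.single α₀ 1) l := by
  unfold rh Pool.GLB.ev
  rw [Polynomial.eval_neg, Polynomial.eval_finsetSum]
  congr 1
  refine Finset.sum_congr rfl fun γ _ => ?_
  rw [Polynomial.eval_mul, Polynomial.eval_C]
  congr 1
  rw [Finset.sum_eq_single α₀]
  · rw [Pi.single_eq_same, mul_one]
  · intro α' _ hne
    rw [Pi.single_eq_of_ne hne, mul_zero]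
  · intro hh
    exact absurd (Finset.mem_univ α₀) hh

theorem rh_deg {a : Fin c → {γ // γ ∈ NN} → Fin m → ℝ[X]} {e : ℕ}
    (he : ∀ l γ α, (a l γ α).natDegree ≤ e) (α₀ : Fin m) (β : Fin h → ℝ) (l : Fin c) :
    (rh a α₀ β l).degree < ((e + 1 : ℕ) : WithBot ℕ) := by
  have h1 : (rh a α₀ β l).natDegree ≤ e := by
    unfold rh
    rw [Polynomial.natDegree_neg]
    refine Polynomial.natDegree_sum_le_of_forall_le _ _ fun γ _ => ?_
    refine Polynomial.natDegree_mul_le.trans ?_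
    rw [Polynomial.natDegree_C, add_zero]
    exact he l γ α₀
  refine lt_of_le_of_lt Polynomial.degree_le_natDegree ?_
  exact_mod_cast Nat.lt_succ_of_le h1

/-! ### The time -/

variable {B : Bd h m c} {θ : ℝ}

open Classical in
/-- The time as a function of the context. -/
noncomputable def Ctx.tt (D : Ctx B θ) (y : D.G) : ℝ :=
  if hy : ∃ w, 0 < D.q w ∧ D.x w = y then B.th (D.pr hy.choose) else 0

theorem Ctx.tt_eq (D : Ctx B θ) {w : D.W} (hw : 0 < D.q w) : D.tt (D.x w) = B.th (D.pr w) := by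
  have hy : ∃ w', 0 < D.q w' ∧ D.x w' = D.x w := ⟨w, hw, rfl⟩
  unfold Ctx.tt
  rw [dif_pos hy]
  exact D.x_t _ _ hy.choose_spec.1 hw hy.choose_spec.2

/-! ### Pairs of copies -/

theorem P2_marg {Ω Ω' T : Type} [Fintype Ω] [Fintype Ω'] {q : Ω' → ℝ} {p : Ω → ℝ}
    {pr : Ω' → Ω} (hm : Marg q p pr) (l : Ω → T) (A : Ω → Ω → Prop) :
    P2 q (fun w => l (pr w)) (fun w w' => A (pr w) (pr w')) = P2 p l A := by
  classical
  obtain ⟨f, hf⟩ : ∃ f : Ω → Ω → ℝ, f = fun ω ω' =>
    if l ω = l ω' ∧ A ω ω' then 1 / law p l (l ω) else 0 := ⟨_, rfl⟩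
  have h1 : P2 p l A = ∑ ω, p ω * ∑ ω', p ω' * f ω ω' := by
    unfold P2
    refine Finset.sum_congr rfl fun ω _ => ?_
    rw [Finset.mul_sum]
    refine Finset.sum_congr rfl fun ω' _ => ?_
    rw [hf]
    simp only
    split_ifs
    · ring
    · ring
  have h2 : P2 q (fun w => l (pr w)) (fun w w' => A (pr w) (pr w')) =
      ∑ w, q w * ∑ w', q w' * f (pr w) (pr w') := by
    unfold P2
    refine Finset.sum_congr rfl fun w _ => ?_
    rw [Finset.mul_sum]
    refine Finset.sum_congr rfl fun w' _ => ?_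
    rw [hf]
    simp only
    by_cases h3 : l (pr w) = l (pr w') ∧ A (pr w) (pr w')
    · rw [if_pos h3, if_pos h3, hm.law l]
      ring
    · rw [if_neg h3, if_neg h3]
      ring
  rw [h1, h2]
  have h3 : ∀ w, ∑ w', q w' * f (pr w) (pr w') = ∑ ω', p ω' * f (pr w) ω' := fun w =>
    hm.ex (fun ω' => f (pr w) ω')
  rw [Finset.sum_congr rfl fun w _ => by rw [h3 w]]
  exact hm.ex (fun ω => ∑ ω', p ω' * f ω ω')

end

end Pool.REL
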