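import Pool.Agent.H50.REL.UniN

/-!
# Spaces of relations

`RelR`: a family of relations `s π` (`π ∈ P`) in echelon form: `s π π = 1`, `s π = 0` on the rest of
`P`, of size at most `R`, all valid on one event. If there is none with a larger set `P`, then every
relation is a combination of the `s π`, and they are functions of the exact point.
-/

set_option autoImplicit false

namespace Pool.REL

open Finset Polynomial
open Pool.Agent.H49.Ent Pool.Agent.H32.Dense Pool.STK Pool.BFL Pool.GLB Pool.CLU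
open Pool.K2S (cpn)

section

variable {h m c : ℕ} {NN : Finset (Fin h →₀ ℕ)} {B : Bd h m c} {θ : ℝ}

/-- Families of vectors in echelon form. -/
def VecF {G : Type} (R : ℝ) (P : Finset (Fin m)) (s : G → Fin m → Fin m → ℝ) : Prop :=
  (∀ y π α, |s y π α| ≤ R) ∧ ∀ y, ∀ π ∈ P, ∀ α ∈ P, α ≠ π → s y π α = 0

/-- The good samples of a family. -/
def Ctx.GpR (D : Ctx B θ) (a : Fin c → {γ // γ ∈ NN} → Fin m → ℝ[X]) (C₀ τ₀ τ : ℝ)
    (P : Finset (Fin m)) (s : D.G → Fin m → Fin m → ℝ) (w : D.W) : Prop :=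
  B.Ty a C₀ τ₀ (D.pr w) ∧ ∀ π ∈ P, s (D.x w) π π = 1 ∧
    ∀ l, |B.ev a (D.pr w) (s (D.x w) π) l| ≤ τ

/-- **A space of relations.** -/
def Ctx.RelR (D : Ctx B θ) (a : Fin c → {γ // γ ∈ NN} → Fin m → ℝ[X]) (C₀ τ₀ : ℝ)
    (P : Finset (Fin m)) (R τ ρ : ℝ) : Prop :=
  ∃ s : D.G → Fin m → Fin m → ℝ, VecF R P s ∧ ρ ≤ Pb D.q (D.GpR a C₀ τ₀ τ P s)

theorem Ctx.RelR.mono {D : Ctx B θ} {a : Fin c → {γ // γ ∈ NN} → Fin m → ℝ[X]} {C₀ τ₀ : ℝ}
    {P : Finset (Fin m)} {R τ ρ R' τ' ρ' : ℝ} (hR : D.RelR a C₀ τ₀ P R τ ρ)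
    (hRR : R ≤ R') (hτ : τ ≤ τ') (hρ : ρ' ≤ ρ) : D.RelR a C₀ τ₀ P R' τ' ρ' := by
  obtain ⟨s, h1, h3⟩ := hR
  refine ⟨s, ⟨fun y π α => (h1.1 y π α).trans hRR, h1.2⟩, hρ.trans (h3.trans ?_)⟩
  exact Pool.MIC.Pb_le_of_imp D.isLaw.nonneg fun w _ hw =>
    ⟨hw.1, fun π hπ => ⟨(hw.2 π hπ).1, fun l => ((hw.2 π hπ).2 l).trans hτ⟩⟩

theorem Ctx.RelR.cost {D : Ctx B θ} {a : Fin c → {γ // γ ∈ NN} → Fin m → ℝ[X]} {C₀ τ₀ : ℝ}
    {P : Finset (Fin m)} {R τ ρ θ' : ℝ} (hR : D.RelR a C₀ τ₀ P R τ ρ)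
    (hθ : θ ≤ θ') : (D.mono hθ).RelR a C₀ τ₀ P R τ ρ := hR

/-- **A relation off the pivots enlarges the family.** -/
theorem Ctx.absorbR (D : Ctx B θ) {a : Fin c → {γ // γ ∈ NN} → Fin m → ℝ[X]}
    {C₀ τ₀ R R' τ' ρ' : ℝ} {P : Finset (Fin m)}
    (hNo : ∀ β ∉ P, ¬ D.RelR a C₀ τ₀ (insert β P) R' τ' ρ')
    {s : D.G → Fin m → Fin m → ℝ} {d : D.G → Fin m → ℝ} (hs : VecF R P s) (hd : VecR 1 Pᶜ d)
    {τ₁ τ₂ : ℝ} (hρ' : 0 ≤ ρ') (hR1 : 1 ≤ R') (hRR : 2 * R ≤ R') (hτ2 : τ₂ ≤ τ')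
    (hτ : τ₁ + R * τ₂ ≤ τ') :
    Pb D.q (fun w => D.GpR a C₀ τ₀ τ₁ P s w ∧ (∃ β, |d (D.x w) β| = 1) ∧
      ∀ l, |B.ev a (D.pr w) (d (D.x w)) l| ≤ τ₂) ≤ m * ρ' := by
  classical
  have n0 := D.isLaw.nonneg
  obtain ⟨E, hE⟩ : ∃ E : Fin m → D.W → Prop, E = fun β w => D.GpR a C₀ τ₀ τ₁ P s w ∧
    |d (D.x w) β| = 1 ∧ ∀ l, |B.ev a (D.pr w) (d (D.x w)) l| ≤ τ₂ := ⟨_, rfl⟩
  have h1 : Pb D.q (fun w => D.GpR a C₀ τ₀ τ₁ P s w ∧ (∃ β, |d (D.x w) β| = 1) ∧
      ∀ l, |B.ev a (D.pr w) (d (D.x w)) l| ≤ τ₂) ≤ ∑ β, Pb D.q (E β) := by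
    refine le_trans ?_ (Pool.MIC.Pb_exists_le n0 E)
    refine Pool.MIC.Pb_le_of_imp n0 fun w _ hw => ?_
    obtain ⟨g1, ⟨β, g2⟩, g3⟩ := hw
    refine ⟨β, ?_⟩
    rw [hE]
    exact ⟨g1, g2, g3⟩
  refine h1.trans ?_
  have h2 : ∀ β ∈ (univ : Finset (Fin m)), Pb D.q (E β) ≤ ρ' := by
    intro β _
    by_cases hβ : β ∈ P
    · refine le_trans (le_of_eq ?_) hρ'
      unfold Pb
      refine Finset.sum_eq_zero fun w _ => ?_
      rw [if_neg]
      rw [hE]
      intro hh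
      have h3 := hh.2.1
      rw [hd.2 _ _ (by simpa using hβ), abs_zero] at h3
      exact zero_ne_one h3
    · by_contra hcon
      push Not at hcon
      have hm : ∀ y α, |d y β * d y α| ≤ 1 := by
        intro y α
        rw [abs_mul]
        exact mul_le_one₀ (hd.1 _ _) (abs_nonneg _) (hd.1 _ _)
      obtain ⟨s', hs'⟩ : ∃ s' : D.G → Fin m → Fin m → ℝ, s' = fun y π =>
        if |d y β| = 1 then (if π = β then (d y β) • d y else
          s y π - (s y π β * d y β) • d y) else 0 := ⟨_, rfl⟩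
      have hd0 : ∀ y, ∀ α ∈ P, d y α = 0 := fun y α hα => hd.2 y α (by simpa using hα)
      refine hNo β hβ ⟨s', ⟨?_, ?_⟩, hcon.le.trans ?_⟩
      · intro y π α
        have hR0 : 0 ≤ R := (abs_nonneg _).trans (hs.1 y π α)
        rw [hs']
        simp only
        split_ifs with hc hπ
        · rw [Pi.smul_apply, smul_eq_mul]
          exact (hm y α).trans hR1
        · rw [Pi.sub_apply, Pi.smul_apply, smul_eq_mul, mul_assoc]
          refine (abs_sub _ _).trans ?_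
          rw [abs_mul]
          have h3 : |s y π β| * |d y β * d y α| ≤ R * 1 :=
            mul_le_mul (hs.1 _ _ _) (hm y α) (abs_nonneg _) hR0
          have h4 := hs.1 y π α
          linarith
        · rw [Pi.zero_apply, abs_zero]
          linarith
      · intro y π hπ α hα hne
        rw [hs']
        simp only
        split_ifs with hc hπβ
        · rw [Pi.smul_apply, smul_eq_mul]
          rcases Finset.mem_insert.1 hα with h3 | h3
          · exact absurd (h3.trans hπβ.symm) hne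
          · rw [hd0 y α h3, mul_zero]
        · have hπP : π ∈ P := (Finset.mem_insert.1 hπ).resolve_left hπβ
          rw [Pi.sub_apply, Pi.smul_apply, smul_eq_mul]
          rcases Finset.mem_insert.1 hα with h3 | h3
          · have h4 : d y β * d y β = 1 := by
              rw [← abs_mul_abs_self, hc, mul_one]
            rw [h3, mul_assoc, h4, mul_one, sub_self]
          · rw [hd0 y α h3, mul_zero, sub_zero]
            exact hs.2 y π hπP α h3 hne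
        · rfl
      · refine Pool.MIC.Pb_le_of_imp n0 fun w _ hw => ?_
        rw [hE] at hw
        obtain ⟨g1, g2, g3⟩ := hw
        refine ⟨g1.1, fun π hπ => ?_⟩
        by_cases hπβ : π = β
        · have e1 : s' (D.x w) π = (d (D.x w) β) • d (D.x w) := by
            rw [hs']
            simp only
            rw [if_pos g2, if_pos hπβ]
          rw [e1]
          refine ⟨?_, fun l => ?_⟩
          · rw [Pi.smul_apply, smul_eq_mul, hπβ, ← abs_mul_abs_self, g2, mul_one]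
          · rw [B.ev_smul, abs_mul, g2, one_mul]
            exact (g3 l).trans hτ2
        · have hπP : π ∈ P := (Finset.mem_insert.1 hπ).resolve_left hπβ
          have e1 : s' (D.x w) π = s (D.x w) π - (s (D.x w) π β * d (D.x w) β) • d (D.x w) := by
            rw [hs']
            simp only
            rw [if_pos g2, if_neg hπβ]
          rw [e1]
          refine ⟨?_, fun l => ?_⟩
          · rw [Pi.sub_apply, Pi.smul_apply, smul_eq_mul, hd0 _ π hπP, mul_zero, sub_zero]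
            exact (g1.2 π hπP).1
          · rw [B.ev_sub, B.ev_smul]
            refine (abs_sub _ _).trans (le_trans ?_ hτ)
            refine add_le_add ((g1.2 π hπP).2 l) ?_
            rw [abs_mul, abs_mul, g2, mul_one]
            exact mul_le_mul (hs.1 _ _ _) (g3 l) (abs_nonneg _)
              ((abs_nonneg _).trans (hs.1 (D.x w) π β))
  exact by
   refine (Finset.sum_le_sum h2).trans (le_of_eq ?_)
   rw [Finset.sum_const, Finset.card_univ, Fintype.card_fin, nsmul_eq_mul]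

/-- The rest of a vector modulo the family. -/
noncomputable def rest {G : Type} (P : Finset (Fin m)) (s : G → Fin m → Fin m → ℝ)
    (t : G → Fin m → ℝ) (y : G) : Fin m → ℝ := t y - ∑ π ∈ P, t y π • s y π

theorem rest_one {P : Finset (Fin m)} {S : Fin m → Fin m → ℝ} {t : Fin m → ℝ} {π : Fin m}
    (hπ : π ∈ P) (h1 : t π = 1) (h0 : ∀ π' ∈ P, π' ≠ π → t π' = 0) :
    t - ∑ π' ∈ P, t π' • S π' = t - S π := by
  rw [Finset.sum_eq_single π]
  · rw [h1, one_smul]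
  · intro π' hπ' hne
    rw [h0 π' hπ' hne, zero_smul]
  · intro hh
    exact absurd hπ hh

/-- **Every relation is a combination of the family.** -/
theorem Ctx.span (D : Ctx B θ) {a : Fin c → {γ // γ ∈ NN} → Fin m → ℝ[X]}
    {C₀ τ₀ R R' τ' ρ' : ℝ} {P : Finset (Fin m)}
    (hNo : ∀ β ∉ P, ¬ D.RelR a C₀ τ₀ (insert β P) R' τ' ρ')
    {s : D.G → Fin m → Fin m → ℝ} {t : D.G → Fin m → ℝ} (hs : VecF R P s)
    {τ₁ τ₂ δ Q : ℝ} (hδ : 0 < δ) (hρ' : 0 ≤ ρ') (hR1 : 1 ≤ R') (hRR : 2 * R ≤ R')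
    (hτ1 : 0 ≤ τ₁) (hτ2 : (τ₂ + m * (Q * τ₁)) / δ ≤ τ') (hτ : τ₁ + R * ((τ₂ + m * (Q * τ₁)) / δ) ≤ τ') :
    Pb D.q (fun w => D.GpR a C₀ τ₀ τ₁ P s w ∧ (∀ α, |t (D.x w) α| ≤ Q) ∧
      (∀ l, |B.ev a (D.pr w) (t (D.x w)) l| ≤ τ₂) ∧
      ∃ β, δ < |rest P s t (D.x w) β|) ≤ m * ρ' := by
  classical
  have n0 := D.isLaw.nonneg
  obtain ⟨d, hd⟩ : ∃ d : D.G → Fin m → ℝ, d = fun y =>
    if (∀ π ∈ P, s y π π = 1) ∧ 0 < ‖rest P s t y‖ then
    ‖rest P s t y‖⁻¹ • rest P s t y else 0 := ⟨_, rfl⟩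
  have hdv : VecR 1 Pᶜ d := by
    refine ⟨fun y α => ?_, fun y α hα => ?_⟩
    · rw [hd]
      simp only
      split_ifs with hc
      · rw [Pi.smul_apply, smul_eq_mul, abs_mul, abs_of_nonneg (inv_nonneg.2 (norm_nonneg _)),
          inv_mul_le_iff₀ hc.2, mul_one]
        exact norm_le_pi_norm (rest P s t y) α
      · rw [Pi.zero_apply, abs_zero]
        exact zero_le_one
    · have hα' : α ∈ P := by simpa using hα
      rw [hd]
      simp only
      split_ifs with hc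
      · have h1 : rest P s t y α = 0 := by
          unfold rest
          rw [Pi.sub_apply, Finset.sum_apply, Finset.sum_eq_single α]
          · rw [Pi.smul_apply, smul_eq_mul, hc.1 α hα', mul_one, sub_self]
          · intro π hπ hne
            rw [Pi.smul_apply, hs.2 y π hπ α hα' hne.symm, smul_zero]
          · intro hh
            exact absurd hα' hh
        rw [Pi.smul_apply, h1, smul_zero]
      · rfl
  refine le_trans ?_ (D.absorbR hNo hs hdv (τ₁ := τ₁) (τ₂ := (τ₂ + m * (Q * τ₁)) / δ) hρ' hR1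
    hRR hτ2 hτ)
  exact by
   refine Pool.MIC.Pb_le_of_imp n0 fun w _ hw => ?_
   obtain ⟨g1, g2, g3, β, g6⟩ := hw
   have hn : δ < ‖rest P s t (D.x w)‖ :=
     lt_of_lt_of_le g6 (norm_le_pi_norm (rest P s t (D.x w)) β)
   have hn0 : 0 < ‖rest P s t (D.x w)‖ := hδ.trans hn
   have hc : (∀ π ∈ P, s (D.x w) π π = 1) ∧ 0 < ‖rest P s t (D.x w)‖ :=
     ⟨fun π hπ => (g1.2 π hπ).1, hn0⟩
   have hdw : d (D.x w) = ‖rest P s t (D.x w)‖⁻¹ • rest P s t (D.x w) := by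
     rw [hd]
     exact if_pos hc
   have hQ0 : 0 ≤ Q := (abs_nonneg _).trans (g2 β)
   refine ⟨g1, ?_, fun l => ?_⟩
   · have hne : Nonempty (Fin m) := ⟨β⟩
     obtain ⟨i, -, hi⟩ := Finset.exists_max_image (univ : Finset (Fin m))
       (fun i => ‖(rest P s t (D.x w)) i‖) Finset.univ_nonempty
     have h7 : ‖rest P s t (D.x w)‖ = ‖(rest P s t (D.x w)) i‖ := by
       refine le_antisymm ((pi_norm_le_iff_of_nonneg (norm_nonneg _)).2 fun j =>
         hi j (Finset.mem_univ j)) (norm_le_pi_norm _ i)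
     refine ⟨i, ?_⟩
     rw [hdw, Pi.smul_apply, smul_eq_mul, abs_mul,
       abs_of_nonneg (inv_nonneg.2 hn0.le), ← Real.norm_eq_abs, ← h7, inv_mul_cancel₀ hn0.ne']
   · have h8 : |B.ev a (D.pr w) (rest P s t (D.x w)) l| ≤ τ₂ + m * (Q * τ₁) := by
       have h9 : B.ev a (D.pr w) (∑ π ∈ P, t (D.x w) π • s (D.x w) π) l =
           ∑ π ∈ P, t (D.x w) π * B.ev a (D.pr w) (s (D.x w) π) l := by
         rw [B.ev_sum]
         have e1 : ∀ α ∈ (univ : Finset (Fin m)),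
             (∑ π ∈ P, t (D.x w) π • s (D.x w) π) α * B.ev a (D.pr w) (Pi.single α 1) l =
             ∑ π ∈ P, t (D.x w) π * (s (D.x w) π α * B.ev a (D.pr w) (Pi.single α 1) l) := by
           intro α _
           rw [Finset.sum_apply, Finset.sum_mul]
           refine Finset.sum_congr rfl fun π _ => ?_
           rw [Pi.smul_apply, smul_eq_mul]
           ring
         rw [Finset.sum_congr rfl e1, Finset.sum_comm]
         refine Finset.sum_congr rfl fun π _ => ?_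
         rw [← Finset.mul_sum, B.ev_sum a (D.pr w) (s (D.x w) π) l]
       unfold rest
       rw [B.ev_sub, h9]
       refine (abs_sub _ _).trans (add_le_add (g3 l) ?_)
       refine (Finset.abs_sum_le_sum_abs _ _).trans ?_
       have h10 : ∀ π ∈ P, |t (D.x w) π * B.ev a (D.pr w) (s (D.x w) π) l| ≤ Q * τ₁ := by
         intro π hπ
         rw [abs_mul]
         exact mul_le_mul (g2 π) ((g1.2 π hπ).2 l) (abs_nonneg _) hQ0
       refine (Finset.sum_le_sum h10).trans ?_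
       rw [Finset.sum_const, nsmul_eq_mul]
       refine mul_le_mul_of_nonneg_right ?_ (mul_nonneg hQ0 hτ1)
       have h12 : P.card ≤ m := by
         have := Finset.card_le_univ P
         rwa [Fintype.card_fin] at this
       exact_mod_cast h12
     rw [hdw, B.ev_smul, abs_mul, abs_of_nonneg (inv_nonneg.2 hn0.le), inv_mul_le_iff₀ hn0]
     have h9 : δ * ((τ₂ + m * (Q * τ₁)) / δ) = τ₂ + m * (Q * τ₁) := mul_div_cancel₀ _ hδ.ne'
     have h10 := mul_le_mul_of_nonneg_right hn.le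
       (div_nonneg ((abs_nonneg _).trans h8) hδ.le)
     linarith

/-- The value at another sample of the same exact point. -/
theorem Bd.ev_near (B : Bd h m c) {a : Fin c → {γ // γ ∈ NN} → Fin m → ℝ[X]} {C₀ τ₀ R τ : ℝ}
    {ω ω' : B.Ω} (h1 : B.Ty a C₀ τ₀ ω) (h2 : B.Ty a C₀ τ₀ ω') (hpt : B.pt ω = B.pt ω')
    {s : Fin m → ℝ} (hs : ∀ α, |s α| ≤ R) {l : Fin c} (hl : |B.ev a ω' s l| ≤ τ) :
    |B.ev a ω s l| ≤ τ + 2 * m * (R * τ₀) := by
  have h3 : B.ev a ω s l = B.ev a ω' s l +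
      ∑ α, s α * (B.ev a ω (Pi.single α 1) l - B.ev a ω' (Pi.single α 1) l) := by
    rw [B.ev_sum a ω s l, B.ev_sum a ω' s l, ← Finset.sum_add_distrib]
    refine Finset.sum_congr rfl fun α _ => ?_
    ring
  have h4 : ∀ α, |B.ev a ω (Pi.single α 1) l - B.ev a ω' (Pi.single α 1) l| ≤ 2 * τ₀ := by
    intro α
    have h5 := h1.2.2 α l
    have h6 := h2.2.2 α l
    rw [hpt] at h5
    rw [abs_le] at h5 h6 ⊢
    constructor <;> linarith [h5.1, h5.2, h6.1, h6.2]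
  rw [h3]
  refine (abs_add_le _ _).trans (add_le_add hl ?_)
  refine (Finset.abs_sum_le_sum_abs _ _).trans ?_
  have h8 : ∀ α ∈ (univ : Finset (Fin m)), |s α *
      (B.ev a ω (Pi.single α 1) l - B.ev a ω' (Pi.single α 1) l)| ≤ R * (2 * τ₀) := by
    intro α _
    rw [abs_mul]
    exact mul_le_mul (hs α) (h4 α) (abs_nonneg _) ((abs_nonneg _).trans (hs α))
  refine (Finset.sum_le_sum h8).trans (le_of_eq ?_)
  rw [Finset.sum_const, Finset.card_univ, Fintype.card_fin, nsmul_eq_mul]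
  ring

/-- **The family is a function of the exact point.** -/
theorem Ctx.visR (D : Ctx B θ) (hB : B.Ok) {a : Fin c → {γ // γ ∈ NN} → Fin m → ℝ[X]}
    {C₀ τ₀ τ τ' ρ' δ R R' : ℝ} {P : Finset (Fin m)}
    (hNo : ∀ β ∉ P, ¬ (D.gl D hB).RelR a C₀ τ₀ (insert β P) R' τ' ρ')
    {s : D.G → Fin m → Fin m → ℝ} (hs : VecF R P s) (hδ : 0 < δ) (hρ' : 0 ≤ ρ')
    (hR1 : 1 ≤ R') (hRR : 2 * R ≤ R') (hτ1 : 0 ≤ τ)
    (hτ2 : (τ + 2 * m * (R * τ₀) + m * (R * τ)) / δ ≤ τ')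
    (hτ : τ + R * ((τ + 2 * m * (R * τ₀) + m * (R * τ)) / δ) ≤ τ') :
    ∃ sv : B.Ξ → Fin m → Fin m → ℝ, VecF R P sv ∧
      Pb D.q (fun w => D.GpR a C₀ τ₀ τ P s w ∧
        ¬ ((∀ π ∈ P, sv (B.pt (D.pr w)) π π = 1) ∧
          ∀ π ∈ P, ∀ β, |s (D.x w) π β - sv (B.pt (D.pr w)) π β| ≤ δ)) ≤
        Real.sqrt (m * (m * ρ')) := by
  classical
  have n0 := D.isLaw.nonneg
  obtain ⟨E, hE⟩ : ∃ E : Fin m → D.W × D.W → Prop, E = fun π w =>
    D.GpR a C₀ τ₀ τ P s w.1 ∧ D.GpR a C₀ τ₀ τ P s w.2 ∧ π ∈ P ∧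
      ∃ β, δ < |s (D.x w.1) π β - s (D.x w.2) π β| := ⟨_, rfl⟩
  have h2 : ∀ π ∈ (univ : Finset (Fin m)),
      Pb (glue D.q D.q (fun w => B.pt (D.pr w)) (fun w => B.pt (D.pr w))) (E π) ≤ m * ρ' := by
    intro π _
    by_cases hπ : π ∈ P
    · have h1 := (D.gl D hB).span (a := a) (C₀ := C₀) (τ₀ := τ₀) (τ' := τ') (ρ' := ρ') (P := P)
        (R := R) (R' := R') hNo (s := fun y => s y.1) (t := fun y => s y.2 π)
        ⟨fun y π α => hs.1 _ _ _, fun y π hπ α hα hne => hs.2 _ _ hπ _ hα hne⟩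
        (τ₁ := τ) (τ₂ := τ + 2 * m * (R * τ₀)) (δ := δ) (Q := R) hδ hρ' hR1 hRR hτ1 hτ2 hτ
      refine le_trans ?_ h1
      refine Pool.MIC.Pb_le_of_imp (D.gl D hB).isLaw.nonneg fun w hw hh => ?_
      rw [hE] at hh
      obtain ⟨g1, g2, -, β, g3⟩ := hh
      have hpos : 0 < D.q w.1 ∧ 0 < D.q w.2 ∧ B.pt (D.pr w.1) = B.pt (D.pr w.2) :=
        (glue_pos_iff (Z₁ := fun w => B.pt (D.pr w)) (Z₂ := fun w => B.pt (D.pr w)) n0 n0
          w).1 hw
      refine ⟨g1, fun α => hs.1 _ _ _, fun l => ?_, β, ?_⟩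
      · exact B.ev_near g1.1 g2.1 hpos.2.2 (fun α => hs.1 _ _ _) ((g2.2 π hπ).2 l)
      · have e1 : s (D.x w.2) π - ∑ π' ∈ P, s (D.x w.2) π π' • s (D.x w.1) π' =
            s (D.x w.2) π - s (D.x w.1) π :=
          rest_one hπ (g2.2 π hπ).1 fun π' hπ' hne => hs.2 _ π hπ π' hπ' hne
        show δ < |(s (D.x w.2) π - ∑ π' ∈ P, s (D.x w.2) π π' • s (D.x w.1) π') β|
        rw [e1, Pi.sub_apply, abs_sub_comm]
        exact g3
    · refine le_trans (le_of_eq ?_) (mul_nonneg (by positivity) hρ')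
      unfold Pb
      refine Finset.sum_eq_zero fun w _ => ?_
      rw [if_neg]
      rw [hE]
      exact fun hh => hπ hh.2.2.1
  have h3 : Pb (glue D.q D.q (fun w => B.pt (D.pr w)) (fun w => B.pt (D.pr w)))
      (fun w => D.GpR a C₀ τ₀ τ P s w.1 ∧ D.GpR a C₀ τ₀ τ P s w.2 ∧
        ∃ π ∈ P, ∃ β, δ < |s (D.x w.1) π β - s (D.x w.2) π β|) ≤ m * (m * ρ') := by
    have g0 : ∀ w, 0 ≤ glue D.q D.q (fun w => B.pt (D.pr w)) (fun w => B.pt (D.pr w)) w :=
      glue_nonneg n0 n0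
    refine le_trans (Pool.MIC.Pb_le_of_imp g0 fun w _ hh => ?_)
      ((Pool.MIC.Pb_exists_le g0 E).trans ((Finset.sum_le_sum h2).trans (le_of_eq ?_)))
    · obtain ⟨g1, g2, π, hπ, β, g3⟩ := hh
      refine ⟨π, ?_⟩
      rw [hE]
      exact ⟨g1, g2, hπ, β, g3⟩
    · rw [Finset.sum_const, Finset.card_univ, Fintype.card_fin, nsmul_eq_mul]
  obtain ⟨x, hx⟩ := best D.isLaw (fun w => B.pt (D.pr w)) (D.GpR a C₀ τ₀ τ P s)
    (fun w w' => ∃ π ∈ P, ∃ β, δ < |s (D.x w) π β - s (D.x w') π β|) h3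
  refine ⟨fun z => s (D.x (x z)), ⟨fun y π α => hs.1 _ _ _,
    fun y π hπ α hα hne => hs.2 _ _ hπ _ hα hne⟩, le_trans ?_ hx⟩
  refine Pool.MIC.Pb_le_of_imp n0 fun w _ hw => ⟨hw.1, fun hh => hw.2 ?_⟩
  obtain ⟨g1, g2, g3, g4⟩ := hh
  refine ⟨fun π hπ => (g3.2 π hπ).1, fun π hπ β => ?_⟩
  by_contra hc
  push Not at hc
  exact g4 ⟨π, hπ, β, hc⟩

end

end Pool.REL
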