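import Pool.Agent.H50.REL.CloG
import Pool.Agent.H50.REL.FamQ

/-!
# Solutions of inhomogeneous equations modulo a maximal family of relations

A vector `u` of a context which satisfies the equations with right sides polynomial in the time, on
an event `E`, jointly with a maximal family of relations `s π` (`π ∈ P`): then
`u = F(L, cell)(th) + ∑ π ∈ P, u π • s π` with positive probability inside `E`, where `F` is
polynomial in the time with coefficients functions of the line and the cell, and `F = 0` on `P`.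
-/

set_option autoImplicit false

namespace Pool.REL

open Finset Polynomial
open Pool.Agent.H49.Ent Pool.Agent.H32.Dense Pool.STK Pool.BFL Pool.GLB Pool.CLU
open Pool.K2S (cpn)
open Pool.MIC30 (All)

section

variable {h m c : ℕ} {NN : Finset (Fin h →₀ ℕ)}

/-- The rest of a vector modulo the family, `0` if the family is not normalized. -/
noncomputable def rst {G : Type} (P : Finset (Fin m)) (s : G → Fin m → Fin m → ℝ)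
    (t : G → Fin m → ℝ) (y : G) : Fin m → ℝ := by
  classical
  exact if ∀ π ∈ P, s y π π = 1 then rest P s t y else 0

theorem rst_eq {G : Type} {P : Finset (Fin m)} {s : G → Fin m → Fin m → ℝ}
    {t : G → Fin m → ℝ} {y : G} (h : ∀ π ∈ P, s y π π = 1) : rst P s t y = rest P s t y := by
  unfold rst
  exact if_pos h

theorem rest_apply {G : Type} (P : Finset (Fin m)) (s : G → Fin m → Fin m → ℝ)
    (t : G → Fin m → ℝ) (y : G) (α : Fin m) :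
    rest P s t y α = t y α - ∑ π ∈ P, t y π * s y π α := by
  unfold rest
  rw [Pi.sub_apply, Finset.sum_apply]
  simp only [Pi.smul_apply, smul_eq_mul]

theorem rst_vec {G : Type} {P : Finset (Fin m)} {R Q : ℝ} {s : G → Fin m → Fin m → ℝ}
    {t : G → Fin m → ℝ} (hs : VecF R P s) (hR : 0 ≤ R) (hQ : 0 ≤ Q) (ht : ∀ y α, |t y α| ≤ Q) :
    VecR (Q + m * (Q * R)) Pᶜ (rst P s t) := by
  classical
  have h0 : 0 ≤ Q + m * (Q * R) := by positivity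
  refine ⟨fun y α => ?_, fun y α hα => ?_⟩
  · by_cases h1 : ∀ π ∈ P, s y π π = 1
    · rw [rst_eq h1, rest_apply]
      refine (abs_sub _ _).trans (add_le_add (ht y α) ?_)
      refine (Finset.abs_sum_le_sum_abs _ _).trans ?_
      have h2 : ∀ π ∈ P, |t y π * s y π α| ≤ Q * R := by
        intro π _
        rw [abs_mul]
        exact mul_le_mul (ht y π) (hs.1 y π α) (abs_nonneg _) hQ
      refine (Finset.sum_le_sum h2).trans ?_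
      rw [Finset.sum_const, nsmul_eq_mul]
      refine mul_le_mul_of_nonneg_right ?_ (mul_nonneg hQ hR)
      have h12 : P.card ≤ m := by
        have := Finset.card_le_univ P
        rwa [Fintype.card_fin] at this
      exact_mod_cast h12
    · have h2 : rst P s t y = 0 := by
        unfold rst
        exact if_neg h1
      rw [h2, Pi.zero_apply, abs_zero]
      exact h0
  · have hα' : α ∈ P := by simpa using hα
    by_cases h1 : ∀ π ∈ P, s y π π = 1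
    · rw [rst_eq h1, rest_apply, Finset.sum_eq_single α]
      · rw [h1 α hα', mul_one, sub_self]
      · intro π hπ hne
        rw [hs.2 y π hπ α hα' hne.symm, mul_zero]
      · intro hh
        exact absurd hα' hh
    · have h2 : rst P s t y = 0 := by
        unfold rst
        exact if_neg h1
      rw [h2, Pi.zero_apply]

/-- The equations for the rest. -/
theorem Bd.ev_rest (B : Bd h m c) {a : Fin c → {γ // γ ∈ NN} → Fin m → ℝ[X]} {G : Type}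
    (P : Finset (Fin m)) (s : G → Fin m → Fin m → ℝ) (t : G → Fin m → ℝ) (y : G) (ω : B.Ω)
    {Q τ₁ τ₂ : ℝ} {l : Fin c} {v : ℝ} (hQ : 0 ≤ Q) (hτ1 : 0 ≤ τ₁)
    (ht : ∀ α, |t y α| ≤ Q) (hs : ∀ π ∈ P, |B.ev a ω (s y π) l| ≤ τ₁)
    (he : |B.ev a ω (t y) l - v| ≤ τ₂) :
    |B.ev a ω (rest P s t y) l - v| ≤ τ₂ + m * (Q * τ₁) := by
  classical
  have h9 : B.ev a ω (∑ π ∈ P, t y π • s y π) l =
      ∑ π ∈ P, t y π * B.ev a ω (s y π) l := by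
    rw [B.ev_sum]
    have e1 : ∀ α ∈ (univ : Finset (Fin m)),
        (∑ π ∈ P, t y π • s y π) α * B.ev a ω (Pi.single α 1) l =
        ∑ π ∈ P, t y π * (s y π α * B.ev a ω (Pi.single α 1) l) := by
      intro α _
      rw [Finset.sum_apply, Finset.sum_mul]
      refine Finset.sum_congr rfl fun π _ => ?_
      rw [Pi.smul_apply, smul_eq_mul]
      ring
    rw [Finset.sum_congr rfl e1, Finset.sum_comm]
    refine Finset.sum_congr rfl fun π _ => ?_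
    rw [← Finset.mul_sum, B.ev_sum a ω (s y π) l]
  unfold rest
  rw [B.ev_sub, h9, sub_right_comm]
  refine (abs_sub _ _).trans (add_le_add he ?_)
  refine (Finset.abs_sum_le_sum_abs _ _).trans ?_
  have h10 : ∀ π ∈ P, |t y π * B.ev a ω (s y π) l| ≤ Q * τ₁ := by
    intro π hπ
    rw [abs_mul]
    exact mul_le_mul (ht π) (hs π hπ) (abs_nonneg _) hQ
  refine (Finset.sum_le_sum h10).trans ?_
  rw [Finset.sum_const, nsmul_eq_mul]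
  refine mul_le_mul_of_nonneg_right ?_ (mul_nonneg hQ hτ1)
  have h12 : P.card ≤ m := by
    have := Finset.card_le_univ P
    rwa [Fintype.card_fin] at this
  exact_mod_cast h12

/-- **The inhomogeneous solution**: hypothesis on the relations off the pivots in abstract form. -/
theorem solW (h m c n : ℕ) (hn : 1 ≤ n) (NN : Finset (Fin h →₀ ℕ))
    (a : Fin c → {γ // γ ∈ NN} → Fin m → ℝ[X]) (C₀ : ℝ) (hC₀ : 1 ≤ C₀) : ∃ N : ℕ,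
    ∀ (P : Finset (Fin m)) (j : ℕ),
    ∃ (C : ℝ) (A₂ : ℕ), 1 ≤ C ∧ ∀ q : ℕ, ∃ A K₂ : ℕ,
    ∀ (B : Bd h m c) (hB : B.Ok) (θ : ℝ) (D : Ctx B θ) (s : D.G → Fin m → Fin m → ℝ)
      (u : D.G → Fin m → ℝ) (g : B.Λ → Fin c → ℝ[X]) (E : D.W → Prop)
      (Λ τ₀ τ₁ τ₂ R Q ρ e₀ : ℝ),
      VecF R P s → (∀ y α, |u y α| ≤ Q) → 0 ≤ R → 0 ≤ Q → Q + m * (Q * R) ≤ Λ →
      (∀ x k, (g x k).degree < n) → C ≤ Λ → 0 ≤ τ₁ → 0 < τ₂ →
      (τ₂ + m * (Q * τ₁)) * Λ ^ A ≤ 1 → 0 < ρ →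
      (∀ w, 0 < D.q w → E w → D.GpR a C₀ τ₀ τ₁ P s w ∧
        ∀ k, |B.ev a (D.pr w) (u (D.x w)) k -
          (g (B.L (D.pr w)) k).eval (B.th (D.pr w))| ≤ τ₂) →
      ρ ≤ Pb D.q E →
      P2 B.p B.L (fun ω ω' => |B.th ω - B.th ω'| * Λ < 1) ≤ e₀ →
      8 * (N + 1) ^ 2 * e₀ ≤ ρ ^ (N + 1) →
      (∀ (i : Fin (N + 1)) (d : (Fin (N + 1) → D.G) → Fin m → ℝ), VecR 1 Pᶜ d →
        Pb (D.ms hB N i).q (fun w : Fin (N + 1) → D.W => D.GpR a C₀ τ₀ τ₁ P s (w i) ∧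
          (∃ β, |d ((D.ms hB N i).x w) β| = 1) ∧
          ∀ l, |B.ev a ((D.ms hB N i).pr w) (d ((D.ms hB N i).x w)) l| ≤ 1 / Λ ^ j) <
          ρ ^ (N + 1) / 8) →
      ∃ F : B.Λ → ℤ → Fin m → ℝ[X], (∀ l z α, (F l z α).natDegree ≤ K₂) ∧
        (∀ l z, ∀ α ∈ P, F l z α = 0) ∧
        ρ ^ (N + 1) / 2 ≤ Pb D.q (fun w => E w ∧
          ∀ α, |u (D.x w) α - ∑ π ∈ P, u (D.x w) π * s (D.x w) π α -
            (F (B.L (D.pr w)) ⌊B.th (D.pr w) * Λ ^ A₂⌋ α).eval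
            (B.th (D.pr w))| * Λ ^ q ≤ 1) := by
  classical
  obtain ⟨N, hcl⟩ := cloG h m c n hn NN a C₀ hC₀
  refine ⟨N, fun P j => ?_⟩
  obtain ⟨C, A₂, hC, H⟩ := hcl Pᶜ j
  refine ⟨C, A₂, hC, fun q => ?_⟩
  obtain ⟨A, K₂, H1⟩ := H q
  refine ⟨A, K₂, ?_⟩
  intro B hB θ D s u g E Λ τ₀ τ₁ τ₂ R Q ρ e₀ hs hu hR hQ hΛ hg hCΛ hτ1 hτ2 hτA hρ hE hPE hsep he₀
    hNo
  have n0 := D.isLaw.nonneg
  have hvec : VecR Λ Pᶜ (rst P s u) := by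
    have h1 := rst_vec (t := u) hs hR hQ hu
    exact ⟨fun y α => (h1.1 y α).trans hΛ, h1.2⟩
  have hEE : ∀ w, 0 < D.q w → E w → |B.th (D.pr w)| ≤ 1 ∧
      (∀ i, |B.β (B.L (D.pr w)) i| ≤ C₀) ∧
      ∀ k, |B.ev a (D.pr w) (rst P s u (D.x w)) k -
        (g (B.L (D.pr w)) k).eval (B.th (D.pr w))| ≤ τ₂ + m * (Q * τ₁) := by
    intro w hw hEw
    obtain ⟨g1, g2⟩ := hE w hw hEw
    refine ⟨g1.1.1, g1.1.2.1, fun k => ?_⟩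
    rw [rst_eq fun π hπ => (g1.2 π hπ).1]
    exact B.ev_rest P s u (D.x w) (D.pr w) hQ hτ1 (hu _) (fun π hπ => (g1.2 π hπ).2 k) (g2 k)
  have hτ : 0 < τ₂ + m * (Q * τ₁) := by positivity
  rcases H1 B hB θ D (rst P s u) g E Λ (τ₂ + m * (Q * τ₁)) ρ e₀ hvec hg hCΛ hτ hτA hρ hEE hPE
    hsep he₀ with ⟨F, h1, h2, h3⟩ | ⟨i, d, hd, h1⟩
  · refine ⟨F, h1, fun l z α hα => h2 l z α (by simpa using hα), h3.trans ?_⟩
    refine Pool.MIC.Pb_le_of_imp n0 fun w hw hh => ⟨hh.1, fun α => ?_⟩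
    have h4 := hh.2 α
    rw [rst_eq fun π hπ => ((hE w hw hh.1).1.2 π hπ).1, rest_apply] at h4
    exact h4
  · exfalso
    have h2 := hNo i d hd
    have h3 : Pb (D.ms hB N i).q (fun w : Fin (N + 1) → D.W => E (w i) ∧
          (∃ β, |d ((D.ms hB N i).x w) β| = 1) ∧
          ∀ l, |B.ev a ((D.ms hB N i).pr w) (d ((D.ms hB N i).x w)) l| ≤ 1 / Λ ^ j) ≤
        Pb (D.ms hB N i).q (fun w : Fin (N + 1) → D.W => D.GpR a C₀ τ₀ τ₁ P s (w i) ∧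
          (∃ β, |d ((D.ms hB N i).x w) β| = 1) ∧
          ∀ l, |B.ev a ((D.ms hB N i).pr w) (d ((D.ms hB N i).x w)) l| ≤ 1 / Λ ^ j) := by
      refine Pool.MIC.Pb_le_of_imp (D.ms hB N i).isLaw.nonneg fun w hw hh => ⟨?_, hh.2⟩
      have h4 : 0 < D.q (w i) := (cpn_pos n0 (fun w => B.L (D.pr w)) N w hw).1 i
      exact (hE (w i) h4 hh.1).1
    linarith

/-- **The inhomogeneous solution** over a maximal family of relations. -/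
theorem solR (h m c n : ℕ) (hn : 1 ≤ n) (NN : Finset (Fin h →₀ ℕ))
    (a : Fin c → {γ // γ ∈ NN} → Fin m → ℝ[X]) (C₀ : ℝ) (hC₀ : 1 ≤ C₀) : ∃ N : ℕ,
    ∀ (P : Finset (Fin m)) (j : ℕ),
    ∃ (C : ℝ) (A₂ : ℕ), 1 ≤ C ∧ ∀ q : ℕ, ∃ A K₂ : ℕ,
    ∀ (B : Bd h m c) (hB : B.Ok) (θ : ℝ) (D : Ctx B θ) (s : D.G → Fin m → Fin m → ℝ)
      (u : D.G → Fin m → ℝ) (g : B.Λ → Fin c → ℝ[X]) (E : D.W → Prop)
      (Λ τ₀ τ₁ τ₂ R Q ρ e₀ R' τ' ρ' : ℝ),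
      VecF R P s → (∀ y α, |u y α| ≤ Q) → 0 ≤ R → 0 ≤ Q → Q + m * (Q * R) ≤ Λ →
      (∀ x k, (g x k).degree < n) → C ≤ Λ → 0 ≤ τ₁ → 0 < τ₂ →
      (τ₂ + m * (Q * τ₁)) * Λ ^ A ≤ 1 → 0 < ρ →
      (∀ w, 0 < D.q w → E w → D.GpR a C₀ τ₀ τ₁ P s w ∧
        ∀ k, |B.ev a (D.pr w) (u (D.x w)) k -
          (g (B.L (D.pr w)) k).eval (B.th (D.pr w))| ≤ τ₂) →
      ρ ≤ Pb D.q E →
      P2 B.p B.L (fun ω ω' => |B.th ω - B.th ω'| * Λ < 1) ≤ e₀ →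
      8 * (N + 1) ^ 2 * e₀ ≤ ρ ^ (N + 1) →
      (∀ (D' : Ctx B ((N + 1) * θ)), ∀ β ∉ P, ¬ D'.RelR a C₀ τ₀ (insert β P) R' τ' ρ') →
      0 ≤ ρ' → 1 ≤ R' → 2 * R ≤ R' → 1 / Λ ^ j ≤ τ' → τ₁ + R * (1 / Λ ^ j) ≤ τ' →
      m * ρ' < ρ ^ (N + 1) / 8 →
      ∃ F : B.Λ → ℤ → Fin m → ℝ[X], (∀ l z α, (F l z α).natDegree ≤ K₂) ∧
        (∀ l z, ∀ α ∈ P, F l z α = 0) ∧
        ρ ^ (N + 1) / 2 ≤ Pb D.q (fun w => E w ∧
          ∀ α, |u (D.x w) α - ∑ π ∈ P, u (D.x w) π * s (D.x w) π α -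
            (F (B.L (D.pr w)) ⌊B.th (D.pr w) * Λ ^ A₂⌋ α).eval
            (B.th (D.pr w))| * Λ ^ q ≤ 1) := by
  classical
  obtain ⟨N, hcl⟩ := solW h m c n hn NN a C₀ hC₀
  refine ⟨N, fun P j => ?_⟩
  obtain ⟨C, A₂, hC, H⟩ := hcl P j
  refine ⟨C, A₂, hC, fun q => ?_⟩
  obtain ⟨A, K₂, H1⟩ := H q
  refine ⟨A, K₂, ?_⟩
  intro B hB θ D s u g E Λ τ₀ τ₁ τ₂ R Q ρ e₀ R' τ' ρ' hs hu hR hQ hΛ hg hCΛ hτ1 hτ2 hτA hρ hE hPE
    hsep he₀ hNo hρ' hR1 hRR hj hj' hmρ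
  refine H1 B hB θ D s u g E Λ τ₀ τ₁ τ₂ R Q ρ e₀ hs hu hR hQ hΛ hg hCΛ hτ1 hτ2 hτA hρ hE hPE
    hsep he₀ fun i d hd => lt_of_le_of_lt ?_ hmρ
  exact (D.ms hB N i).absorbR (a := a) (C₀ := C₀) (τ₀ := τ₀) (R := R) (R' := R') (τ' := τ')
    (ρ' := ρ') (P := P) (hNo (D.ms hB N i)) (s := fun y => s (y i)) (d := d)
    ⟨fun y π α => hs.1 _ _ _, fun y π hπ α hα hne => hs.2 _ π hπ α hα hne⟩ hd (τ₁ := τ₁)
    (τ₂ := 1 / Λ ^ j) hρ' hR1 hRR hj hj'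

/-- **The inhomogeneous solution** over a maximal family of relations with pivots in `Q₁`. -/
theorem solQ (h m c n : ℕ) (hn : 1 ≤ n) (NN : Finset (Fin h →₀ ℕ))
    (a : Fin c → {γ // γ ∈ NN} → Fin m → ℝ[X]) (C₀ : ℝ) (hC₀ : 1 ≤ C₀) : ∃ N : ℕ,
    ∀ (P : Finset (Fin m)) (j : ℕ),
    ∃ (C : ℝ) (A₂ : ℕ), 1 ≤ C ∧ ∀ q : ℕ, ∃ A K₂ : ℕ,
    ∀ (B : Bd h m c) (hB : B.Ok) (θ : ℝ) (D : Ctx B θ) (s : D.G → Fin m → Fin m → ℝ)
      (u : D.G → Fin m → ℝ) (g : B.Λ → Fin c → ℝ[X]) (E : D.W → Prop) (Q₁ : Finset (Fin m))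
      (Λ τ₀ τ₁ τ₂ R Q ρ e₀ R' τ' ρ' τq ρq δ M : ℝ),
      VecF R P s → (∀ y α, |u y α| ≤ Q) → 0 ≤ R → 0 ≤ Q → Q + m * (Q * R) ≤ Λ →
      (∀ x k, (g x k).degree < n) → C ≤ Λ → 0 ≤ τ₁ → 0 < τ₂ →
      (τ₂ + m * (Q * τ₁)) * Λ ^ A ≤ 1 → 0 < ρ →
      (∀ w, 0 < D.q w → E w → D.GpR a C₀ τ₀ τ₁ P s w ∧
        ∀ k, |B.ev a (D.pr w) (u (D.x w)) k -
          (g (B.L (D.pr w)) k).eval (B.th (D.pr w))| ≤ τ₂) →
      ρ ≤ Pb D.q E →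
      P2 B.p B.L (fun ω ω' => |B.th ω - B.th ω'| * Λ < 1) ≤ e₀ →
      8 * (N + 1) ^ 2 * e₀ ≤ ρ ^ (N + 1) →
      (∀ (D' : Ctx B ((N + 1) * θ)), ∀ β ∈ Q₁, β ∉ P →
        ¬ D'.RelR a C₀ τ₀ (insert β P) R' τ' ρ') →
      (∀ (D' : Ctx B ((N + 1) * θ)), ¬ D'.Rel a C₀ τ₀ Q₁ᶜ τq ρq) →
      (∀ ω, B.Ty a C₀ τ₀ ω → ∀ α l, |B.ev a ω (Pi.single α 1) l| ≤ M) →
      0 ≤ ρ' → 0 < δ → δ < 1 → 1 / δ ≤ R' → R + R * (1 / δ) ≤ R' →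
      1 / Λ ^ j + m * (δ * M) ≤ τq → 1 / Λ ^ j * (1 / δ) ≤ τ' →
      τ₁ + R * (1 / Λ ^ j * (1 / δ)) ≤ τ' →
      ρq + m * ρ' < ρ ^ (N + 1) / 8 →
      ∃ F : B.Λ → ℤ → Fin m → ℝ[X], (∀ l z α, (F l z α).natDegree ≤ K₂) ∧
        (∀ l z, ∀ α ∈ P, F l z α = 0) ∧
        ρ ^ (N + 1) / 2 ≤ Pb D.q (fun w => E w ∧
          ∀ α, |u (D.x w) α - ∑ π ∈ P, u (D.x w) π * s (D.x w) π α -
            (F (B.L (D.pr w)) ⌊B.th (D.pr w) * Λ ^ A₂⌋ α).eval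
            (B.th (D.pr w))| * Λ ^ q ≤ 1) := by
  classical
  obtain ⟨N, hcl⟩ := solW h m c n hn NN a C₀ hC₀
  refine ⟨N, fun P j => ?_⟩
  obtain ⟨C, A₂, hC, H⟩ := hcl P j
  refine ⟨C, A₂, hC, fun q => ?_⟩
  obtain ⟨A, K₂, H1⟩ := H q
  refine ⟨A, K₂, ?_⟩
  intro B hB θ D s u g E Q₁ Λ τ₀ τ₁ τ₂ R Q ρ e₀ R' τ' ρ' τq ρq δ M hs hu hR hQ hΛ hg hCΛ hτ1 hτ2
    hτA hρ hE hPE hsep he₀ hNo hFU hM hρ' hδ hδ1 hR1 hRR hτq hj hj' hmρ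
  refine H1 B hB θ D s u g E Λ τ₀ τ₁ τ₂ R Q ρ e₀ hs hu hR hQ hΛ hg hCΛ hτ1 hτ2 hτA hρ hE hPE
    hsep he₀ fun i d hd => lt_of_le_of_lt ?_ hmρ
  exact (D.ms hB N i).absorbQ (a := a) (C₀ := C₀) (τ₀ := τ₀) (R := R) (R' := R') (τ' := τ')
    (ρ' := ρ') (ρq := ρq) (τq := τq) (δ := δ) (M := M) (P := P) (Q := Q₁)
    (hNo (D.ms hB N i)) (hFU (D.ms hB N i)) hM (s := fun y => s (y i)) (d := d)
    ⟨fun y π α => hs.1 _ _ _, fun y π hπ α hα hne => hs.2 _ π hπ α hα hne⟩ hd (τ₁ := τ₁)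
    (τ₂ := 1 / Λ ^ j) hρ' hδ hδ1 hR1 hRR hτq hj hj'

end

end Pool.REL
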