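import Pool.Agent.H50.REL.Ctx
import Pool.Agent.H46.MIC.Cpn

/-!
# Uniqueness of a minimal relation

Two relations with the same pivot in one context agree, if there is no relation with a smaller
support; a small coefficient is removed; the relation is a function of the exact point.
-/

set_option autoImplicit false

namespace Pool.REL

open Finset Polynomial
open Pool.Agent.H49.Ent Pool.Agent.H32.Dense Pool.STK Pool.BFL Pool.GLB Pool.CLU
open Pool.K2S (cpn)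

section

variable {h m c : ℕ} {NN : Finset (Fin h →₀ ℕ)}

/-! ### The linear form -/

theorem ev_sub (a : Fin c → {γ // γ ∈ NN} → Fin m → ℝ[X]) (β : Fin h → ℝ) (T : ℝ)
    (s s' : Fin m → ℝ) (l : Fin c) :
    Pool.GLB.ev a β T (s - s') l = Pool.GLB.ev a β T s l - Pool.GLB.ev a β T s' l := by
  rw [Pool.GLB.ev_eq, Pool.GLB.ev_eq, Pool.GLB.ev_eq, Matrix.mulVec_sub, sub_dotProduct]

theorem ev_smul (a : Fin c → {γ // γ ∈ NN} → Fin m → ℝ[X]) (β : Fin h → ℝ) (T : ℝ)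
    (x : ℝ) (s : Fin m → ℝ) (l : Fin c) :
    Pool.GLB.ev a β T (x • s) l = x * Pool.GLB.ev a β T s l := by
  rw [Pool.GLB.ev_eq, Pool.GLB.ev_eq, Matrix.mulVec_smul, smul_dotProduct, smul_eq_mul]

theorem ev_sum (a : Fin c → {γ // γ ∈ NN} → Fin m → ℝ[X]) (β : Fin h → ℝ) (T : ℝ)
    (s : Fin m → ℝ) (l : Fin c) :
    Pool.GLB.ev a β T s l = ∑ α, s α * Pool.GLB.ev a β T (Pi.single α 1) l := by
  unfold Pool.GLB.ev
  simp only [Finset.mul_sum]
  rw [Finset.sum_comm]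
  refine Finset.sum_congr rfl fun γ _ => ?_
  rw [Finset.sum_mul]
  refine Finset.sum_congr rfl fun α _ => ?_
  rw [Finset.sum_eq_single α]
  · rw [Pi.single_eq_same]
    ring
  · intro α' _ hne
    rw [Pi.single_eq_of_ne hne, mul_zero]
  · intro hh
    exact absurd (Finset.mem_univ α) hh

theorem Bd.ev_sum (B : Bd h m c) (a : Fin c → {γ // γ ∈ NN} → Fin m → ℝ[X]) (ω : B.Ω)
    (s : Fin m → ℝ) (l : Fin c) : B.ev a ω s l = ∑ α, s α * B.ev a ω (Pi.single α 1) l :=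
  Pool.REL.ev_sum a _ _ s l

theorem Bd.ev_sub (B : Bd h m c) (a : Fin c → {γ // γ ∈ NN} → Fin m → ℝ[X]) (ω : B.Ω)
    (s s' : Fin m → ℝ) (l : Fin c) : B.ev a ω (s - s') l = B.ev a ω s l - B.ev a ω s' l :=
  Pool.REL.ev_sub a _ _ s s' l

theorem Bd.ev_smul (B : Bd h m c) (a : Fin c → {γ // γ ∈ NN} → Fin m → ℝ[X]) (ω : B.Ω)
    (x : ℝ) (s : Fin m → ℝ) (l : Fin c) : B.ev a ω (x • s) l = x * B.ev a ω s l :=
  Pool.REL.ev_smul a _ _ x s l

/-- The size of the values of the jets. -/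
theorem ev_bd (a : Fin c → {γ // γ ∈ NN} → Fin m → ℝ[X]) {C₀ : ℝ} (hC₀ : 1 ≤ C₀) :
    ∃ M : ℝ, 1 ≤ M ∧ ∀ (β : Fin h → ℝ) (T : ℝ), (∀ i, |β i| ≤ C₀) → |T| ≤ 1 →
      ∀ α l, |Pool.GLB.ev a β T (Pi.single α 1) l| ≤ M := by
  obtain ⟨b, e, hb, hab, -⟩ := Pool.GLB.a_bound a
  obtain ⟨Cv, hCv, hm⟩ := Pool.GLB.mo_bd hC₀ NN
  refine ⟨1 + Fintype.card {γ // γ ∈ NN} * ((m * (b * 1)) * Cv), ?_, ?_⟩
  · have : 0 ≤ (Fintype.card {γ // γ ∈ NN} : ℝ) * ((m * (b * 1)) * Cv) := by positivity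
    linarith
  · intro β T hβ hT α l
    rw [Pool.GLB.ev_eq, dotProduct]
    refine (Finset.abs_sum_le_sum_abs _ _).trans ?_
    have h1 : ∀ γ ∈ (Finset.univ : Finset {γ // γ ∈ NN}),
        |(Pool.LBL.Am a T l).mulVec (Pi.single α 1) γ * mo NN β γ| ≤ (m * (b * 1)) * Cv := by
      intro γ _
      rw [abs_mul]
      refine mul_le_mul (Pool.GLB.Am_bd a (by linarith) hab hT _ (fun α' => ?_) l γ) (hm β hβ γ)
        (abs_nonneg _) (by positivity)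
      by_cases h2 : α' = α
      · rw [h2, Pi.single_eq_same, abs_one]
      · rw [Pi.single_eq_of_ne h2, abs_zero]
        exact zero_le_one
    refine (Finset.sum_le_sum h1).trans ?_
    rw [Finset.sum_const, Finset.card_univ, nsmul_eq_mul]
    linarith

/-! ### Vectors with a pivot -/

variable {B : Bd h m c} {θ : ℝ}

/-- Vectors of the context with support in `S`. -/
def Vec {G : Type} (S : Finset (Fin m)) (s : G → Fin m → ℝ) : Prop :=
  (∀ y α, |s y α| ≤ 1) ∧ ∀ y, ∀ α ∉ S, s y α = 0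

/-- The good samples of the vector `s` with the pivot `α₀`. -/
def Ctx.Gp (D : Ctx B θ) (a : Fin c → {γ // γ ∈ NN} → Fin m → ℝ[X]) (C₀ τ₀ τ : ℝ) (α₀ : Fin m)
    (s : D.G → Fin m → ℝ) (w : D.W) : Prop :=
  B.Ty a C₀ τ₀ (D.pr w) ∧ s (D.x w) α₀ = 1 ∧ ∀ l, |B.ev a (D.pr w) (s (D.x w)) l| ≤ τ

/-- There is a pivot. -/
theorem Ctx.pivot (D : Ctx B θ) (a : Fin c → {γ // γ ∈ NN} → Fin m → ℝ[X]) {C₀ τ₀ τ ρ : ℝ}
    {S : Finset (Fin m)} (hρ : 0 < ρ) (hR : D.Rel a C₀ τ₀ S τ ρ) :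
    ∃ α₀ ∈ S, ∃ s : D.G → Fin m → ℝ, Vec S s ∧ ρ / m ≤ Pb D.q (D.Gp a C₀ τ₀ τ α₀ s) := by
  classical
  obtain ⟨s, h1, h2, h3⟩ := hR
  have n0 := D.isLaw.nonneg
  obtain ⟨E, hE⟩ : ∃ E : Fin m → D.W → Prop, E = fun α w =>
    B.Ty a C₀ τ₀ (D.pr w) ∧ |s (D.x w) α| = 1 ∧ ∀ l, |B.ev a (D.pr w) (s (D.x w)) l| ≤ τ :=
      ⟨_, rfl⟩
  have h4 : ρ ≤ ∑ α, Pb D.q (E α) := by
    refine h3.trans (le_trans ?_ (Pool.MIC.Pb_exists_le n0 E))
    refine Pool.MIC.Pb_le_of_imp n0 fun w _ hw => ?_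
    obtain ⟨g1, ⟨α, g2⟩, g3⟩ := hw
    refine ⟨α, ?_⟩
    rw [hE]
    exact ⟨g1, g2, g3⟩
  have hm : (0 : ℝ) < m := by
    rcases Nat.eq_zero_or_pos m with h0 | h0
    · subst h0
      rw [Finset.univ_eq_empty, Finset.sum_empty] at h4
      linarith
    · exact_mod_cast h0
  obtain ⟨α₀, h5⟩ : ∃ α₀, ρ / m ≤ Pb D.q (E α₀) := by
    by_contra hh
    push Not at hh
    have h6 : ∑ α, Pb D.q (E α) < ∑ _α : Fin m, ρ / m := by
      refine Finset.sum_lt_sum_of_nonempty ?_ fun α _ => hh α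
      exact ⟨⟨0, by exact_mod_cast hm⟩, Finset.mem_univ _⟩
    rw [Finset.sum_const, Finset.card_univ, Fintype.card_fin, nsmul_eq_mul,
      mul_div_cancel₀ _ hm.ne'] at h6
    linarith
  have hα : α₀ ∈ S := by
    by_contra hh
    have h6 : Pb D.q (E α₀) ≤ 0 := by
      unfold Pb
      refine Finset.sum_nonpos fun w _ => ?_
      rw [if_neg]
      rw [hE]
      intro h7
      have h8 := h7.2.1
      rw [h2 _ _ hh, abs_zero] at h8
      exact zero_ne_one h8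
    have : 0 < ρ / m := div_pos hρ hm
    linarith
  refine ⟨α₀, hα, fun y => s y α₀ • s y, ⟨fun y α => ?_, fun y α hα' => ?_⟩, h5.trans ?_⟩
  · show |(s y α₀ • s y) α| ≤ 1
    rw [Pi.smul_apply, smul_eq_mul, abs_mul]
    exact mul_le_one₀ (h1 _ _) (abs_nonneg _) (h1 _ _)
  · show (s y α₀ • s y) α = 0
    rw [Pi.smul_apply, h2 y α hα', smul_zero]
  · refine Pool.MIC.Pb_le_of_imp n0 fun w _ hw => ?_
    rw [hE] at hw
    obtain ⟨g1, g2, g3⟩ := hw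
    refine ⟨g1, ?_, fun l => ?_⟩
    · simp only
      rw [Pi.smul_apply, smul_eq_mul, ← abs_mul_abs_self, g2, mul_one]
    · rw [B.ev_smul, abs_mul, g2, one_mul]
      exact g3 l

/-- A vector with a pivot is a relation. -/
theorem Ctx.rel_of_Gp (D : Ctx B θ) {a : Fin c → {γ // γ ∈ NN} → Fin m → ℝ[X]}
    {C₀ τ₀ τ ρ : ℝ} {S : Finset (Fin m)} {α₀ : Fin m} {s : D.G → Fin m → ℝ} (hs : Vec S s)
    (hP : ρ ≤ Pb D.q (D.Gp a C₀ τ₀ τ α₀ s)) : D.Rel a C₀ τ₀ S τ ρ := by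
  refine ⟨s, hs.1, hs.2, hP.trans ?_⟩
  refine Pool.MIC.Pb_le_of_imp D.isLaw.nonneg fun w _ hw => ⟨hw.1, ⟨α₀, ?_⟩, hw.2.2⟩
  rw [hw.2.1, abs_one]

/-- **Uniqueness in one context.** -/
theorem Ctx.uniq (D : Ctx B θ) {a : Fin c → {γ // γ ∈ NN} → Fin m → ℝ[X]}
    {C₀ τ₀ τ' ρ' : ℝ} {S : Finset (Fin m)} {α₀ : Fin m}
    (hNo : ¬ D.Rel a C₀ τ₀ (S.erase α₀) τ' ρ') {s s' : D.G → Fin m → ℝ} (hs : Vec S s)
    (hs' : Vec S s') {τ₁ τ₂ δ : ℝ} (hδ : 0 < δ) (hτ : τ₁ + τ₂ ≤ δ * τ') :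
    Pb D.q (fun w => B.Ty a C₀ τ₀ (D.pr w) ∧ s (D.x w) α₀ = 1 ∧ s' (D.x w) α₀ = 1 ∧
      (∀ l, |B.ev a (D.pr w) (s (D.x w)) l| ≤ τ₁) ∧
      (∀ l, |B.ev a (D.pr w) (s' (D.x w)) l| ≤ τ₂) ∧
      ∃ β, δ < |s (D.x w) β - s' (D.x w) β|) < ρ' := by
  classical
  by_contra hcon
  push Not at hcon
  refine hNo ⟨fun y => if s y α₀ = 1 ∧ s' y α₀ = 1 ∧ 0 < ‖s y - s' y‖ then
    ‖s y - s' y‖⁻¹ • (s y - s' y) else 0, ?_, ?_, hcon.trans ?_⟩
  · intro y α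
    simp only
    split_ifs with hc
    · rw [Pi.smul_apply, smul_eq_mul, abs_mul, abs_of_nonneg (inv_nonneg.2 (norm_nonneg _)),
        inv_mul_le_iff₀ hc.2.2, mul_one]
      exact norm_le_pi_norm (s y - s' y) α
    · rw [Pi.zero_apply, abs_zero]
      exact zero_le_one
  · intro y α hα
    simp only
    split_ifs with hc
    · rw [Pi.smul_apply, Pi.sub_apply]
      by_cases h1 : α = α₀
      · rw [h1, hc.1, hc.2.1, sub_self, smul_zero]
      · have h2 : α ∉ S := fun h3 => hα (Finset.mem_erase.2 ⟨h1, h3⟩)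
        rw [hs.2 y α h2, hs'.2 y α h2, sub_self, smul_zero]
    · rfl
  · refine Pool.MIC.Pb_le_of_imp D.isLaw.nonneg fun w _ hw => ?_
    obtain ⟨g1, g2, g3, g4, g5, β, g6⟩ := hw
    have hn : δ < ‖s (D.x w) - s' (D.x w)‖ :=
      lt_of_lt_of_le g6 (norm_le_pi_norm (s (D.x w) - s' (D.x w)) β)
    have hn0 : 0 < ‖s (D.x w) - s' (D.x w)‖ := hδ.trans hn
    have hc : s (D.x w) α₀ = 1 ∧ s' (D.x w) α₀ = 1 ∧ 0 < ‖s (D.x w) - s' (D.x w)‖ :=
      ⟨g2, g3, hn0⟩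
    refine ⟨g1, ?_, fun l => ?_⟩
    · have hne : Nonempty (Fin m) := ⟨β⟩
      obtain ⟨i, -, hi⟩ := Finset.exists_max_image (univ : Finset (Fin m))
        (fun i => ‖(s (D.x w) - s' (D.x w)) i‖) Finset.univ_nonempty
      have h7 : ‖s (D.x w) - s' (D.x w)‖ = ‖(s (D.x w) - s' (D.x w)) i‖ := by
        refine le_antisymm ((pi_norm_le_iff_of_nonneg (norm_nonneg _)).2 fun j =>
          hi j (Finset.mem_univ j)) (norm_le_pi_norm _ i)
      refine ⟨i, ?_⟩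
      simp only
      rw [if_pos hc, Pi.smul_apply, smul_eq_mul, abs_mul,
        abs_of_nonneg (inv_nonneg.2 hn0.le), ← Real.norm_eq_abs, ← h7, inv_mul_cancel₀ hn0.ne']
    · simp only
      rw [if_pos hc, B.ev_smul, B.ev_sub, abs_mul, abs_of_nonneg (inv_nonneg.2 hn0.le),
        inv_mul_le_iff₀ hn0]
      refine (abs_sub _ _).trans ((add_le_add (g4 l) (g5 l)).trans (hτ.trans ?_))
      have hτ' : 0 ≤ τ' := by
        have h8 : 0 ≤ τ₁ + τ₂ := add_nonneg ((abs_nonneg _).trans (g4 l)) ((abs_nonneg _).trans (g5 l))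
        by_contra hh
        push Not at hh
        have := mul_neg_of_pos_of_neg hδ hh
        linarith
      exact mul_le_mul_of_nonneg_right hn.le hτ'

/-- **A small coefficient is removed.** -/
theorem Ctx.small (D : Ctx B θ) {a : Fin c → {γ // γ ∈ NN} → Fin m → ℝ[X]}
    {C₀ τ₀ τ τ' ρ' M δ : ℝ} {S : Finset (Fin m)} {α₀ β : Fin m} (hβ : β ≠ α₀)
    (hM : ∀ ω, B.Ty a C₀ τ₀ ω → ∀ α l, |B.ev a ω (Pi.single α 1) l| ≤ M)
    (hNo : ¬ D.Rel a C₀ τ₀ (S.erase β) τ' ρ') {s : D.G → Fin m → ℝ} (hs : Vec S s)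
    (hτ : τ + δ * M ≤ τ') :
    Pb D.q (fun w => D.Gp a C₀ τ₀ τ α₀ s w ∧ |s (D.x w) β| ≤ δ) < ρ' := by
  classical
  by_contra hcon
  push Not at hcon
  refine hNo ⟨fun y => Function.update (s y) β 0, ?_, ?_, hcon.trans ?_⟩
  · intro y α
    simp only
    by_cases h1 : α = β
    · rw [h1, Function.update_self, abs_zero]
      exact zero_le_one
    · rw [Function.update_of_ne h1]
      exact hs.1 y α
  · intro y α hα
    simp only
    by_cases h1 : α = β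
    · rw [h1, Function.update_self]
    · rw [Function.update_of_ne h1]
      exact hs.2 y α fun h3 => hα (Finset.mem_erase.2 ⟨h1, h3⟩)
  · refine Pool.MIC.Pb_le_of_imp D.isLaw.nonneg fun w _ hw => ?_
    obtain ⟨⟨g1, g2, g3⟩, g4⟩ := hw
    refine ⟨g1, ⟨α₀, ?_⟩, fun l => ?_⟩
    · show |Function.update (s (D.x w)) β 0 α₀| = 1
      rw [Function.update_of_ne hβ.symm, g2, abs_one]
    · have h5 : Function.update (s (D.x w)) β 0 = s (D.x w) -
          s (D.x w) β • (Pi.single β (1 : ℝ) : Fin m → ℝ) := by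
        funext α
        rw [Pi.sub_apply, Pi.smul_apply]
        by_cases h1 : α = β
        · rw [h1, Function.update_self, Pi.single_eq_same, smul_eq_mul, mul_one, sub_self]
        · rw [Function.update_of_ne h1, Pi.single_eq_of_ne h1, smul_zero, sub_zero]
      simp only
      rw [h5, B.ev_sub, B.ev_smul]
      refine (abs_sub _ _).trans ?_
      rw [abs_mul]
      refine (add_le_add (g3 l) ?_).trans hτ
      exact mul_le_mul g4 (hM _ g1 β l) (abs_nonneg _) ((abs_nonneg _).trans g4)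

end

end Pool.REL
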