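import Pool.Agent.H50.REL.Ext

/-!
# Relations with a designated pivot

`RelN`: relations with the coefficient `1` at the coordinate `α₀`, of size at most `R`. If there is
none with a smaller support, then there is no relation at all without `α₀` in the support (jointly
with a relation for `α₀`), the relation is unique and a function of the exact point.
-/

set_option autoImplicit false

namespace Pool.REL

open Finset Polynomial
open Pool.Agent.H49.Ent Pool.Agent.H32.Dense Pool.STK Pool.BFL Pool.GLB Pool.CLU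
open Pool.K2S (cpn)

section

variable {h m c : ℕ} {NN : Finset (Fin h →₀ ℕ)} {B : Bd h m c} {θ : ℝ}

/-- Vectors of the context of size `R` with support in `S`. -/
def VecR {G : Type} (R : ℝ) (S : Finset (Fin m)) (s : G → Fin m → ℝ) : Prop :=
  (∀ y α, |s y α| ≤ R) ∧ ∀ y, ∀ α ∉ S, s y α = 0

/-- **A relation with the pivot `α₀`.** -/
def Ctx.RelN (D : Ctx B θ) (a : Fin c → {γ // γ ∈ NN} → Fin m → ℝ[X]) (C₀ τ₀ : ℝ) (α₀ : Fin m)
    (S : Finset (Fin m)) (R τ ρ : ℝ) : Prop :=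
  ∃ s : D.G → Fin m → ℝ, VecR R S s ∧ ρ ≤ Pb D.q (D.Gp a C₀ τ₀ τ α₀ s)

theorem Ctx.RelN.mono {D : Ctx B θ} {a : Fin c → {γ // γ ∈ NN} → Fin m → ℝ[X]} {C₀ τ₀ : ℝ}
    {α₀ : Fin m} {S : Finset (Fin m)} {R τ ρ R' τ' ρ' : ℝ} (hR : D.RelN a C₀ τ₀ α₀ S R τ ρ)
    (hRR : R ≤ R') (hτ : τ ≤ τ') (hρ : ρ' ≤ ρ) : D.RelN a C₀ τ₀ α₀ S R' τ' ρ' := by
  obtain ⟨s, h1, h3⟩ := hR
  refine ⟨s, ⟨fun y α => (h1.1 y α).trans hRR, h1.2⟩, hρ.trans (h3.trans ?_)⟩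
  exact Pool.MIC.Pb_le_of_imp D.isLaw.nonneg fun w _ hw =>
    ⟨hw.1, hw.2.1, fun l => (hw.2.2 l).trans hτ⟩

theorem Ctx.RelN.cost {D : Ctx B θ} {a : Fin c → {γ // γ ∈ NN} → Fin m → ℝ[X]} {C₀ τ₀ : ℝ}
    {α₀ : Fin m} {S : Finset (Fin m)} {R τ ρ θ' : ℝ} (hR : D.RelN a C₀ τ₀ α₀ S R τ ρ)
    (hθ : θ ≤ θ') : (D.mono hθ).RelN a C₀ τ₀ α₀ S R τ ρ := hR

theorem Ctx.RelN.mem {D : Ctx B θ} {a : Fin c → {γ // γ ∈ NN} → Fin m → ℝ[X]} {C₀ τ₀ : ℝ}
    {α₀ : Fin m} {S : Finset (Fin m)} {R τ ρ : ℝ} (hR : D.RelN a C₀ τ₀ α₀ S R τ ρ)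
    (hρ : 0 < ρ) : α₀ ∈ S := by
  classical
  obtain ⟨s, h1, h3⟩ := hR
  by_contra hh
  have h6 : Pb D.q (D.Gp a C₀ τ₀ τ α₀ s) ≤ 0 := by
    unfold Pb
    refine Finset.sum_nonpos fun w _ => ?_
    rw [if_neg]
    intro h7
    have h8 := h7.2.1
    rw [h1.2 _ _ hh] at h8
    exact zero_ne_one h8
  linarith

/-- **A relation without the pivot is used up.** -/
theorem Ctx.absorb (D : Ctx B θ) {a : Fin c → {γ // γ ∈ NN} → Fin m → ℝ[X]}
    {C₀ τ₀ R R' τ' ρ' : ℝ} {S : Finset (Fin m)} {α₀ : Fin m}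
    (hNo : ∀ β ∈ S, β ≠ α₀ → ¬ D.RelN a C₀ τ₀ α₀ (S.erase β) R' τ' ρ')
    {s d : D.G → Fin m → ℝ} (hs : VecR R S s) (hd : VecR 1 (S.erase α₀) d) {τ₁ τ₂ : ℝ}
    (hρ' : 0 ≤ ρ') (hRR : 2 * R ≤ R') (hτ : τ₁ + R * τ₂ ≤ τ') :
    Pb D.q (fun w => D.Gp a C₀ τ₀ τ₁ α₀ s w ∧ (∃ β, |d (D.x w) β| = 1) ∧
      ∀ l, |B.ev a (D.pr w) (d (D.x w)) l| ≤ τ₂) ≤ m * ρ' := by
  classical
  have n0 := D.isLaw.nonneg
  obtain ⟨E, hE⟩ : ∃ E : Fin m → D.W → Prop, E = fun β w => D.Gp a C₀ τ₀ τ₁ α₀ s w ∧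
    |d (D.x w) β| = 1 ∧ ∀ l, |B.ev a (D.pr w) (d (D.x w)) l| ≤ τ₂ := ⟨_, rfl⟩
  have h1 : Pb D.q (fun w => D.Gp a C₀ τ₀ τ₁ α₀ s w ∧ (∃ β, |d (D.x w) β| = 1) ∧
      ∀ l, |B.ev a (D.pr w) (d (D.x w)) l| ≤ τ₂) ≤ ∑ β, Pb D.q (E β) := by
    refine le_trans ?_ (Pool.MIC.Pb_exists_le n0 E)
    refine Pool.MIC.Pb_le_of_imp n0 fun w _ hw => ?_
    obtain ⟨g1, ⟨β, g2⟩, g3⟩ := hw
    refine ⟨β, ?_⟩
    rw [hE]
    exact ⟨g1, g2, g3⟩
  refine h1.trans ?_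
  have h2 : ∀ β ∈ (univ : Finset (Fin m)), Pb D.q (E β) ≤ ρ' := by
    intro β _
    by_cases hβ : β ∈ S.erase α₀
    · by_contra hcon
      push Not at hcon
      obtain ⟨hβ1, hβ2⟩ := Finset.mem_erase.1 hβ
      have hm : ∀ y α, |d y β * d y α| ≤ 1 := by
        intro y α
        rw [abs_mul]
        exact mul_le_one₀ (hd.1 _ _) (abs_nonneg _) (hd.1 _ _)
      refine hNo β hβ2 hβ1 ⟨fun y => if |d y β| = 1 then s y - (s y β * d y β) • d y else 0,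
        ⟨?_, ?_⟩, hcon.le.trans ?_⟩
      · intro y α
        have hR0 : 0 ≤ R := (abs_nonneg _).trans (hs.1 y α)
        show |(if |d y β| = 1 then s y - (s y β * d y β) • d y else 0 : Fin m → ℝ) α| ≤ R'
        split_ifs with hc
        · rw [Pi.sub_apply, Pi.smul_apply, smul_eq_mul, mul_assoc]
          refine (abs_sub _ _).trans ?_
          rw [abs_mul]
          have h3 : |s y β| * |d y β * d y α| ≤ R * 1 :=
            mul_le_mul (hs.1 _ _) (hm y α) (abs_nonneg _) hR0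
          have h4 := hs.1 y α
          linarith
        · rw [Pi.zero_apply, abs_zero]
          linarith
      · intro y α hα
        show (if |d y β| = 1 then s y - (s y β * d y β) • d y else 0 : Fin m → ℝ) α = 0
        split_ifs with hc
        · rw [Pi.sub_apply, Pi.smul_apply, smul_eq_mul]
          by_cases h3 : α = β
          · have h4 : d y β * d y β = 1 := by
              rw [← abs_mul_abs_self, hc, mul_one]
            rw [h3, mul_assoc, h4, mul_one, sub_self]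
          · have h4 : α ∉ S := fun h5 => hα (Finset.mem_erase.2 ⟨h3, h5⟩)
            rw [hs.2 y α h4, hd.2 y α (fun h5 => h4 (Finset.mem_erase.1 h5).2), mul_zero,
              sub_zero]
        · rfl
      · refine Pool.MIC.Pb_le_of_imp n0 fun w _ hw => ?_
        rw [hE] at hw
        obtain ⟨g1, g2, g3⟩ := hw
        refine ⟨g1.1, ?_, fun l => ?_⟩
        · show (if |d (D.x w) β| = 1 then s (D.x w) - (s (D.x w) β * d (D.x w) β) • d (D.x w)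
            else 0 : Fin m → ℝ) α₀ = 1
          rw [if_pos g2, Pi.sub_apply, Pi.smul_apply, smul_eq_mul,
            hd.2 _ α₀ (Finset.notMem_erase α₀ S), mul_zero, sub_zero]
          exact g1.2.1
        · show |B.ev a (D.pr w) (if |d (D.x w) β| = 1 then s (D.x w) -
            (s (D.x w) β * d (D.x w) β) • d (D.x w) else 0) l| ≤ τ'
          rw [if_pos g2, B.ev_sub, B.ev_smul]
          refine (abs_sub _ _).trans (le_trans ?_ hτ)
          refine add_le_add (g1.2.2 l) ?_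
          rw [abs_mul, abs_mul, g2, mul_one]
          exact mul_le_mul (hs.1 _ _) (g3 l) (abs_nonneg _)
            ((abs_nonneg _).trans (hs.1 (D.x w) β))
    · refine le_trans (le_of_eq ?_) hρ'
      unfold Pb
      refine Finset.sum_eq_zero fun w _ => ?_
      rw [if_neg]
      rw [hE]
      intro hh
      have h3 := hh.2.1
      rw [hd.2 _ _ hβ, abs_zero] at h3
      exact zero_ne_one h3
  refine (Finset.sum_le_sum h2).trans (le_of_eq ?_)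
  rw [Finset.sum_const, Finset.card_univ, Fintype.card_fin, nsmul_eq_mul]

/-- **Uniqueness in one context.** -/
theorem Ctx.uniqN (D : Ctx B θ) {a : Fin c → {γ // γ ∈ NN} → Fin m → ℝ[X]}
    {C₀ τ₀ R R' τ' ρ' : ℝ} {S : Finset (Fin m)} {α₀ : Fin m}
    (hNo : ∀ β ∈ S, β ≠ α₀ → ¬ D.RelN a C₀ τ₀ α₀ (S.erase β) R' τ' ρ')
    {s s' : D.G → Fin m → ℝ} (hs : VecR R S s)
    (hs' : ∀ y, ∀ α ∉ S, s' y α = 0) {τ₁ τ₂ δ : ℝ} (hδ : 0 < δ) (hρ' : 0 ≤ ρ')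
    (hRR : 2 * R ≤ R') (hτ : τ₁ + R * ((τ₁ + τ₂) / δ) ≤ τ') :
    Pb D.q (fun w => D.Gp a C₀ τ₀ τ₁ α₀ s w ∧ s' (D.x w) α₀ = 1 ∧
      (∀ l, |B.ev a (D.pr w) (s' (D.x w)) l| ≤ τ₂) ∧
      ∃ β, δ < |s (D.x w) β - s' (D.x w) β|) ≤ m * ρ' := by
  classical
  have n0 := D.isLaw.nonneg
  obtain ⟨d, hd⟩ : ∃ d : D.G → Fin m → ℝ, d = fun y =>
    if s y α₀ = 1 ∧ s' y α₀ = 1 ∧ 0 < ‖s y - s' y‖ then
    ‖s y - s' y‖⁻¹ • (s y - s' y) else 0 := ⟨_, rfl⟩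
  have hdv : VecR 1 (S.erase α₀) d := by
    refine ⟨fun y α => ?_, fun y α hα => ?_⟩
    · rw [hd]
      simp only
      split_ifs with hc
      · rw [Pi.smul_apply, smul_eq_mul, abs_mul, abs_of_nonneg (inv_nonneg.2 (norm_nonneg _)),
          inv_mul_le_iff₀ hc.2.2, mul_one]
        exact norm_le_pi_norm (s y - s' y) α
      · rw [Pi.zero_apply, abs_zero]
        exact zero_le_one
    · rw [hd]
      simp only
      split_ifs with hc
      · rw [Pi.smul_apply, Pi.sub_apply]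
        by_cases h1 : α = α₀
        · rw [h1, hc.1, hc.2.1, sub_self, smul_zero]
        · have h2 : α ∉ S := fun h3 => hα (Finset.mem_erase.2 ⟨h1, h3⟩)
          rw [hs.2 y α h2, hs' y α h2, sub_self, smul_zero]
      · rfl
  refine le_trans ?_ (D.absorb hNo hs hdv (τ₁ := τ₁) (τ₂ := (τ₁ + τ₂) / δ) hρ' hRR hτ)
  refine Pool.MIC.Pb_le_of_imp n0 fun w _ hw => ?_
  obtain ⟨g1, g3, g5, β, g6⟩ := hw
  have hn : δ < ‖s (D.x w) - s' (D.x w)‖ :=
    lt_of_lt_of_le g6 (norm_le_pi_norm (s (D.x w) - s' (D.x w)) β)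
  have hn0 : 0 < ‖s (D.x w) - s' (D.x w)‖ := hδ.trans hn
  have hc : s (D.x w) α₀ = 1 ∧ s' (D.x w) α₀ = 1 ∧ 0 < ‖s (D.x w) - s' (D.x w)‖ :=
    ⟨g1.2.1, g3, hn0⟩
  have hdw : d (D.x w) = ‖s (D.x w) - s' (D.x w)‖⁻¹ • (s (D.x w) - s' (D.x w)) := by
    rw [hd]
    exact if_pos hc
  refine ⟨g1, ?_, fun l => ?_⟩
  · have hne : Nonempty (Fin m) := ⟨β⟩
    obtain ⟨i, -, hi⟩ := Finset.exists_max_image (univ : Finset (Fin m))
      (fun i => ‖(s (D.x w) - s' (D.x w)) i‖) Finset.univ_nonempty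
    have h7 : ‖s (D.x w) - s' (D.x w)‖ = ‖(s (D.x w) - s' (D.x w)) i‖ := by
      refine le_antisymm ((pi_norm_le_iff_of_nonneg (norm_nonneg _)).2 fun j =>
        hi j (Finset.mem_univ j)) (norm_le_pi_norm _ i)
    refine ⟨i, ?_⟩
    rw [hdw, Pi.smul_apply, smul_eq_mul, abs_mul,
      abs_of_nonneg (inv_nonneg.2 hn0.le), ← Real.norm_eq_abs, ← h7, inv_mul_cancel₀ hn0.ne']
  · rw [hdw, B.ev_smul, B.ev_sub, abs_mul, abs_of_nonneg (inv_nonneg.2 hn0.le),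
      inv_mul_le_iff₀ hn0]
    have h8 : 0 ≤ τ₁ + τ₂ :=
      add_nonneg ((abs_nonneg _).trans (g1.2.2 l)) ((abs_nonneg _).trans (g5 l))
    refine (abs_sub _ _).trans ((add_le_add (g1.2.2 l) (g5 l)).trans ?_)
    have h9 : δ * ((τ₁ + τ₂) / δ) = τ₁ + τ₂ := mul_div_cancel₀ _ hδ.ne'
    have h10 := mul_le_mul_of_nonneg_right hn.le (div_nonneg h8 hδ.le)
    linarith

/-- **A small coefficient is removed.** -/
theorem Ctx.smallN (D : Ctx B θ) {a : Fin c → {γ // γ ∈ NN} → Fin m → ℝ[X]}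
    {C₀ τ₀ τ τ' ρ' M δ R : ℝ} {S : Finset (Fin m)} {α₀ β : Fin m} (hβ : β ≠ α₀)
    (hM : ∀ ω, B.Ty a C₀ τ₀ ω → ∀ α l, |B.ev a ω (Pi.single α 1) l| ≤ M)
    (hNo : ¬ D.RelN a C₀ τ₀ α₀ (S.erase β) R τ' ρ') {s : D.G → Fin m → ℝ} (hs : VecR R S s)
    (hτ : τ + δ * M ≤ τ') :
    Pb D.q (fun w => D.Gp a C₀ τ₀ τ α₀ s w ∧ |s (D.x w) β| ≤ δ) < ρ' := by
  classical
  by_contra hcon
  push Not at hcon
  refine hNo ⟨fun y => Function.update (s y) β 0, ⟨?_, ?_⟩, hcon.trans ?_⟩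
  · intro y α
    simp only
    have hR0 : 0 ≤ R := (abs_nonneg _).trans (hs.1 y α)
    by_cases h1 : α = β
    · rw [h1, Function.update_self, abs_zero]
      exact hR0
    · rw [Function.update_of_ne h1]
      exact hs.1 y α
  · intro y α hα
    simp only
    by_cases h1 : α = β
    · rw [h1, Function.update_self]
    · rw [Function.update_of_ne h1]
      exact hs.2 y α fun h3 => hα (Finset.mem_erase.2 ⟨h1, h3⟩)
  · refine Pool.MIC.Pb_le_of_imp D.isLaw.nonneg fun w _ hw => ?_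
    obtain ⟨⟨g1, g2, g3⟩, g4⟩ := hw
    refine ⟨g1, ?_, fun l => ?_⟩
    · show Function.update (s (D.x w)) β 0 α₀ = 1
      rw [Function.update_of_ne hβ.symm, g2]
    · have h5 : Function.update (s (D.x w)) β 0 = s (D.x w) -
          s (D.x w) β • (Pi.single β (1 : ℝ) : Fin m → ℝ) := by
        funext α
        rw [Pi.sub_apply, Pi.smul_apply]
        by_cases h1 : α = β
        · rw [h1, Function.update_self, Pi.single_eq_same, smul_eq_mul, mul_one, sub_self]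
        · rw [Function.update_of_ne h1, Pi.single_eq_of_ne h1, smul_zero, sub_zero]
      simp only
      rw [h5, B.ev_sub, B.ev_smul]
      refine (abs_sub _ _).trans ?_
      rw [abs_mul]
      refine (add_le_add (g3 l) ?_).trans hτ
      exact mul_le_mul g4 (hM _ g1 β l) (abs_nonneg _) ((abs_nonneg _).trans g4)

/-- **The relation is a function of the exact point.** -/
theorem Ctx.visN (D : Ctx B θ) (hB : B.Ok) {a : Fin c → {γ // γ ∈ NN} → Fin m → ℝ[X]}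
    {C₀ τ₀ τ τ' ρ' δ R R' : ℝ} {S : Finset (Fin m)} {α₀ : Fin m}
    (hNo : ∀ β ∈ S, β ≠ α₀ → ¬ (D.gl D hB).RelN a C₀ τ₀ α₀ (S.erase β) R' τ' ρ')
    {s : D.G → Fin m → ℝ} (hs : VecR R S s) (hδ : 0 < δ) (hρ' : 0 ≤ ρ')
    (hRR : 2 * R ≤ R') (hτ : τ + R * ((2 * τ + 2 * m * (R * τ₀)) / δ) ≤ τ') :
    ∃ sv : B.Ξ → Fin m → ℝ, VecR R S sv ∧
      Pb D.q (fun w => D.Gp a C₀ τ₀ τ α₀ s w ∧
        ¬ (sv (B.pt (D.pr w)) α₀ = 1 ∧
          ∀ β, |s (D.x w) β - sv (B.pt (D.pr w)) β| ≤ δ)) ≤ Real.sqrt (m * ρ') := by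
  classical
  have n0 := D.isLaw.nonneg
  -- the two samples
  have h1 := (D.gl D hB).uniqN (a := a) (C₀ := C₀) (τ₀ := τ₀) (τ' := τ') (ρ' := ρ') (S := S)
    (α₀ := α₀) (R := R) (R' := R') hNo (s := fun y => s y.1) (s' := fun y => s y.2)
    ⟨fun y α => hs.1 _ _, fun y α hα => hs.2 _ _ hα⟩
    (fun y α hα => hs.2 _ _ hα) (τ₁ := τ) (τ₂ := τ + 2 * m * (R * τ₀)) (δ := δ)
    hδ hρ' hRR (by
      have e : τ + (τ + 2 * m * (R * τ₀)) = 2 * τ + 2 * m * (R * τ₀) := by ring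
      rw [e]
      exact hτ)
  have h2 : Pb (glue D.q D.q (fun w => B.pt (D.pr w)) (fun w => B.pt (D.pr w)))
      (fun w => D.Gp a C₀ τ₀ τ α₀ s w.1 ∧ D.Gp a C₀ τ₀ τ α₀ s w.2 ∧
        ∃ β, δ < |s (D.x w.1) β - s (D.x w.2) β|) ≤ m * ρ' := by
    refine le_trans ?_ h1
    refine Pool.MIC.Pb_le_of_imp (D.gl D hB).isLaw.nonneg fun w hw hh => ?_
    obtain ⟨g1, g2, g3⟩ := hh
    have hpos : 0 < D.q w.1 ∧ 0 < D.q w.2 ∧ B.pt (D.pr w.1) = B.pt (D.pr w.2) :=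
      (glue_pos_iff (Z₁ := fun w => B.pt (D.pr w)) (Z₂ := fun w => B.pt (D.pr w)) n0 n0 w).1 hw
    refine ⟨g1, g2.2.1, fun l => ?_, g3⟩
    -- the second vector at the first sample
    have h3 : B.ev a (D.pr w.1) (s (D.x w.2)) l = B.ev a (D.pr w.2) (s (D.x w.2)) l +
        ∑ α, s (D.x w.2) α * (B.ev a (D.pr w.1) (Pi.single α 1) l -
          B.ev a (D.pr w.2) (Pi.single α 1) l) := by
      rw [B.ev_sum a (D.pr w.1) (s (D.x w.2)) l, B.ev_sum a (D.pr w.2) (s (D.x w.2)) l,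
        ← Finset.sum_add_distrib]
      refine Finset.sum_congr rfl fun α _ => ?_
      ring
    have h4 : ∀ α, |B.ev a (D.pr w.1) (Pi.single α 1) l -
        B.ev a (D.pr w.2) (Pi.single α 1) l| ≤ 2 * τ₀ := by
      intro α
      have h5 := g1.1.2.2 α l
      have h6 := g2.1.2.2 α l
      have h7 := hpos.2.2
      rw [h7] at h5
      rw [abs_le] at h5 h6 ⊢
      constructor <;> linarith [h5.1, h5.2, h6.1, h6.2]
    show |B.ev a (D.pr w.1) (s (D.x w.2)) l| ≤ _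
    rw [h3]
    refine (abs_add_le _ _).trans (add_le_add (g2.2.2 l) ?_)
    refine (Finset.abs_sum_le_sum_abs _ _).trans ?_
    have h8 : ∀ α ∈ (univ : Finset (Fin m)), |s (D.x w.2) α *
        (B.ev a (D.pr w.1) (Pi.single α 1) l - B.ev a (D.pr w.2) (Pi.single α 1) l)| ≤
          R * (2 * τ₀) := by
      intro α _
      rw [abs_mul]
      exact mul_le_mul (hs.1 _ _) (h4 α) (abs_nonneg _) ((abs_nonneg _).trans (hs.1 (D.x w.2) α))
    refine (Finset.sum_le_sum h8).trans (le_of_eq ?_)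
    rw [Finset.sum_const, Finset.card_univ, Fintype.card_fin, nsmul_eq_mul]
    ring
  obtain ⟨x, hx⟩ := best D.isLaw (fun w => B.pt (D.pr w)) (D.Gp a C₀ τ₀ τ α₀ s)
    (fun w w' => ∃ β, δ < |s (D.x w) β - s (D.x w') β|) h2
  refine ⟨fun z => s (D.x (x z)), ⟨fun y α => hs.1 _ _, fun y α hα => hs.2 _ _ hα⟩,
    le_trans ?_ hx⟩
  refine Pool.MIC.Pb_le_of_imp n0 fun w _ hw => ⟨hw.1, fun hh => hw.2 ?_⟩
  obtain ⟨g1, g2, g3, g4⟩ := hh
  refine ⟨g3.2.1, fun β => ?_⟩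
  by_contra hc
  push Not at hc
  exact g4 ⟨β, hc⟩

end

end Pool.REL
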