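import Pool.Agent.H50.REL.Eng

/-!
# The relation at the level of the samples

The relation found by the engine, without the context: a function `sv` of the exact point, polynomial
in the time along the line, which satisfies the equations of the values at the exact point.
-/

set_option autoImplicit false

namespace Pool.REL

open Finset Polynomial
open Pool.Agent.H49.Ent Pool.Agent.H32.Dense Pool.STK Pool.BFL Pool.GLB Pool.CLU
open Pool.K2S (cpn)

section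

variable {h m c : ℕ} {NN : Finset (Fin h →₀ ℕ)}

/-- **The relation at the level of the samples.** -/
theorem Out.base {a : Fin c → {γ // γ ∈ NN} → Fin m → ℝ[X]} {C₀ : ℝ} {B : Bd h m c} {Λ τ₀ : ℝ}
    {θ : ℝ} {D : Ctx B θ} {S : Finset (Fin m)} {α₀ : Fin m} {lo hi A₂ K₂ : ℕ} {ρ : ℝ}
    {s : D.G → Fin m → ℝ} {sv : B.Ξ → Fin m → ℝ} {F : B.Λ → ℤ → Fin m → ℝ[X]}
    (O : Out a C₀ B Λ τ₀ D S α₀ lo hi A₂ K₂ ρ s sv F) (hΛ : 2 ≤ Λ) (hlh : lo < hi) {M : ℝ}
    (hM : ∀ ω, B.Ty a C₀ τ₀ ω → ∀ α l, |B.ev a ω (Pi.single α 1) l| ≤ M) :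
    ρ ≤ Pb B.p (fun ω => B.Ty a C₀ τ₀ ω ∧ sv (B.pt ω) α₀ = 1 ∧
      (∀ β ∈ S, 1 ≤ 2 * |sv (B.pt ω) β| * Λ ^ lo) ∧
      (∀ l, |∑ β, sv (B.pt ω) β * B.fv (B.pt ω) β l| ≤ (1 + m * M) / Λ ^ hi + m * τ₀) ∧
      ∀ β, |sv (B.pt ω) β - (F (B.L ω) ⌊B.th ω * Λ ^ A₂⌋ β).eval (B.th ω)| * Λ ^ hi ≤ 2) := by
  classical
  have n0 := D.isLaw.nonneg
  rw [← Pool.MIC.Marg.Pb_eq D.mg]
  refine O.pb.trans (Pool.MIC.Pb_le_of_imp n0 fun w _ hw => ?_)
  obtain ⟨g1, g2, g3, g4, g5⟩ := hw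
  have hΛ0 : 0 < Λ := by linarith
  have hp0 : ∀ n : ℕ, 0 < Λ ^ n := fun n => pow_pos hΛ0 n
  refine ⟨g1.1, g3, fun β hβ => ?_, fun l => ?_, fun β => ?_⟩
  · have h1 := g2 β hβ
    have h2 := g4 β
    have h3 : |s (D.x w) β| ≤ |sv (B.pt (D.pr w)) β| + |s (D.x w) β - sv (B.pt (D.pr w)) β| := by
      have := abs_add_le (sv (B.pt (D.pr w)) β) (s (D.x w) β - sv (B.pt (D.pr w)) β)
      rwa [add_sub_cancel] at this
    have h4 : |s (D.x w) β - sv (B.pt (D.pr w)) β| * Λ ^ lo ≤ 1 / 2 := by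
      have h5 : Λ ^ hi = Λ ^ lo * Λ ^ (hi - lo) := by
        rw [← pow_add]
        congr 1
        omega
      have h6 : 2 ≤ Λ ^ (hi - lo) := by
        calc (2 : ℝ) ≤ Λ := hΛ
          _ = Λ ^ 1 := (pow_one _).symm
          _ ≤ Λ ^ (hi - lo) := pow_le_pow_right₀ (by linarith) (by omega)
      rw [h5, ← mul_assoc] at h2
      have h7 : 0 ≤ |s (D.x w) β - sv (B.pt (D.pr w)) β| * Λ ^ lo :=
        mul_nonneg (abs_nonneg _) (hp0 _).le
      have h8 := mul_le_mul_of_nonneg_left h6 h7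
      linarith
    have h9 : |s (D.x w) β| * Λ ^ lo ≤ |sv (B.pt (D.pr w)) β| * Λ ^ lo +
        |s (D.x w) β - sv (B.pt (D.pr w)) β| * Λ ^ lo := by
      rw [← add_mul]
      exact mul_le_mul_of_nonneg_right h3 (hp0 _).le
    linarith
  · have h1 := g1.2.2 l
    rw [B.ev_sum] at h1
    have h2 : ∑ β, sv (B.pt (D.pr w)) β * B.fv (B.pt (D.pr w)) β l =
        (∑ β, s (D.x w) β * B.ev a (D.pr w) (Pi.single β 1) l) +
        ((∑ β, (sv (B.pt (D.pr w)) β - s (D.x w) β) * B.ev a (D.pr w) (Pi.single β 1) l) +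
        ∑ β, sv (B.pt (D.pr w)) β * (B.fv (B.pt (D.pr w)) β l -
          B.ev a (D.pr w) (Pi.single β 1) l)) := by
      rw [← Finset.sum_add_distrib, ← Finset.sum_add_distrib]
      refine Finset.sum_congr rfl fun β _ => ?_
      ring
    have h3 : |∑ β, (sv (B.pt (D.pr w)) β - s (D.x w) β) *
        B.ev a (D.pr w) (Pi.single β 1) l| ≤ m * (1 / Λ ^ hi * M) := by
      refine (Finset.abs_sum_le_sum_abs _ _).trans ?_
      have h4 : ∀ β ∈ (univ : Finset (Fin m)), |(sv (B.pt (D.pr w)) β - s (D.x w) β) *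
          B.ev a (D.pr w) (Pi.single β 1) l| ≤ 1 / Λ ^ hi * M := by
        intro β _
        rw [abs_mul, abs_sub_comm]
        refine mul_le_mul ?_ (hM _ g1.1 β l) (abs_nonneg _) (div_pos one_pos (hp0 _)).le
        rw [le_div_iff₀ (hp0 _)]
        exact g4 β
      refine (Finset.sum_le_sum h4).trans (le_of_eq ?_)
      rw [Finset.sum_const, Finset.card_univ, Fintype.card_fin, nsmul_eq_mul]
    have h5 : |∑ β, sv (B.pt (D.pr w)) β * (B.fv (B.pt (D.pr w)) β l -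
        B.ev a (D.pr w) (Pi.single β 1) l)| ≤ m * τ₀ := by
      refine (Finset.abs_sum_le_sum_abs _ _).trans ?_
      have h6 : ∀ β ∈ (univ : Finset (Fin m)), |sv (B.pt (D.pr w)) β *
          (B.fv (B.pt (D.pr w)) β l - B.ev a (D.pr w) (Pi.single β 1) l)| ≤ τ₀ := by
        intro β _
        rw [abs_mul, abs_sub_comm]
        have h7 := g1.1.2.2 β l
        have h8 := O.vecv.1 (B.pt (D.pr w)) β
        calc _ ≤ 1 * τ₀ := mul_le_mul h8 h7 (abs_nonneg _) zero_le_one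
          _ = τ₀ := one_mul _
      refine (Finset.sum_le_sum h6).trans (le_of_eq ?_)
      rw [Finset.sum_const, Finset.card_univ, Fintype.card_fin, nsmul_eq_mul]
    rw [h2]
    refine (abs_add_le _ _).trans ?_
    have h6 := abs_add_le (∑ β, (sv (B.pt (D.pr w)) β - s (D.x w) β) *
      B.ev a (D.pr w) (Pi.single β 1) l) (∑ β, sv (B.pt (D.pr w)) β *
      (B.fv (B.pt (D.pr w)) β l - B.ev a (D.pr w) (Pi.single β 1) l))
    have h7 : (1 + m * M) / Λ ^ hi + m * τ₀ = 1 / Λ ^ hi + (m * (1 / Λ ^ hi * M) + m * τ₀) := by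
      ring
    rw [h7]
    linarith
  · have h1 := g4 β
    have h2 := g5 β
    have h3 : |sv (B.pt (D.pr w)) β - (F (B.L (D.pr w)) ⌊B.th (D.pr w) * Λ ^ A₂⌋ β).eval
        (B.th (D.pr w))| ≤ |s (D.x w) β - sv (B.pt (D.pr w)) β| +
        |s (D.x w) β - (F (B.L (D.pr w)) ⌊B.th (D.pr w) * Λ ^ A₂⌋ β).eval
          (B.th (D.pr w))| := by
      rw [abs_sub_comm (s (D.x w) β) (sv (B.pt (D.pr w)) β)]
      have := abs_add_le (sv (B.pt (D.pr w)) β - s (D.x w) β) (s (D.x w) β -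
        (F (B.L (D.pr w)) ⌊B.th (D.pr w) * Λ ^ A₂⌋ β).eval (B.th (D.pr w)))
      rwa [sub_add_sub_cancel] at this
    have h4 := mul_le_mul_of_nonneg_right h3 (hp0 hi).le
    rw [add_mul] at h4
    linarith

end

end Pool.REL
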