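import Pool.Agent.H50.REL.Uni

/-!
# The relation is a function of the exact point
-/

set_option autoImplicit false

namespace Pool.REL

open Finset Polynomial
open Pool.Agent.H49.Ent Pool.Agent.H32.Dense Pool.STK Pool.BFL Pool.GLB Pool.CLU
open Pool.K2S (cpn)

/-- **The best sample over a label.** -/
theorem best {W Z : Type} [Fintype W] {q : W → ℝ} (hq : IsLaw q) (z : W → Z) (E : W → Prop)
    (Bad : W → W → Prop) {ρ : ℝ}
    (h : Pb (glue q q z z) (fun w => E w.1 ∧ E w.2 ∧ Bad w.1 w.2) ≤ ρ) :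
    ∃ x : Z → W, Pb q (fun w => E w ∧ ¬ (0 < q (x (z w)) ∧ z (x (z w)) = z w ∧ E (x (z w)) ∧
      ¬ Bad w (x (z w)))) ≤ Real.sqrt ρ := by
  classical
  have n0 := hq.nonneg
  have hne : Nonempty W := by
    by_contra hh
    rw [not_nonempty_iff] at hh
    have h1 := hq.sum_one
    rw [Finset.univ_eq_empty, Finset.sum_empty] at h1
    exact zero_ne_one h1
  obtain ⟨w₀⟩ := hne
  -- the masses
  obtain ⟨g, hg⟩ : ∃ g : Z → ℝ, g = fun t => ∑ w, if z w = t ∧ E w then q w else 0 := ⟨_, rfl⟩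
  obtain ⟨N, hN⟩ : ∃ N : Z → W → ℝ, N = fun t w₁ =>
    ∑ w, if z w = t ∧ E w ∧ Bad w w₁ then q w else 0 := ⟨_, rfl⟩
  have hN0 : ∀ t w, 0 ≤ N t w := by
    intro t w
    rw [hN]
    refine Finset.sum_nonneg fun v _ => ?_
    split_ifs
    · exact n0 v
    · exact le_rfl
  have hNg : ∀ t w, N t w ≤ g t := by
    intro t w
    rw [hN, hg]
    refine Finset.sum_le_sum fun v _ => ?_
    by_cases h1 : z v = t ∧ E v ∧ Bad v w
    · rw [if_pos h1, if_pos ⟨h1.1, h1.2.1⟩]
    · rw [if_neg h1]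
      split_ifs
      · exact n0 v
      · exact le_rfl
  obtain ⟨C, hC⟩ : ∃ C : Z → Finset W, C = fun t =>
    univ.filter fun w => 0 < q w ∧ z w = t ∧ E w := ⟨_, rfl⟩
  have hch : ∀ t, ∃ w, (C t).Nonempty → w ∈ C t ∧ ∀ w' ∈ C t, N t w ≤ N t w' := by
    intro t
    by_cases h1 : (C t).Nonempty
    · obtain ⟨w, h2, h3⟩ := Finset.exists_min_image (C t) (N t) h1
      exact ⟨w, fun _ => ⟨h2, h3⟩⟩
    · exact ⟨w₀, fun h2 => absurd h2 h1⟩
  choose x hx using hch
  refine ⟨x, ?_⟩
  -- the chosen mass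
  obtain ⟨M, hM⟩ : ∃ M : Z → ℝ, M = fun t => if (C t).Nonempty then N t (x t) else 0 := ⟨_, rfl⟩
  have hM0 : ∀ t, 0 ≤ M t := by
    intro t
    rw [hM]
    simp only
    split_ifs
    · exact hN0 _ _
    · exact le_rfl
  have hMg : ∀ t, M t ≤ g t := by
    intro t
    rw [hM]
    simp only
    split_ifs
    · exact hNg _ _
    · rw [hg]
      refine Finset.sum_nonneg fun v _ => ?_
      split_ifs
      · exact n0 v
      · exact le_rfl
  have e1 : Pb q (fun w => E w ∧ ¬ (0 < q (x (z w)) ∧ z (x (z w)) = z w ∧ E (x (z w)) ∧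
      ¬ Bad w (x (z w)))) ≤ ∑ t ∈ univ.image z, M t := by
    have e2 : ∀ t ∈ univ.image z, (∑ w, if z w = t ∧ (E w ∧ ¬ (0 < q (x (z w)) ∧
        z (x (z w)) = z w ∧ E (x (z w)) ∧ ¬ Bad w (x (z w)))) then q w else 0) ≤ M t := by
      intro t _
      by_cases h1 : (C t).Nonempty
      · have h2 := (hx t h1).1
        rw [hC] at h2
        simp only [Finset.mem_filter, Finset.mem_univ, true_and] at h2
        rw [hM]
        simp only
        rw [if_pos h1, hN]
        refine Finset.sum_le_sum fun w _ => ?_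
        by_cases h3 : z w = t ∧ (E w ∧ ¬ (0 < q (x (z w)) ∧ z (x (z w)) = z w ∧ E (x (z w)) ∧
            ¬ Bad w (x (z w))))
        · rw [if_pos h3]
          obtain ⟨h4, h5, h6⟩ := h3
          rw [h4] at h6
          have h7 : Bad w (x t) := by
            by_contra h8
            exact h6 ⟨h2.1, h2.2.1, h2.2.2, h8⟩
          rw [if_pos ⟨h4, h5, h7⟩]
        · rw [if_neg h3]
          split_ifs
          · exact n0 w
          · exact le_rfl
      · refine le_trans (le_of_eq ?_) (hM0 t)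
        refine Finset.sum_eq_zero fun w _ => ?_
        by_cases h3 : z w = t ∧ (E w ∧ ¬ (0 < q (x (z w)) ∧ z (x (z w)) = z w ∧ E (x (z w)) ∧
            ¬ Bad w (x (z w))))
        · rw [if_pos h3]
          by_contra h4
          refine h1 ⟨w, ?_⟩
          rw [hC]
          simp only [Finset.mem_filter, Finset.mem_univ, true_and]
          exact ⟨lt_of_le_of_ne (n0 w) (Ne.symm h4), h3.1, h3.2.1⟩
        · rw [if_neg h3]
    refine le_trans (le_of_eq ?_) (Finset.sum_le_sum e2)
    rw [Finset.sum_comm]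
    unfold Pb
    refine Finset.sum_congr rfl fun w _ => ?_
    rw [Finset.sum_eq_single (z w)]
    · simp
    · intro t _ ht
      rw [if_neg fun hh => ht hh.1.symm]
    · intro hh
      exact absurd (Finset.mem_image_of_mem z (Finset.mem_univ w)) hh
  -- the second moment
  have e3 : ∑ t ∈ univ.image z, M t ^ 2 / law q z t ≤ ρ := by
    refine le_trans ?_ h
    have e4 : ∀ t ∈ univ.image z, M t ^ 2 / law q z t ≤
        ∑ w₂, if z w₂ = t ∧ E w₂ then q w₂ * N t w₂ / law q z t else 0 := by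
      intro t _
      have hl : 0 ≤ law q z t := law_nonneg n0 _ _
      have h2 : M t ^ 2 ≤ ∑ w₂, if z w₂ = t ∧ E w₂ then q w₂ * N t w₂ else 0 := by
        calc M t ^ 2 = M t * M t := sq _
          _ ≤ g t * M t := mul_le_mul_of_nonneg_right (hMg t) (hM0 t)
          _ = ∑ w₂, (if z w₂ = t ∧ E w₂ then q w₂ else 0) * M t := by
              rw [hg, Finset.sum_mul]
          _ ≤ _ := by
              refine Finset.sum_le_sum fun w₂ _ => ?_
              by_cases h3 : z w₂ = t ∧ E w₂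
              · rw [if_pos h3, if_pos h3]
                rcases (n0 w₂).eq_or_lt with h4 | h4
                · rw [← h4, zero_mul, zero_mul]
                · refine mul_le_mul_of_nonneg_left ?_ (n0 w₂)
                  have h5 : w₂ ∈ C t := by
                    rw [hC]
                    simp only [Finset.mem_filter, Finset.mem_univ, true_and]
                    exact ⟨h4, h3.1, h3.2⟩
                  have h6 : (C t).Nonempty := ⟨w₂, h5⟩
                  rw [hM]
                  simp only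
                  rw [if_pos h6]
                  exact (hx t h6).2 w₂ h5
              · rw [if_neg h3, if_neg h3, zero_mul]
      calc M t ^ 2 / law q z t ≤
            (∑ w₂, if z w₂ = t ∧ E w₂ then q w₂ * N t w₂ else 0) / law q z t :=
            div_le_div_of_nonneg_right h2 hl
        _ = _ := by
            rw [Finset.sum_div]
            refine Finset.sum_congr rfl fun w₂ _ => ?_
            split_ifs
            · rfl
            · exact zero_div _
    refine (Finset.sum_le_sum e4).trans (le_of_eq ?_)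
    rw [Finset.sum_comm]
    unfold Pb
    rw [Fintype.sum_prod_type_right]
    refine Finset.sum_congr rfl fun w₂ _ => ?_
    rw [Finset.sum_eq_single (z w₂)]
    · by_cases h3 : E w₂
      · rw [if_pos ⟨rfl, h3⟩, hN]
        simp only
        rw [mul_comm (q w₂), mul_div_assoc, Finset.sum_mul]
        refine Finset.sum_congr rfl fun w₁ _ => ?_
        unfold glue
        simp only
        by_cases h4 : z w₁ = z w₂
        · rw [if_pos h4]
          by_cases h5 : E w₁ ∧ Bad w₁ w₂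
          · rw [if_pos ⟨h4, h5.1, h5.2⟩, if_pos ⟨h5.1, h3, h5.2⟩, h4]
            ring
          · rw [if_neg fun hh => h5 ⟨hh.2.1, hh.2.2⟩, if_neg fun hh => h5 ⟨hh.1, hh.2.2⟩, zero_mul]
        · rw [if_neg fun hh => h4 hh.1, if_neg h4, zero_mul, ite_self]
      · rw [if_neg fun hh => h3 hh.2]
        symm
        refine Finset.sum_eq_zero fun w₁ _ => ?_
        rw [if_neg fun hh => h3 hh.2.1]
    · intro t _ ht
      rw [if_neg fun hh => ht hh.1.symm]
    · intro hh
      exact absurd (Finset.mem_image_of_mem z (Finset.mem_univ w₂)) hh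
  have e5 : (∑ t ∈ univ.image z, M t) ^ 2 ≤ ρ := by
    refine (Finset.sum_sq_le_sum_mul_sum_of_sq_le_mul (univ.image z) (r := M)
      (f := fun t => law q z t) (g := fun t => M t ^ 2 / law q z t)
      (fun t _ => law_nonneg n0 _ _)
      (fun t _ => div_nonneg (sq_nonneg _) (law_nonneg n0 _ _)) ?_).trans ?_
    · intro t _
      rcases (law_nonneg n0 z t).eq_or_lt with h1 | h1
      · have h2 : M t ≤ law q z t := by
          refine (hMg t).trans ?_
          rw [hg]
          unfold law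
          refine Finset.sum_le_sum fun w _ => ?_
          by_cases h3 : z w = t ∧ E w
          · rw [if_pos h3, if_pos h3.1]
          · rw [if_neg h3]
            split_ifs
            · exact n0 w
            · exact le_rfl
        have h3 : M t = 0 := le_antisymm (h2.trans_eq h1.symm) (hM0 t)
        rw [h3]
        simp
      · refine le_of_eq ?_
        field_simp
    · have h1 : ∑ t ∈ univ.image z, law q z t = 1 := by
        unfold law
        rw [Finset.sum_comm, ← hq.sum_one]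
        refine Finset.sum_congr rfl fun ω _ => ?_
        rw [Finset.sum_ite_eq, if_pos (Finset.mem_image_of_mem z (Finset.mem_univ ω))]
      rw [h1, one_mul]
      exact e3
  exact e1.trans (Real.le_sqrt_of_sq_le e5)

section

variable {h m c : ℕ} {NN : Finset (Fin h →₀ ℕ)} {B : Bd h m c} {θ : ℝ}

/-- **The relation is a function of the exact point.** -/
theorem Ctx.vis (D : Ctx B θ) (hB : B.Ok) {a : Fin c → {γ // γ ∈ NN} → Fin m → ℝ[X]}
    {C₀ τ₀ τ τ' ρ' δ : ℝ} {S : Finset (Fin m)} {α₀ : Fin m}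
    (hNo : ¬ (D.gl D hB).Rel a C₀ τ₀ (S.erase α₀) τ' ρ') {s : D.G → Fin m → ℝ} (hs : Vec S s)
    (hδ : 0 < δ) (hτ : 2 * τ + 2 * m * τ₀ ≤ δ * τ') :
    ∃ sv : B.Ξ → Fin m → ℝ, Vec S sv ∧
      Pb D.q (fun w => D.Gp a C₀ τ₀ τ α₀ s w ∧
        ¬ (sv (B.pt (D.pr w)) α₀ = 1 ∧
          ∀ β, |s (D.x w) β - sv (B.pt (D.pr w)) β| ≤ δ)) ≤ Real.sqrt ρ' := by
  classical
  have n0 := D.isLaw.nonneg
  -- the two samples
  have h1 := (D.gl D hB).uniq (a := a) (C₀ := C₀) (τ₀ := τ₀) (τ' := τ') (ρ' := ρ') (S := S)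
    (α₀ := α₀) hNo (s := fun y => s y.1) (s' := fun y => s y.2)
    ⟨fun y α => hs.1 _ _, fun y α hα => hs.2 _ _ hα⟩
    ⟨fun y α => hs.1 _ _, fun y α hα => hs.2 _ _ hα⟩ (τ₁ := τ) (τ₂ := τ + 2 * m * τ₀) (δ := δ)
    hδ (by linarith)
  have h2 : Pb (glue D.q D.q (fun w => B.pt (D.pr w)) (fun w => B.pt (D.pr w)))
      (fun w => D.Gp a C₀ τ₀ τ α₀ s w.1 ∧ D.Gp a C₀ τ₀ τ α₀ s w.2 ∧
        ∃ β, δ < |s (D.x w.1) β - s (D.x w.2) β|) ≤ ρ' := by
    refine le_trans ?_ h1.le
    refine Pool.MIC.Pb_le_of_imp (D.gl D hB).isLaw.nonneg fun w hw hh => ?_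
    obtain ⟨g1, g2, g3⟩ := hh
    have hpos : 0 < D.q w.1 ∧ 0 < D.q w.2 ∧ B.pt (D.pr w.1) = B.pt (D.pr w.2) :=
      (glue_pos_iff (Z₁ := fun w => B.pt (D.pr w)) (Z₂ := fun w => B.pt (D.pr w)) n0 n0 w).1 hw
    refine ⟨g1.1, g1.2.1, g2.2.1, g1.2.2, fun l => ?_, g3⟩
    -- the second vector at the first sample
    have h3 : B.ev a (D.pr w.1) (s (D.x w.2)) l = B.ev a (D.pr w.2) (s (D.x w.2)) l +
        ∑ α, s (D.x w.2) α * (B.ev a (D.pr w.1) (Pi.single α 1) l -
          B.ev a (D.pr w.2) (Pi.single α 1) l) := by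
      rw [B.ev_sum a (D.pr w.1) (s (D.x w.2)) l, B.ev_sum a (D.pr w.2) (s (D.x w.2)) l,
        ← Finset.sum_add_distrib]
      refine Finset.sum_congr rfl fun α _ => ?_
      ring
    have h4 : ∀ α, |B.ev a (D.pr w.1) (Pi.single α 1) l -
        B.ev a (D.pr w.2) (Pi.single α 1) l| ≤ 2 * τ₀ := by
      intro α
      have h5 := g1.1.2.2 α l
      have h6 := g2.1.2.2 α l
      have h7 := hpos.2.2
      rw [h7] at h5
      rw [abs_le] at h5 h6 ⊢
      constructor <;> linarith [h5.1, h5.2, h6.1, h6.2]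
    show |B.ev a (D.pr w.1) (s (D.x w.2)) l| ≤ _
    rw [h3]
    refine (abs_add_le _ _).trans (add_le_add (g2.2.2 l) ?_)
    refine (Finset.abs_sum_le_sum_abs _ _).trans ?_
    have h8 : ∀ α ∈ (univ : Finset (Fin m)), |s (D.x w.2) α *
        (B.ev a (D.pr w.1) (Pi.single α 1) l - B.ev a (D.pr w.2) (Pi.single α 1) l)| ≤
          2 * τ₀ := by
      intro α _
      rw [abs_mul]
      calc _ ≤ 1 * (2 * τ₀) := mul_le_mul (hs.1 _ _) (h4 α) (abs_nonneg _) zero_le_one
        _ = _ := one_mul _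
    refine (Finset.sum_le_sum h8).trans (le_of_eq ?_)
    rw [Finset.sum_const, Finset.card_univ, Fintype.card_fin, nsmul_eq_mul]
    ring
  obtain ⟨x, hx⟩ := best D.isLaw (fun w => B.pt (D.pr w)) (D.Gp a C₀ τ₀ τ α₀ s)
    (fun w w' => ∃ β, δ < |s (D.x w) β - s (D.x w') β|) h2
  refine ⟨fun z => s (D.x (x z)), ⟨fun y α => hs.1 _ _, fun y α hα => hs.2 _ _ hα⟩,
    le_trans ?_ hx⟩
  refine Pool.MIC.Pb_le_of_imp n0 fun w _ hw => ⟨hw.1, fun hh => hw.2 ?_⟩
  obtain ⟨g1, g2, g3, g4⟩ := hh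
  refine ⟨g3.2.1, fun β => ?_⟩
  by_contra hc
  push Not at hc
  exact g4 ⟨β, hc⟩

end

end Pool.REL
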